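import Mathlib

/-!
# Sparse heads, module BNS: the Babai-Nisan-Szegedy bound for several blocks

`M + 1` blocks of the same positions `P`, functions `f j` which do not depend on the block `j`.
-/

set_option autoImplicit false

namespace Pool.Agent.SH

open Finset

/-- the sign of the positions in `y` where all blocks are `1` -/
noncomputable def sg {P : Type} [Fintype P] {M : ℕ} (y : P → Bool) (X : Fin M → P → Bool) : ℝ := by
  classical
  exact ∏ s, if y s = true ∧ ∀ j, X j s = true then -1 else 1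

/-- the sign of the positions in `D` where all blocks are `1` -/
private noncomputable def bnsChi {M : ℕ} {ι : Type} (D : Finset ι) (x : Fin M → ι → Bool) : ℝ :=
  ∏ i ∈ D, if ∀ b, x b i = true then (-1 : ℝ) else 1

private theorem bns_pair {ι : Type} [Fintype ι] [DecidableEq ι] (D : Finset ι) (β : ℝ) :
    ∑ z : ι → Bool, ∑ z' : ι → Bool, β ^ (D.filter fun i => z i ≠ z' i).card =
      ((2 : ℝ) ^ Fintype.card ι) ^ 2 * ((1 + β) / 2) ^ D.card := by
  have h1 : ∀ z : ι → Bool, ∑ z' : ι → Bool, β ^ (D.filter fun i => z i ≠ z' i).card =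
      (2 : ℝ) ^ Fintype.card ι * ((1 + β) / 2) ^ D.card := by
    intro z
    have h2 : ∀ z' : ι → Bool, β ^ (D.filter fun i => z i ≠ z' i).card =
        ∏ i : ι, if i ∈ D ∧ z i ≠ z' i then β else 1 := by
      intro z'
      rw [← prod_const, prod_filter, ← prod_filter_mul_prod_filter_not univ (· ∈ D)]
      have h3 : ∏ i ∈ univ.filter (fun i => ¬ i ∈ D),
          (if i ∈ D ∧ z i ≠ z' i then β else 1) = 1 := by
        refine prod_eq_one fun i hi => ?_
        rw [mem_filter] at hi
        rw [if_neg fun h => hi.2 h.1]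
      rw [h3, mul_one]
      have h4 : univ.filter (fun i => i ∈ D) = D := by
        ext i
        simp
      rw [h4]
      refine prod_congr rfl fun i hi => ?_
      simp [hi]
    have h5 : ∑ z' : ι → Bool, ∏ i : ι, (if i ∈ D ∧ z i ≠ z' i then β else 1) =
        ∏ i : ι, ∑ b : Bool, if i ∈ D ∧ z i ≠ b then β else 1 := by
      rw [prod_univ_sum, Fintype.piFinset_univ]
    rw [sum_congr rfl fun z' _ => h2 z', h5]
    have h6 : ∀ i : ι, (∑ b : Bool, if i ∈ D ∧ z i ≠ b then β else 1) =
        2 * (if i ∈ D then (1 + β) / 2 else 1) := by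
      intro i
      by_cases hi : i ∈ D
      · rw [if_pos hi]
        cases hz : z i <;> simp [hi] <;> ring
      · rw [if_neg hi]
        simp [hi]
    rw [prod_congr rfl fun i _ => h6 i, prod_mul_distrib, prod_const, card_univ]
    congr 1
    rw [prod_ite, prod_const_one, mul_one, prod_const]
    congr 2
    ext i
    simp
  rw [sum_congr rfl fun z _ => h1 z, sum_const, card_univ, Fintype.card_fun, Fintype.card_bool,
    nsmul_eq_mul]
  push_cast
  ring

private theorem bns_chi_sq {M : ℕ} {ι : Type} [DecidableEq ι] (D : Finset ι)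
    (z z' : ι → Bool) (y : Fin M → ι → Bool) :
    bnsChi D (Fin.cons z y : Fin (M + 1) → ι → Bool) *
      bnsChi D (Fin.cons z' y : Fin (M + 1) → ι → Bool) =
      bnsChi (D.filter fun i => z i ≠ z' i) y := by
  unfold bnsChi
  rw [← prod_mul_distrib, prod_filter]
  refine prod_congr rfl fun i _ => ?_
  have h : ∀ w : ι → Bool, (∀ b, (Fin.cons w y : Fin (M + 1) → ι → Bool) b i = true) ↔
      w i = true ∧ ∀ b, y b i = true := by
    intro w
    rw [Fin.forall_fin_succ]
    simp
  simp only [h]
  by_cases hy : ∀ b, y b i = true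
  · cases h1 : z i <;> cases h2 : z' i <;> simp [hy]
  · cases h1 : z i <;> cases h2 : z' i <;> simp [hy]

private theorem bns_base {ι : Type} [Fintype ι] [DecidableEq ι] (D : Finset ι)
    (f : Fin 1 → (Fin 1 → ι → Bool) → ℝ) (hf : ∀ b x, |f b x| ≤ 1)
    (hi : ∀ b x y, (∀ a, a ≠ b → x a = y a) → f b x = f b y) :
    |∑ x : Fin 1 → ι → Bool, bnsChi D x * ∏ b, f b x| ≤
      (1 - 1 / 4 ^ 0 : ℝ) ^ D.card * ((2 : ℝ) ^ Fintype.card ι) ^ 1 := by
  have h0 : ∀ x : Fin 1 → ι → Bool, f 0 x = f 0 (fun _ _ => false) := by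
    intro x
    refine hi 0 _ _ fun a ha => absurd (Subsingleton.elim a 0) ha
  have h1 : ∑ x : Fin 1 → ι → Bool, bnsChi D x * ∏ b, f b x =
      (∑ z : ι → Bool, ∏ i ∈ D, if z i = true then (-1 : ℝ) else 1) *
        f 0 (fun _ _ => false) := by
    rw [sum_mul]
    refine Fintype.sum_equiv (Equiv.funUnique (Fin 1) (ι → Bool)) _ _ fun x => ?_
    rw [Fin.prod_univ_one, h0 x]
    congr 1
    unfold bnsChi
    refine prod_congr rfl fun i _ => ?_
    have : (∀ b, x b i = true) ↔ (Equiv.funUnique (Fin 1) (ι → Bool)) x i = true := by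
      constructor
      · intro h
        exact h _
      · intro h b
        rw [Subsingleton.elim b default]
        exact h
    simp only [this]
  have h2 : ∑ z : ι → Bool, ∏ i ∈ D, (if z i = true then (-1 : ℝ) else 1) =
      ∏ i : ι, ∑ b : Bool, if i ∈ D ∧ b = true then (-1 : ℝ) else 1 := by
    have h3 : ∀ z : ι → Bool, ∏ i ∈ D, (if z i = true then (-1 : ℝ) else 1) =
        ∏ i : ι, if i ∈ D ∧ z i = true then (-1 : ℝ) else 1 := by
      intro z
      rw [← prod_filter_mul_prod_filter_not univ (· ∈ D)]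
      have h3 : ∏ i ∈ univ.filter (fun i => ¬ i ∈ D),
          (if i ∈ D ∧ z i = true then (-1 : ℝ) else 1) = 1 := by
        refine prod_eq_one fun i hi => ?_
        rw [mem_filter] at hi
        rw [if_neg fun h => hi.2 h.1]
      rw [h3, mul_one]
      have h4 : univ.filter (fun i => i ∈ D) = D := by
        ext i
        simp
      rw [h4]
      refine prod_congr rfl fun i hi => ?_
      simp [hi]
    rw [sum_congr rfl fun z _ => h3 z, prod_univ_sum, Fintype.piFinset_univ]
  rw [h1, h2]
  by_cases hD : D = ∅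
  · subst hD
    simp only [notMem_empty, false_and, if_false, sum_const, card_univ, Fintype.card_bool,
      prod_const, card_empty, pow_zero, one_mul, nsmul_eq_mul, mul_one, pow_one]
    rw [abs_mul, abs_pow]
    have := hf 0 (fun _ _ => false)
    calc |((2 : ℕ) : ℝ)| ^ Fintype.card ι * |f 0 fun _ _ => false|
        ≤ |((2 : ℕ) : ℝ)| ^ Fintype.card ι * 1 := by gcongr
      _ = 2 ^ Fintype.card ι := by
        rw [mul_one]
        norm_num
  · obtain ⟨i, hi⟩ := nonempty_iff_ne_empty.2 hD
    have h3 : ∏ i : ι, ∑ b : Bool, (if i ∈ D ∧ b = true then (-1 : ℝ) else 1) = 0 := by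
      refine prod_eq_zero (mem_univ i) ?_
      simp [hi]
    rw [h3, zero_mul, abs_zero]
    have h4 : (1 - 1 / 4 ^ 0 : ℝ) = 0 := by norm_num
    rw [h4]
    positivity

private theorem bns_main {ι : Type} [Fintype ι] [DecidableEq ι] (M : ℕ) :
    ∀ (D : Finset ι) (f : Fin (M + 1) → (Fin (M + 1) → ι → Bool) → ℝ),
      (∀ b x, |f b x| ≤ 1) → (∀ b x y, (∀ a, a ≠ b → x a = y a) → f b x = f b y) →
      |∑ x : Fin (M + 1) → ι → Bool, bnsChi D x * ∏ b, f b x| ≤
        (1 - 1 / 4 ^ M : ℝ) ^ D.card * ((2 : ℝ) ^ Fintype.card ι) ^ (M + 1) := by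
  induction M with
  | zero => exact fun D f hf hi => bns_base D f hf hi
  | succ M ih =>
    intro D f hf hi
    set N : ℝ := (2 : ℝ) ^ Fintype.card ι with hN
    have hN0 : 0 < N := by positivity
    have hcardY : (Fintype.card (Fin (M + 1) → ι → Bool) : ℝ) = N ^ (M + 1) := by
      rw [Fintype.card_fun, Fintype.card_fun, Fintype.card_bool, Fintype.card_fin]
      push_cast
      rfl
    -- split the sum
    have hsplit : ∑ x : Fin (M + 1 + 1) → ι → Bool, bnsChi D x * ∏ b, f b x =
        ∑ y : Fin (M + 1) → ι → Bool, f 0 (Fin.cons (fun _ => false) y) *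
          ∑ z : ι → Bool, bnsChi D (Fin.cons z y : Fin (M + 1 + 1) → ι → Bool) *
            ∏ b : Fin (M + 1), f b.succ (Fin.cons z y) := by
      rw [← (Fin.consEquiv fun _ : Fin (M + 1 + 1) => ι → Bool).sum_comp, Fintype.sum_prod_type,
        sum_comm]
      refine sum_congr rfl fun y _ => ?_
      rw [mul_sum]
      refine sum_congr rfl fun z _ => ?_
      have h1 : f 0 ((Fin.consEquiv fun _ : Fin (M + 1 + 1) => ι → Bool) (z, y)) =
          f 0 (Fin.cons (fun _ => false) y) := by
        refine hi 0 _ _ fun a ha => ?_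
        obtain ⟨c, rfl⟩ := Fin.exists_succ_eq.2 ha
        simp [Fin.consEquiv]
      rw [Fin.prod_univ_succ, h1]
      have h2 : (Fin.consEquiv fun _ : Fin (M + 1 + 1) => ι → Bool) (z, y) = Fin.cons z y := rfl
      rw [h2]
      ring
    rw [hsplit]
    set g : (Fin (M + 1) → ι → Bool) → (ι → Bool) → ℝ := fun y z =>
      bnsChi D (Fin.cons z y : Fin (M + 1 + 1) → ι → Bool) *
        ∏ b : Fin (M + 1), f b.succ (Fin.cons z y) with hg
    have hcs : (∑ y : Fin (M + 1) → ι → Bool, f 0 (Fin.cons (fun _ => false) y) *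
        ∑ z : ι → Bool, g y z) ^ 2 ≤
        N ^ (M + 1) * ∑ y : Fin (M + 1) → ι → Bool, (∑ z : ι → Bool, g y z) ^ 2 := by
      refine le_trans (sum_mul_sq_le_sq_mul_sq univ _ _) ?_
      refine mul_le_mul_of_nonneg_right ?_ (sum_nonneg fun y _ => sq_nonneg _)
      calc ∑ y : Fin (M + 1) → ι → Bool, f 0 (Fin.cons (fun _ => false) y) ^ 2
          ≤ ∑ y : Fin (M + 1) → ι → Bool, (1 : ℝ) := by
            refine sum_le_sum fun y _ => ?_
            rw [← sq_abs]
            exact pow_le_one₀ (abs_nonneg _) (hf _ _)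
        _ = N ^ (M + 1) := by
            rw [sum_const, card_univ, nsmul_eq_mul, mul_one, hcardY]
    -- the second factor
    have hsq : ∑ y : Fin (M + 1) → ι → Bool, (∑ z : ι → Bool, g y z) ^ 2 =
        ∑ z : ι → Bool, ∑ z' : ι → Bool, ∑ y : Fin (M + 1) → ι → Bool,
          bnsChi (D.filter fun i => z i ≠ z' i) y *
            ∏ b : Fin (M + 1), (f b.succ (Fin.cons z y) * f b.succ (Fin.cons z' y)) := by
      have h1 : ∀ y : Fin (M + 1) → ι → Bool, (∑ z : ι → Bool, g y z) ^ 2 =
          ∑ z : ι → Bool, ∑ z' : ι → Bool, bnsChi (D.filter fun i => z i ≠ z' i) y *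
            ∏ b : Fin (M + 1), (f b.succ (Fin.cons z y) * f b.succ (Fin.cons z' y)) := by
        intro y
        rw [sq, sum_mul_sum]
        refine sum_congr rfl fun z _ => sum_congr rfl fun z' _ => ?_
        rw [← bns_chi_sq, prod_mul_distrib, hg]
        ring
      rw [sum_congr rfl fun y _ => h1 y, sum_comm]
      refine sum_congr rfl fun z _ => ?_
      rw [sum_comm]
    set β : ℝ := 1 - 1 / 4 ^ M with hβ
    have hβ0 : 0 ≤ β := by
      rw [hβ, sub_nonneg, div_le_one (by positivity)]
      exact one_le_pow₀ (by norm_num)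
    have hle : ∑ y : Fin (M + 1) → ι → Bool, (∑ z : ι → Bool, g y z) ^ 2 ≤
        N ^ (M + 1) * (N ^ 2 * ((1 + β) / 2) ^ D.card) := by
      rw [hsq, hN, ← bns_pair D β, mul_sum]
      refine sum_le_sum fun z _ => ?_
      rw [mul_sum]
      refine sum_le_sum fun z' _ => ?_
      refine le_trans (le_abs_self _) ?_
      rw [mul_comm ((((2 : ℝ) ^ Fintype.card ι)) ^ (M + 1))]
      refine ih (D.filter fun i => z i ≠ z' i)
        (fun b y => f b.succ (Fin.cons z y) * f b.succ (Fin.cons z' y)) ?_ ?_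
      · intro b y
        rw [abs_mul]
        exact mul_le_one₀ (hf _ _) (abs_nonneg _) (hf _ _)
      · intro b x y h
        have hc : ∀ w : ι → Bool, f b.succ (Fin.cons w x) = f b.succ (Fin.cons w y) := by
          intro w
          refine hi _ _ _ fun a ha => ?_
          refine Fin.cases ?_ (fun c => ?_) a ha
          · intro _
            simp
          · intro hc
            simp only [Fin.cons_succ]
            exact h c fun h => hc (by rw [h])
        show f b.succ (Fin.cons z x) * f b.succ (Fin.cons z' x) = _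
        rw [hc z, hc z']
    have hβ2 : (1 + β) / 2 ≤ (1 - 1 / 4 ^ (M + 1) : ℝ) ^ 2 := by
      have h4 : (0 : ℝ) < 1 / 4 ^ (M + 1) := by positivity
      have h5 : (1 : ℝ) / 4 ^ M = 4 * (1 / 4 ^ (M + 1)) := by
        rw [pow_succ]
        field_simp
      rw [hβ, h5]
      nlinarith
    have hβ1 : (0 : ℝ) ≤ 1 - 1 / 4 ^ (M + 1) := by
      rw [sub_nonneg, div_le_one (by positivity)]
      exact one_le_pow₀ (by norm_num)
    refine abs_le_of_sq_le_sq ?_ (by positivity)
    calc (∑ y : Fin (M + 1) → ι → Bool, f 0 (Fin.cons (fun _ => false) y) *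
        ∑ z : ι → Bool, g y z) ^ 2
        ≤ N ^ (M + 1) * (N ^ (M + 1) * (N ^ 2 * ((1 + β) / 2) ^ D.card)) :=
          hcs.trans (mul_le_mul_of_nonneg_left hle (by positivity))
      _ = (N ^ (M + 1 + 1)) ^ 2 * ((1 + β) / 2) ^ D.card := by ring
      _ ≤ (N ^ (M + 1 + 1)) ^ 2 * ((1 - 1 / 4 ^ (M + 1) : ℝ) ^ 2) ^ D.card := by
          have : 0 ≤ (1 + β) / 2 := by linarith
          gcongr
      _ = ((1 - 1 / 4 ^ (M + 1) : ℝ) ^ D.card * N ^ (M + 1 + 1)) ^ 2 := by
          rw [← pow_mul (1 - 1 / 4 ^ (M + 1) : ℝ) 2 D.card, mul_comm 2 D.card,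
            pow_mul (1 - 1 / 4 ^ (M + 1) : ℝ) D.card 2, ← mul_pow]
          ring

/-- the Babai-Nisan-Szegedy bound for `M + 1` blocks, for the positions in `y` -/
theorem bns {P : Type} [Fintype P] [DecidableEq P] (M : ℕ) (y : P → Bool)
    (f : Fin (M + 1) → (Fin (M + 1) → P → Bool) → ℝ) (hf : ∀ j X, |f j X| ≤ 1)
    (hind : ∀ j X a, f j (Function.update X j a) = f j X) :
    |∑ X, (∏ j, f j X) * sg y X| ≤ ((2 : ℝ) ^ Fintype.card P) ^ (M + 1) *
      (1 - 1 / (4 : ℝ) ^ M) ^ (univ.filter fun s => y s = true).card := by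
  have h := bns_main M (univ.filter fun s => y s = true) f hf (by
    intro j X X' hX
    have h1 : X' = Function.update X j (X' j) := by
      funext a
      by_cases ha : a = j
      · subst ha
        simp
      · rw [Function.update_of_ne ha, hX a ha]
    rw [h1, hind])
  have h1 : ∀ X : Fin (M + 1) → P → Bool,
      bnsChi (univ.filter fun s => y s = true) X = sg y X := by
    intro X
    classical
    unfold bnsChi sg
    rw [prod_filter]
    refine prod_congr rfl fun s _ => ?_
    by_cases hs : y s = true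
    · simp [hs]
    · simp [hs]
  calc |∑ X, (∏ j, f j X) * sg y X|
      = |∑ x : Fin (M + 1) → P → Bool,
          bnsChi (univ.filter fun s => y s = true) x * ∏ b, f b x| := by
        congr 1
        refine sum_congr rfl fun X _ => ?_
        rw [h1, mul_comm]
    _ ≤ _ := h
    _ = _ := mul_comm _ _

end Pool.Agent.SH
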