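import Mathlib
import Pool.Agent.Lib.MP_69a69c_lc_SH.BNS

/-!
# Few star-closed sets do not cover the inputs all of whose groups are even
-/

set_option autoImplicit false

namespace Pool.Agent.SH

open Finset

/-- in all groups the number of positions at which all blocks have a one is even -/
def ZeroM {m g M : ℕ} (X : Fin M → Fin m × Fin g → Bool) : Prop :=
  ∀ τ, (∑ s, (decide (∀ j, X j (τ, s) = true)).toNat) % 2 = 0

/-- the number of positions of a group at which all blocks have a one -/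
private def NoCover_par {m g M : ℕ} (X : Fin M → Fin m × Fin g → Bool) (τ : Fin m) : ℕ :=
  ∑ s, (decide (∀ j, X j (τ, s) = true)).toNat

private theorem NoCover_xor {m g M : ℕ} (X Y W : Fin (M + 1) → Fin m × Fin g → Bool)
    (h0 : ∀ p, W 0 p = xor (X 0 p) (Y 0 p)) (h1 : ∀ j : Fin M, W j.succ = X j.succ)
    (h2 : ∀ j : Fin M, Y j.succ = X j.succ) (τ : Fin m) :
    NoCover_par W τ % 2 = (NoCover_par X τ + NoCover_par Y τ) % 2 := by
  unfold NoCover_par
  rw [← Finset.sum_add_distrib]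
  conv_lhs => rw [Finset.sum_nat_mod]
  conv_rhs => rw [Finset.sum_nat_mod]
  congr 1
  refine Finset.sum_congr rfl fun s _ => ?_
  have key : ∀ a b c : Bool, (decide (xor a b = true ∧ c = true)).toNat % 2 =
      ((decide (a = true ∧ c = true)).toNat + (decide (b = true ∧ c = true)).toNat) % 2 := by
    decide
  have e : ∀ V : Fin (M + 1) → Fin m × Fin g → Bool, (∀ j : Fin M, V j.succ = X j.succ) →
      (decide (∀ j, V j (τ, s) = true)) =
        decide (V 0 (τ, s) = true ∧ decide (∀ j : Fin M, X j.succ (τ, s) = true) = true) := by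
    intro V hV
    rw [decide_eq_decide, Fin.forall_fin_succ, decide_eq_true_iff]
    simp only [hV]
  rw [e W h1, e X (fun _ => rfl), e Y h2, h0]
  exact key _ _ _

/-- at least `2 ^ -m` of all inputs have only even groups -/
theorem card_ZeroM (M m g : ℕ) :
    ((2 : ℝ) ^ (m * g)) ^ (M + 1) ≤
      2 ^ m * (Nat.card {X : Fin (M + 1) → Fin m × Fin g → Bool // ZeroM X} : ℝ) := by
  classical
  let Z : Finset (Fin (M + 1) → Fin m × Fin g → Bool) := univ.filter fun X => ZeroM X
  have hZ : ∀ X, X ∈ Z ↔ ZeroM X := by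
    intro X
    simp [Z]
  have hZc : Nat.card {X : Fin (M + 1) → Fin m × Fin g → Bool // ZeroM X} = Z.card :=
    Nat.subtype_card Z hZ
  let F : (Fin (M + 1) → Fin m × Fin g → Bool) →
      (Fin m → Bool) × (Fin M → Fin m × Fin g → Bool) := fun X =>
    (fun τ => decide (NoCover_par X τ % 2 = 1), fun j => X j.succ)
  let T : (Fin (M + 1) → Fin m × Fin g → Bool) → (Fin M → Fin m × Fin g → Bool) :=
    fun X j => X j.succ
  have h1 : Fintype.card (Fin (M + 1) → Fin m × Fin g → Bool) =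
      ∑ c, ((univ : Finset (Fin (M + 1) → Fin m × Fin g → Bool)).filter fun X => F X = c).card :=
    Finset.card_eq_sum_card_fiberwise fun _ _ => Finset.mem_coe.2 (Finset.mem_univ _)
  have h2 : Z.card = ∑ w, (Z.filter fun X => T X = w).card :=
    Finset.card_eq_sum_card_fiberwise fun _ _ => Finset.mem_coe.2 (Finset.mem_univ _)
  have h3 : ∀ (v : Fin m → Bool) (w : Fin M → Fin m × Fin g → Bool),
      ((univ : Finset (Fin (M + 1) → Fin m × Fin g → Bool)).filter fun X => F X = (v, w)).card ≤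
        (Z.filter fun X => T X = w).card := by
    intro v w
    rcases ((univ : Finset (Fin (M + 1) → Fin m × Fin g → Bool)).filter
      fun X => F X = (v, w)).eq_empty_or_nonempty with h | ⟨X0, hX0⟩
    · rw [h]
      simp
    have hX0' := (Finset.mem_filter.1 hX0).2
    simp only [F, Prod.mk.injEq] at hX0'
    refine Finset.card_le_card_of_injOn
      (fun X => (Fin.cons (fun p => xor (X 0 p) (X0 0 p)) w :
        Fin (M + 1) → Fin m × Fin g → Bool)) ?_ ?_
    · intro X hX
      have hX' := (Finset.mem_filter.1 (Finset.mem_coe.1 hX)).2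
      simp only [F, Prod.mk.injEq] at hX'
      rw [Finset.mem_coe, Finset.mem_filter, hZ]
      refine ⟨?_, ?_⟩
      · intro τ
        have h4 := NoCover_xor X X0 (Fin.cons (fun p => xor (X 0 p) (X0 0 p)) w)
          (fun p => by rw [Fin.cons_zero])
          (fun j => by rw [Fin.cons_succ, ← hX'.2])
          (fun j => by rw [congrFun hX0'.2 j, ← congrFun hX'.2 j]) τ
        have h5 := congrFun (hX'.1.trans hX0'.1.symm) τ
        rw [decide_eq_decide] at h5
        show NoCover_par _ τ % 2 = 0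
        omega
      · funext j
        simp only [T, Fin.cons_succ]
    · intro X hX X' hX' h
      have e1 := (Finset.mem_filter.1 (Finset.mem_coe.1 hX)).2
      have e2 := (Finset.mem_filter.1 (Finset.mem_coe.1 hX')).2
      simp only [F, Prod.mk.injEq] at e1 e2
      have h6 := congrFun h 0
      simp only [Fin.cons_zero] at h6
      funext j
      refine Fin.cases ?_ (fun j => ?_) j
      · funext p
        have := congrFun h6 p
        simpa using this
      · exact congrFun (e1.2.trans e2.2.symm) j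
  have h4 : Fintype.card (Fin (M + 1) → Fin m × Fin g → Bool) ≤ 2 ^ m * Z.card := by
    rw [h1, Fintype.sum_prod_type]
    calc _ ≤ ∑ _v : Fin m → Bool, ∑ w, (Z.filter fun X => T X = w).card :=
          Finset.sum_le_sum fun v _ => Finset.sum_le_sum fun w _ => h3 v w
      _ = 2 ^ m * Z.card := by
          rw [← h2, Finset.sum_const, Finset.card_univ, Fintype.card_fun, Fintype.card_bool,
            Fintype.card_fin, smul_eq_mul]
  rw [hZc]
  have h5 : Fintype.card (Fin (M + 1) → Fin m × Fin g → Bool) = (2 ^ (m * g)) ^ (M + 1) := by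
    rw [Fintype.card_fun, Fintype.card_fun, Fintype.card_prod, Fintype.card_bool,
      Fintype.card_fin, Fintype.card_fin, Fintype.card_fin]
  rw [h5] at h4
  exact_mod_cast h4

private theorem NoCover_sg {m g M : ℕ} (X : Fin M → Fin m × Fin g → Bool) (h : ZeroM X) :
    sg (fun _ => true) X = 1 := by
  classical
  have h1 : sg (fun _ => true) X = ∏ τ : Fin m, ∏ s : Fin g,
      (-1 : ℝ) ^ (decide (∀ j, X j (τ, s) = true)).toNat := by
    unfold sg
    rw [← Finset.prod_product', Finset.univ_product_univ]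
    refine Finset.prod_congr rfl fun p _ => ?_
    by_cases hp : ∀ j, X j p = true
    · simp [hp]
    · simp [hp]
  rw [h1]
  refine Finset.prod_eq_one fun τ _ => ?_
  rw [Finset.prod_pow_eq_pow_sum]
  apply Even.neg_one_pow
  rw [even_iff_two_dvd]
  exact Nat.dvd_of_mod_eq_zero (h τ)

/-- star-closed sets of inputs with only even groups are small -/
theorem card_star (M m : ℕ) (R : Set (Fin (M + 1) → Fin m × Fin (2 * 4 ^ M) → Bool))
    (hstar : ∀ (u : Fin (M + 1) → Fin m × Fin (2 * 4 ^ M) → Bool)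
      (v : Fin (M + 1) → Fin (M + 1) → Fin m × Fin (2 * 4 ^ M) → Bool),
      (∀ j j', j' ≠ j → v j j' = u j') → (∀ j, v j ∈ R) → u ∈ R)
    (hZ : ∀ X ∈ R, ZeroM X) :
    4 ^ m * (Nat.card R : ℝ) ≤ ((2 : ℝ) ^ (m * (2 * 4 ^ M))) ^ (M + 1) := by
  classical
  let f : Fin (M + 1) → (Fin (M + 1) → Fin m × Fin (2 * 4 ^ M) → Bool) → ℝ := fun j X =>
    if ∃ a, Function.update X j a ∈ R then 1 else 0
  have hf : ∀ j X, |f j X| ≤ 1 := by
    intro j X
    simp only [f]
    split_ifs <;> simp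
  have hind : ∀ j X a, f j (Function.update X j a) = f j X := by
    intro j X a
    simp only [f, Function.update_idem]
  have hprod : ∀ X, ∏ j, f j X = if X ∈ R then (1 : ℝ) else 0 := by
    intro X
    by_cases hX : X ∈ R
    · rw [if_pos hX]
      refine Finset.prod_eq_one fun j _ => ?_
      simp only [f]
      rw [if_pos ⟨X j, by rw [Function.update_eq_self]; exact hX⟩]
    · rw [if_neg hX]
      by_contra hne
      apply hX
      have h1 : ∀ j, ∃ a, Function.update X j a ∈ R := by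
        intro j
        by_contra hj
        apply hne
        refine Finset.prod_eq_zero (Finset.mem_univ j) ?_
        simp only [f]
        rw [if_neg hj]
      choose a ha using h1
      exact hstar X (fun j => Function.update X j (a j))
        (fun j j' hj => Function.update_of_ne hj _ _) ha
  have hb := bns M (fun _ : Fin m × Fin (2 * 4 ^ M) => true) f hf hind
  have hsum : ∑ X, (∏ j, f j X) * sg (fun _ : Fin m × Fin (2 * 4 ^ M) => true) X =
      (Nat.card R : ℝ) := by
    have h1 : ∀ X, (∏ j, f j X) * sg (fun _ : Fin m × Fin (2 * 4 ^ M) => true) X =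
        if X ∈ R then (1 : ℝ) else 0 := by
      intro X
      rw [hprod]
      by_cases hX : X ∈ R
      · rw [if_pos hX, NoCover_sg X (hZ X hX), one_mul]
      · rw [if_neg hX, zero_mul]
    have h2 : Nat.card R = (univ.filter fun X => X ∈ R).card :=
      Nat.subtype_card _ (fun X => by simp)
    rw [Finset.sum_congr rfl fun X _ => h1 X, h2]
    simp
  rw [hsum, Nat.abs_cast, Fintype.card_prod, Fintype.card_fin, Fintype.card_fin] at hb
  have hcard : (univ.filter fun s : Fin m × Fin (2 * 4 ^ M) => (true : Bool) = true).card =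
      m * (2 * 4 ^ M) := by
    rw [Finset.filter_true_of_mem (fun _ _ => rfl), Finset.card_univ, Fintype.card_prod,
      Fintype.card_fin, Fintype.card_fin]
  rw [hcard] at hb
  have h4 : (0 : ℝ) < 4 ^ M := by positivity
  have h5 : (0 : ℝ) ≤ 1 - 1 / 4 ^ M := by
    rw [sub_nonneg, div_le_one h4]
    exact one_le_pow₀ (by norm_num)
  have h6 : (1 - 1 / (4 : ℝ) ^ M) ^ (m * (2 * 4 ^ M)) ≤ Real.exp (-2) ^ m := by
    have h7 : (1 - 1 / (4 : ℝ) ^ M) ≤ Real.exp (-(1 / 4 ^ M)) := Real.one_sub_le_exp_neg _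
    calc (1 - 1 / (4 : ℝ) ^ M) ^ (m * (2 * 4 ^ M))
        ≤ Real.exp (-(1 / 4 ^ M)) ^ (m * (2 * 4 ^ M)) := pow_le_pow_left₀ h5 h7 _
      _ = Real.exp (-2) ^ m := by
          rw [← Real.exp_nat_mul, ← Real.exp_nat_mul]
          congr 1
          push_cast
          field_simp
  have h8 : 4 * Real.exp (-2) ≤ 1 := by
    have h9 : (4 : ℝ) ≤ Real.exp 2 := by
      have h10 : (2 : ℝ) ≤ Real.exp 1 := by
        have := Real.add_one_le_exp (1 : ℝ)
        linarith
      have h11 : Real.exp 2 = Real.exp 1 * Real.exp 1 := by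
        rw [← Real.exp_add]
        norm_num
      rw [h11]
      nlinarith
    rw [Real.exp_neg]
    rw [mul_inv_le_iff₀ (Real.exp_pos 2), one_mul]
    exact h9
  have h12 : 4 ^ m * (1 - 1 / (4 : ℝ) ^ M) ^ (m * (2 * 4 ^ M)) ≤ 1 := by
    calc 4 ^ m * (1 - 1 / (4 : ℝ) ^ M) ^ (m * (2 * 4 ^ M)) ≤ 4 ^ m * Real.exp (-2) ^ m :=
          mul_le_mul_of_nonneg_left h6 (by positivity)
      _ = (4 * Real.exp (-2)) ^ m := by rw [mul_pow]
      _ ≤ 1 := pow_le_one₀ (by positivity) h8
  calc 4 ^ m * (Nat.card R : ℝ) ≤ 4 ^ m * (((2 : ℝ) ^ (m * (2 * 4 ^ M))) ^ (M + 1) *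
        (1 - 1 / (4 : ℝ) ^ M) ^ (m * (2 * 4 ^ M))) :=
        mul_le_mul_of_nonneg_left hb (by positivity)
    _ = ((2 : ℝ) ^ (m * (2 * 4 ^ M))) ^ (M + 1) *
        (4 ^ m * (1 - 1 / (4 : ℝ) ^ M) ^ (m * (2 * 4 ^ M))) := by ring
    _ ≤ ((2 : ℝ) ^ (m * (2 * 4 ^ M))) ^ (M + 1) * 1 :=
        mul_le_mul_of_nonneg_left h12 (by positivity)
    _ = _ := mul_one _

theorem no_coverM (M m K : ℕ)
    (R : Fin K → Set (Fin (M + 1) → Fin m × Fin (2 * 4 ^ M) → Bool))
    (hstar : ∀ θ, ∀ (u : Fin (M + 1) → Fin m × Fin (2 * 4 ^ M) → Bool)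
      (v : Fin (M + 1) → Fin (M + 1) → Fin m × Fin (2 * 4 ^ M) → Bool),
      (∀ j j', j' ≠ j → v j j' = u j') → (∀ j, v j ∈ R θ) → u ∈ R θ)
    (hZ : ∀ θ, ∀ X ∈ R θ, ZeroM X) (hcov : ∀ X, ZeroM X → ∃ θ, X ∈ R θ) : 2 ^ m ≤ K := by
  classical
  have h1 := card_ZeroM M m (2 * 4 ^ M)
  have h2 : ∀ θ, 4 ^ m * (Nat.card (R θ) : ℝ) ≤ ((2 : ℝ) ^ (m * (2 * 4 ^ M))) ^ (M + 1) :=
    fun θ => card_star M m (R θ) (hstar θ) (hZ θ)
  have h3 : (Nat.card {X : Fin (M + 1) → Fin m × Fin (2 * 4 ^ M) → Bool // ZeroM X} : ℝ) ≤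
      ∑ θ, (Nat.card (R θ) : ℝ) := by
    have e1 : Nat.card {X : Fin (M + 1) → Fin m × Fin (2 * 4 ^ M) → Bool // ZeroM X} =
        (univ.filter fun X : Fin (M + 1) → Fin m × Fin (2 * 4 ^ M) → Bool => ZeroM X).card :=
      Nat.subtype_card _ (fun X => by simp)
    have e2 : ∀ θ, Nat.card (R θ) = (univ.filter fun X => X ∈ R θ).card :=
      fun θ => Nat.subtype_card _ (fun X => by simp)
    have e3 : (univ.filter fun X : Fin (M + 1) → Fin m × Fin (2 * 4 ^ M) → Bool =>
        ZeroM X).card ≤ ∑ θ, (univ.filter fun X => X ∈ R θ).card := by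
      refine le_trans (Finset.card_le_card ?_) Finset.card_biUnion_le
      intro X hX
      obtain ⟨θ, hθ⟩ := hcov X (Finset.mem_filter.1 hX).2
      rw [Finset.mem_biUnion]
      exact ⟨θ, Finset.mem_univ _, Finset.mem_filter.2 ⟨Finset.mem_univ _, hθ⟩⟩
    rw [e1]
    simp only [e2]
    exact_mod_cast e3
  set N : ℝ := ((2 : ℝ) ^ (m * (2 * 4 ^ M))) ^ (M + 1) with hN
  have hN0 : 0 < N := by positivity
  have h4 : 4 ^ m * ∑ θ, (Nat.card (R θ) : ℝ) ≤ K * N := by
    rw [Finset.mul_sum]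
    calc ∑ θ, 4 ^ m * (Nat.card (R θ) : ℝ) ≤ ∑ _θ : Fin K, N := Finset.sum_le_sum fun θ _ => h2 θ
      _ = K * N := by simp
  have h5 : (4 : ℝ) ^ m = 2 ^ m * 2 ^ m := by
    rw [← mul_pow]
    norm_num
  have h6 : (2 : ℝ) ^ m * 2 ^ m * N ≤ 2 ^ m * (K * N) := by
    calc (2 : ℝ) ^ m * 2 ^ m * N ≤ 2 ^ m * 2 ^ m * (2 ^ m * ∑ θ, (Nat.card (R θ) : ℝ)) :=
          mul_le_mul_of_nonneg_left (h1.trans (mul_le_mul_of_nonneg_left h3 (by positivity)))
            (by positivity)
      _ = 2 ^ m * (4 ^ m * ∑ θ, (Nat.card (R θ) : ℝ)) := by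
          rw [h5]
          ring
      _ ≤ 2 ^ m * (K * N) := mul_le_mul_of_nonneg_left h4 (by positivity)
  have h7 : (2 : ℝ) ^ m ≤ K := by
    have h8 : (0 : ℝ) < 2 ^ m := by positivity
    have h9 : (2 : ℝ) ^ m * ((2 : ℝ) ^ m * N) ≤ 2 ^ m * (K * N) := by
      rw [← mul_assoc]
      exact h6
    have h10 := le_of_mul_le_mul_left h9 h8
    exact le_of_mul_le_mul_right h10 hN0
  exact_mod_cast h7

end Pool.Agent.SH
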