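import Mathlib
import Pool.Agent.Lib.MP_b573ec_lc_HM.Core
import Pool.Agent.Lib.MP_b573ec_lc_HM.Hist

/-!
# Histories with values in a finite set
-/

set_option autoImplicit false

namespace Pool.Agent.SH

open Pool.Agent.HM (chg)

/-- the histories with at most `κ` changes which have the value `a₀` from the time `T` on -/
def HistG {α : Type} (T κ : ℕ) (a₀ : α) (ℓ : ℕ → α) : Prop :=
  (∀ t, T ≤ t → ℓ t = a₀) ∧ chg ℓ T ≤ κ

theorem HistG.chg_le {α : Type} {T κ : ℕ} {a₀ : α} {ℓ : ℕ → α} (h : HistG T κ a₀ ℓ) (t : ℕ) :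
    chg ℓ t ≤ κ := by
  classical
  rcases le_total t T with ht | ht
  · exact (Pool.Agent.HM.chg_mono ℓ ht).trans h.2
  · have key : ∀ d, chg ℓ (T + d) = chg ℓ T := by
      intro d
      induction d with
      | zero => rfl
      | succ d ih =>
        rw [← Nat.add_assoc, Pool.Agent.HM.chg_succ, ih, if_pos, Nat.add_zero]
        rw [h.1 _ (by omega), h.1 _ (by omega)]
    obtain ⟨d, rfl⟩ := Nat.exists_eq_add_of_le ht
    rw [key]
    exact h.2

private lemma histG_ex {α : Type} (T : ℕ) (ℓ : ℕ → α) (r : ℕ) : ∃ t, t = T ∨ r ≤ chg ℓ t :=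
  ⟨T, Or.inl rfl⟩

/-- the first time with at least `r` changes, or `T` -/
private noncomputable def histG_fst {α : Type} (T : ℕ) (ℓ : ℕ → α) (r : ℕ) : ℕ := by
  classical
  exact Nat.find (histG_ex T ℓ r)

private lemma histG_fst_le {α : Type} (T : ℕ) (ℓ : ℕ → α) (r : ℕ) : histG_fst T ℓ r ≤ T := by
  classical
  exact Nat.find_min' (histG_ex T ℓ r) (Or.inl rfl)

private lemma histG_fst_le_iff {α : Type} {T : ℕ} {ℓ : ℕ → α} {r t : ℕ} (ht : t < T) :
    histG_fst T ℓ r ≤ t ↔ r ≤ chg ℓ t := by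
  classical
  constructor
  · intro h
    rcases Nat.find_spec (histG_ex T ℓ r) with h1 | h1
    · exfalso
      have h2 : histG_fst T ℓ r = T := h1
      omega
    · exact h1.trans (Pool.Agent.HM.chg_mono ℓ h)
  · intro h
    exact Nat.find_min' (histG_ex T ℓ r) (Or.inr h)

private lemma histG_value {α : Type} {T : ℕ} {ℓ : ℕ → α} {t : ℕ} (ht : t < T) :
    ℓ t = ℓ (histG_fst T ℓ (chg ℓ t)) := by
  classical
  have h1 : histG_fst T ℓ (chg ℓ t) ≤ t := (histG_fst_le_iff ht).2 le_rfl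
  have h2 : chg ℓ t ≤ chg ℓ (histG_fst T ℓ (chg ℓ t)) :=
    (histG_fst_le_iff (lt_of_le_of_lt h1 ht)).1 le_rfl
  exact Pool.Agent.HM.chg_eq (le_antisymm h2 (Pool.Agent.HM.chg_mono ℓ h1))

/-- the first times and the values -/
private noncomputable def histG_key {α : Type} (T κ : ℕ) (ℓ : ℕ → α) :
    Fin (κ + 1) → Fin (T + 1) × α :=
  fun r => (⟨histG_fst T ℓ r, Nat.lt_succ_of_le (histG_fst_le T ℓ r)⟩, ℓ (histG_fst T ℓ r))

private lemma histG_key_inj {α : Type} {T κ : ℕ} {a₀ : α} {ℓ ℓ' : ℕ → α} (h : HistG T κ a₀ ℓ)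
    (h' : HistG T κ a₀ ℓ') (e : histG_key T κ ℓ = histG_key T κ ℓ') : ℓ = ℓ' := by
  have e1 : ∀ r, r ≤ κ → histG_fst T ℓ r = histG_fst T ℓ' r := by
    intro r hr
    have h1 := congrFun e ⟨r, Nat.lt_succ_of_le hr⟩
    exact congrArg Fin.val (congrArg Prod.fst h1)
  have e2 : ∀ r, r ≤ κ → ℓ (histG_fst T ℓ r) = ℓ' (histG_fst T ℓ' r) := by
    intro r hr
    have h1 := congrFun e ⟨r, Nat.lt_succ_of_le hr⟩
    exact congrArg Prod.snd h1
  funext t
  rcases Nat.lt_or_ge t T with ht | ht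
  · have hc : chg ℓ t = chg ℓ' t := by
      apply le_antisymm
      · have h1 := (histG_fst_le_iff (ℓ := ℓ) (r := chg ℓ t) ht).2 le_rfl
        rw [e1 _ (h.chg_le t)] at h1
        exact (histG_fst_le_iff ht).1 h1
      · have h1 := (histG_fst_le_iff (ℓ := ℓ') (r := chg ℓ' t) ht).2 le_rfl
        rw [← e1 _ (h'.chg_le t)] at h1
        exact (histG_fst_le_iff ht).1 h1
    rw [histG_value (ℓ := ℓ) ht, histG_value (ℓ := ℓ') ht, ← hc]
    exact e2 _ (h.chg_le t)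
  · rw [h.1 t ht, h'.1 t ht]

/-- codes of histories -/
theorem histG_codes {α : Type} [Fintype α] (T κ : ℕ) (a₀ : α) : ∃ code : (ℕ → α) → ℕ,
    (∀ ℓ, HistG T κ a₀ ℓ → code ℓ < ((T + 1) * Fintype.card α) ^ (κ + 1)) ∧
      ∀ ℓ ℓ', HistG T κ a₀ ℓ → HistG T κ a₀ ℓ' → code ℓ = code ℓ' → ℓ = ℓ' := by
  classical
  have hcard : Fintype.card (Fin (κ + 1) → Fin (T + 1) × α) =
      ((T + 1) * Fintype.card α) ^ (κ + 1) := by
    simp
  let e := Fintype.equivFinOfCardEq hcard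
  refine ⟨fun ℓ => (e (histG_key T κ ℓ)).val, fun ℓ _ => (e (histG_key T κ ℓ)).isLt, ?_⟩
  intro ℓ ℓ' h h' he
  exact histG_key_inj h h' (e.injective (Fin.val_injective he))

end Pool.Agent.SH
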