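import Mathlib
import Pool.Agent.Lib.MP_b573ec_lc_ST.Core
import Pool.Agent.Lib.MP_b573ec_lc_ST.Deriv
import Pool.Agent.Lib.MP_b573ec_lc_ST.Mixing

/-!
# The star lemma for skeletons, for families of transition relations
-/

set_option autoImplicit false

namespace Pool.Agent.SH

open Pool.Agent.ST (Rel Pop Nd Cs Sk Dv)

section StarR
variable {w : ℕ} {Δ Δ' : Rel w} {T : ℕ} {ph : ℕ → ℕ} {z : ℕ → Bool}

/-- A derivation uses only the moves at the times between its time and the time of the removal. -/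
theorem StarR_pop {t e : ℕ} {q r : Fin w} {g : Option (Fin w)} {l : List (ℕ × ℕ)}
    (hz : ∀ s, t ≤ s → s ≤ e → s < T → ∀ q g mv, Δ s q g (z s) mv → Δ' s q g (z s) mv)
    (h : Pop Δ T z t q g e r l) : Pop Δ' T z t q g e r l := by
  induction h with
  | fin q g => exact .fin q g
  | pop t q a q' ht hm => exact .pop t q a q' ht (hz t le_rfl le_rfl ht _ _ _ hm)
  | bot t q q1 t' q' l ht hm h1 ih =>
    exact .bot t q q1 t' q' l ht (hz t le_rfl h1.bounds.1 ht _ _ _ hm) (ih hz)
  | next t q g q1 t' q' l ht hm h1 ih =>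
    have hb := h1.bounds
    exact .next t q g q1 t' q' l ht (hz t le_rfl (by omega) ht _ _ _ hm)
      (ih fun s h2 h3 h4 => hz s (by omega) h3 h4)
  | push t q g q1 a t1 q2 t' q' l1 l2 ht hm h1 h2 ih1 ih2 =>
    have hb1 := h1.bounds
    have hb2 := h2.bounds
    exact .push t q g q1 a t1 q2 t' q' l1 l2 ht (hz t le_rfl (by omega) ht _ _ _ hm)
      (ih1 fun s h3 h4 h5 => hz s h3 (by omega) h5)
      (ih2 fun s h3 h4 h5 => hz s (by omega) h4 h5)

/-- A chain step uses only the moves at the times of the two phases. -/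
theorem StarR_cs (hph : Monotone ph) {ν ν' : Nd w}
    (hz : ∀ s < T, (ph s = ph ν.t ∨ ph s = ph ν.e) →
      ∀ q g mv, Δ s q g (z s) mv → Δ' s q g (z s) mv)
    (h : Cs Δ T ph z ν ν') : Cs Δ' T ph z ν ν' := by
  cases h with
  | bot t q q1 e r ht hm => exact Cs.bot t q q1 e r ht (hz t ht (Or.inl rfl) _ _ _ hm)
  | next t q g q1 e r ht hm hp => exact Cs.next t q g q1 e r ht (hz t ht (Or.inl rfl) _ _ _ hm) hp
  | left t q g q1 a t1 q2 e r l ht hm hpop hp =>
    refine Cs.left t q g q1 a t1 q2 e r l ht (hz t ht (Or.inl rfl) _ _ _ hm)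
      (StarR_pop (fun s h1 h2 h3 => hz s h3 (Or.inl ?_)) hpop) hp
    have h4 := hph h1
    have h5 := hph h2
    show ph s = ph t
    omega
  | right t q g q1 a t1 q2 e r l ht hm hpop hp =>
    refine Cs.right t q g q1 a t1 q2 e r l ht (hz t ht (Or.inl rfl) _ _ _ hm)
      (StarR_pop (fun s h1 h2 h3 => hz s h3 (Or.inr ?_)) hpop) hp
    have h4 := hph h1
    have h5 := hph h2
    show ph s = ph e
    omega

/-- A chain uses only the moves at the times of the two phases. -/
theorem StarR_chain (hph : Monotone ph) {ν ν' : Nd w}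
    (hz : ∀ s < T, (ph s = ph ν.t ∨ ph s = ph ν.e) →
      ∀ q g mv, Δ s q g (z s) mv → Δ' s q g (z s) mv)
    (h : Relation.ReflTransGen (Cs Δ T ph z) ν ν') :
    Relation.ReflTransGen (Cs Δ' T ph z) ν ν' := by
  induction h with
  | refl => exact Relation.ReflTransGen.refl
  | tail h1 h2 ih =>
    have h3 := Pool.Agent.ST.T5_chain_ph h1
    refine Relation.ReflTransGen.tail ih (StarR_cs hph ?_ h2)
    intro s hs h4
    rw [h3.1, h3.2] at h4
    exact hz s hs h4

end StarR

/-- If several transition relations have the same skeleton from a node, then a transition relation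
which contains, at the times of any two phases, one of them, has this skeleton, too. -/
theorem Dv_starR {w T : ℕ} {ph : ℕ → ℕ} (hph : Monotone ph) {ι : Type*} (Δs : ι → Rel w)
    {Δ : Rel w} {z : ℕ → Bool}
    (hz : ∀ P Q : ℕ, ∃ i, ∀ s < T, (ph s = P ∨ ph s = Q) →
      ∀ q g mv, Δs i s q g (z s) mv → Δ s q g (z s) mv) (s : Sk w) :
    ∀ ν : Nd w, (∀ i, Dv (Δs i) T ph z ν s) → Dv Δ T ph z ν s := by
  induction s with
  | int =>
    intro ν h
    obtain ⟨i, hi⟩ := hz (ph ν.t) (ph ν.e)
    have h1 := h i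
    cases h1 with
    | int t q g e r l hp hpop =>
      refine Dv.int t q g e r l hp (StarR_pop (fun s h1 h2 h3 => hi s h3 (Or.inl ?_)) hpop)
      have h4 := hph h1
      have h5 := hph h2
      show ph s = ph t
      omega
  | nxt ν0 q0 s ih =>
    intro ν h
    obtain ⟨i, hi⟩ := hz (ph ν.t) (ph ν.e)
    have h1 := h i
    cases h1 with
    | nxt _ t q g q1 e r s hlt hch ht hm hp1 hp2 hd =>
      have hinv := Pool.Agent.ST.T5_chain_ph hch
      refine Dv.nxt ν t q g q0 e r s hlt (StarR_chain hph hi hch) ht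
        (hi t ht (Or.inl hinv.1) _ _ _ hm) hp1 hp2 (ih _ ?_)
      intro j
      have h2 := h j
      cases h2 with
      | nxt _ _ _ _ _ _ _ _ _ _ _ _ _ _ hd' => exact hd'
  | br ν0 q0 a0 t0 q0' s s' ih ih' =>
    intro ν h
    obtain ⟨i, hi⟩ := hz (ph ν.t) (ph ν.e)
    have h1 := h i
    cases h1 with
    | br _ t q g q1 a t1 q2 e r s s' hlt hch ht hm hp1 hp2 hd hd2 =>
      have hinv := Pool.Agent.ST.T5_chain_ph hch
      refine Dv.br ν t q g q0 a0 t0 q0' e r s s' hlt (StarR_chain hph hi hch) ht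
        (hi t ht (Or.inl hinv.1) _ _ _ hm) hp1 hp2 (ih _ ?_) (ih' _ ?_)
      · intro j
        have h2 := h j
        cases h2 with
        | br _ _ _ _ _ _ _ _ _ _ _ _ _ _ _ _ _ _ hd' hd2' => exact hd'
      · intro j
        have h2 := h j
        cases h2 with
        | br _ _ _ _ _ _ _ _ _ _ _ _ _ _ _ _ _ _ hd' hd2' => exact hd2'

end Pool.Agent.SH
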