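import Mathlib
import Pool.Agent.Lib.MP_b573ec_lc_LT.Model
import Pool.Agent.Lib.MP_b573ec_lc_ST.Model
import Pool.Agent.Lib.MP_b573ec_lc_HM.Model
import Pool.Agent.Lib.MP_69a69c_lc_FP.StackModel

/-!
# Multihead stack programs with a query tape: Cook reductions by multihead stack machines

A multihead stack program (see `Pool.Agent.HM.HeadProg`) which has moreover a write-only query
tape.  The query tape and the stack are not counted as space; the number of moves of the stack and
of queries and the height of the stack are not bounded.
-/

set_option autoImplicit false

namespace Pool.Agent.SH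

open Pool.Agent.LT (Inp)
open Pool.Agent.ST (getBit)
open Pool.Agent.HM (Move Conf)
open Pool.Agent.StackO (reply rest AtMostPerLength)

/-- A configuration: the configuration of the multihead stack program, and the word on the query
tape. -/
structure OConf (n k w : ℕ) where
  conf : Conf n k w
  tape : List Bool

/-- A deterministic multihead stack program with a query tape, on `n` Boolean variables, with `k`
heads and width `w`.  In a move it appends to the query tape the letter `write` (nothing if this is
`none`); then, if `ask` holds, it asks the oracle about the word on the query tape and empties the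
query tape; then it makes the move `move` of a multihead stack program, which depends on the answer
(`false` if nothing was asked).  All this depends on the number of head moves made so far, on the
cells of the heads, on the state, on the top symbol of the stack (`none` if the stack is empty) and
on the values of the `k` variables on which the heads stand. -/
structure OHeadProg (n k w : ℕ) where
  heads : Fin k → Fin n
  start : Fin w
  write : ℕ → (Fin k → Fin n) → Fin w → Option (Fin w) → (Fin k → Bool) → Option Bool
  ask : ℕ → (Fin k → Fin n) → Fin w → Option (Fin w) → (Fin k → Bool) → Bool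
  move : ℕ → (Fin k → Fin n) → Fin w → Option (Fin w) → (Fin k → Bool) → Bool → Move k w
  acc : Fin w → Bool

/-- one step on the input `x`, with the oracle `A` for queries of at most `M` letters; nothing
changes after `T` head moves -/
noncomputable def OHeadProg.step {n k w : ℕ} (P : OHeadProg n k w) (A : Set (List Bool)) (M T : ℕ)
    (x : Inp n) (c : OConf n k w) : OConf n k w :=
  if c.conf.time < T then
    let t := c.conf.time
    let h := c.conf.heads
    let q := c.conf.state
    let a := c.conf.stack.head?
    let y : Fin k → Bool := fun r => x (h r)
    let u := c.tape ++ (P.write t h q a y).toList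
    let s := P.ask t h q a y
    ⟨c.conf.after (P.move t h q a y (reply A M s u)), rest s u⟩
  else c

/-- the configuration after `j` steps on the input `x` -/
noncomputable def OHeadProg.config {n k w : ℕ} (P : OHeadProg n k w) (A : Set (List Bool))
    (M T : ℕ) (x : Inp n) (j : ℕ) : OConf n k w :=
  (P.step A M T x)^[j] ⟨⟨0, P.heads, P.start, []⟩, []⟩

/-- `P` makes `T` head moves on the input `x`, and then has the output `b` -/
def OHeadProg.Outputs {n k w : ℕ} (P : OHeadProg n k w) (A : Set (List Bool)) (M T : ℕ)
    (x : Inp n) (b : Bool) : Prop :=
  ∃ j, (P.config A M T x j).conf.time = T ∧ P.acc (P.config A M T x j).conf.state = b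

/-- `f` is computed by a deterministic multihead stack program with `k` heads, `T` head moves and
width `w`, which asks the oracle `A` about words of at most `M` letters -/
def HeadDetO {n : ℕ} (A : Set (List Bool)) (M : ℕ) (f : Inp n → Bool) (k T w : ℕ) : Prop :=
  ∃ P : OHeadProg n k w, ∀ x, P.Outputs A M T x (f x)

/-- The same with one-sided error: the program may depend on `ρ` uniform random bits `c`; if
`f x = 1` it has output `1` with probability at least `1/2`, if `f x = 0` it always has output
`0`. -/
def HeadOneSidedO {n : ℕ} (A : Set (List Bool)) (M : ℕ) (f : Inp n → Bool) (k T w : ℕ) : Prop :=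
  ∃ (ρ : ℕ) (P : (Fin ρ → Bool) → OHeadProg n k w),
    (∀ x, f x = true → 2 ^ ρ ≤ 2 * Nat.card {c : Fin ρ → Bool // (P c).Outputs A M T x true}) ∧
    ∀ x, f x = false → ∀ c, (P c).Outputs A M T x false

/-- The same with two-sided error `1/3`. -/
def HeadTwoSidedO {n : ℕ} (A : Set (List Bool)) (M : ℕ) (f : Inp n → Bool) (k T w : ℕ) : Prop :=
  ∃ (ρ : ℕ) (P : (Fin ρ → Bool) → OHeadProg n k w),
    ∀ x, 2 * 2 ^ ρ ≤ 3 * Nat.card {c : Fin ρ → Bool // (P c).Outputs A M T x (f x)}

/-- A nondeterministic multihead stack program with a query tape: `move t h q a y o s r mv` tells
that after `t` head moves, with the heads on the cells `h`, in state `q`, with top symbol `a`, if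
the variables under the heads have the values `y`, it is allowed to append the letter `o` (nothing
if `o = none`) to the query tape, to ask the oracle if `s` holds, and to make the move `mv` if the
answer is `r` (`false` if nothing was asked). -/
structure ONHeadProg (n k w : ℕ) where
  start : (Fin k → Fin n) → Fin w → Prop
  move : ℕ → (Fin k → Fin n) → Fin w → Option (Fin w) → (Fin k → Bool) → Option Bool → Bool →
    Bool → Move k w → Prop
  acc : Fin w → Prop

/-- the steps on the input `x`, with the oracle `A` for queries of at most `M` letters -/
def ONHeadProg.Step {n k w : ℕ} (P : ONHeadProg n k w) (A : Set (List Bool)) (M T : ℕ) (x : Inp n)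
    (c c' : OConf n k w) : Prop :=
  c.conf.time < T ∧ ∃ (o : Option Bool) (s : Bool) (mv : Move k w),
    P.move c.conf.time c.conf.heads c.conf.state c.conf.stack.head?
      (fun r => x (c.conf.heads r)) o s (reply A M s (c.tape ++ o.toList)) mv ∧
    c' = ⟨c.conf.after mv, rest s (c.tape ++ o.toList)⟩

/-- `P` has a computation on the input `x` with `T` head moves which ends in an accepting state -/
def ONHeadProg.Accepts {n k w : ℕ} (P : ONHeadProg n k w) (A : Set (List Bool)) (M T : ℕ)
    (x : Inp n) : Prop :=
  ∃ h q c, P.start h q ∧ Relation.ReflTransGen (P.Step A M T x) ⟨⟨0, h, q, []⟩, []⟩ c ∧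
    c.conf.time = T ∧ P.acc c.conf.state

/-- `f` is computed by a nondeterministic multihead stack program with `k` heads, `T` head moves
and width `w`, which asks the oracle `A` about words of at most `M` letters -/
def HeadNondetO {n : ℕ} (A : Set (List Bool)) (M : ℕ) (f : Inp n → Bool) (k T w : ℕ) : Prop :=
  ∃ P : ONHeadProg n k w, ∀ x, f x = true ↔ P.Accepts A M T x

/-! ## The languages -/

/-- the length of the groups of positions for `k` heads -/
abbrev grpLen (k : ℕ) : ℕ := 2 * 4 ^ (2 * k)

/-- The language `langH k`, for machines with `k` heads: the input has `2 * k + 1` blocks of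
`N = ⌊n / (2 * k + 1)⌋` bits (the remaining bits do not matter), and the positions `0, ..., N - 1`
are cut into groups of length `grpLen k`; the input belongs to the language if for some group
`t < ⌊N / grpLen k⌋` the number of positions of this group at which all blocks have a one is
odd. -/
def langH (k n : ℕ) (x : Inp n) : Bool :=
  decide (∃ t < n / (2 * k + 1) / grpLen k, (∑ i ∈ Finset.range (grpLen k),
    (decide (∀ j < 2 * k + 1,
      getBit x (j * (n / (2 * k + 1)) + (grpLen k * t + i)) = true)).toNat) % 2 = 1)

end Pool.Agent.SH
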