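import Mathlib
import Pool.Agent.Lib.MP_69a69c_lc_TS.Trie
import Pool.Agent.Lib.MP_69a69c_lc_FP.StackSim
import Pool.Agent.Lib.MP_69a69c_lc_SH.OModel

/-!
# Multihead stack programs with a sparse oracle are simulated by multihead stack programs

The simulating program keeps, instead of the query tape, the node of the trie of the oracle.
-/

set_option autoImplicit false

namespace Pool.Agent.SH

open Pool.Agent.LT (Inp)
open Pool.Agent.HM (Move Conf HeadProg NHeadProg HeadDet HeadOneSided HeadTwoSided HeadNondet)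
open Pool.Agent.StackO (reply rest AtMostPerLength Tn nreply nrest nreply_node nrest_node
  card_states)
open Pool.Agent.SparseTS (nodes node ext ans ext_node ans_node card_nodes)

variable {n k w T : ℕ} {A : Set (List Bool)} {M : ℕ}

variable {w' : ℕ} (e : Fin w × Tn A M ≃ Fin w')

/-- the symbol of a symbol of the simulating program -/
def OSim.sym (a : Fin w') : Fin w := (e.symm a).1

theorem OSim.sym_e (a : Fin w) (o : Tn A M) : OSim.sym e (e (a, o)) = a := by
  simp [OSim.sym]

/-- the simulated configuration -/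
noncomputable def OSim.red (c : OConf n k w) : Conf n k w' :=
  ⟨c.conf.time, c.conf.heads, e (c.conf.state, node A M c.tape),
    c.conf.stack.map fun a => e (a, none)⟩

/-- the simulated move, to the node `o` -/
def OSim.encMove (mv : Move k w) (o : Tn A M) : Move k w' :=
  match mv with
  | .push q a => .push (e (q, o)) (e (a, none))
  | .pop q => .pop (e (q, o))
  | .head q r d => .head (e (q, o)) r d

theorem OSim.red_after (c : OConf n k w) (mv : Move k w) (u : List Bool) :
    (OSim.red e c).after (OSim.encMove e mv (node A M u)) =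
      OSim.red e ⟨c.conf.after mv, u⟩ := by
  cases mv <;> simp [Conf.after, OSim.encMove, OSim.red, List.map_tail]

theorem OSim.red_head (c : OConf n k w) :
    (OSim.red e c).stack.head?.map (OSim.sym e) = c.conf.stack.head? := by
  unfold OSim.red
  cases h : c.conf.stack <;> simp [OSim.sym_e]

theorem OSim.red_state (c : OConf n k w) :
    e.symm (OSim.red e c).state = (c.conf.state, node A M c.tape) := by
  simp [OSim.red]

/-! ## Deterministic programs -/

/-- the simulating program -/
noncomputable def OSim.detSim (P : OHeadProg n k w) : HeadProg n k w' where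
  heads := P.heads
  start := e (P.start, node A M [])
  move t h s top y :=
    let q := (e.symm s).1
    let a := top.map (OSim.sym e)
    let u := ext A M (e.symm s).2 (P.write t h q a y).toList
    let b := P.ask t h q a y
    OSim.encMove e (P.move t h q a y (nreply A M b u)) (nrest A M b u)
  acc s := P.acc (e.symm s).1

theorem OSim.detSim_step (P : OHeadProg n k w) (x : Inp n) (c : OConf n k w) :
    (OSim.detSim e P).step T x (OSim.red e c) = OSim.red e (P.step A M T x c) := by
  classical
  unfold HeadProg.step OHeadProg.step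
  by_cases h : c.conf.time < T
  · have h' : (OSim.red e c).time < T := h
    rw [if_pos h', if_pos h]
    simp only
    rw [← OSim.red_after]
    congr 1
    show OSim.encMove e _ _ = _
    rw [OSim.red_head, OSim.red_state]
    simp only
    rw [ext_node, nreply_node, nrest_node]
    rfl
  · have h' : ¬ (OSim.red e c).time < T := h
    rw [if_neg h', if_neg h]

theorem OSim.detSim_conf (P : OHeadProg n k w) (x : Inp n) (j : ℕ) :
    (OSim.detSim e P).conf T x j = OSim.red e (P.config A M T x j) := by
  unfold HeadProg.conf OHeadProg.config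
  induction j with
  | zero => simp [OSim.red, OSim.detSim]
  | succ j ih =>
    rw [Function.iterate_succ_apply', Function.iterate_succ_apply', ih, OSim.detSim_step]

theorem OSim.detSim_outputs (P : OHeadProg n k w) (x : Inp n) (b : Bool)
    (h : P.Outputs A M T x b) : (OSim.detSim e P).Outputs T x b := by
  obtain ⟨j, h1, h2⟩ := h
  refine ⟨j, ?_, ?_⟩
  · rw [OSim.detSim_conf]
    exact h1
  · rw [OSim.detSim_conf]
    show P.acc (e.symm (OSim.red e _).state).1 = b
    rw [OSim.red_state]
    exact h2

/-! ## Nondeterministic programs -/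

/-- the simulating program -/
noncomputable def OSim.nSim (P : ONHeadProg n k w) : NHeadProg n k w' where
  start h s := ∃ q, P.start h q ∧ s = e (q, node A M [])
  move t h s top y mv' := ∃ (o : Option Bool) (b : Bool) (mv : Move k w),
    P.move t h (e.symm s).1 (top.map (OSim.sym e)) y o b
      (nreply A M b (ext A M (e.symm s).2 o.toList)) mv ∧
    mv' = OSim.encMove e mv (nrest A M b (ext A M (e.symm s).2 o.toList))
  acc s := P.acc (e.symm s).1

theorem OSim.nSim_step (P : ONHeadProg n k w) (x : Inp n) (c : OConf n k w) (d : Conf n k w') :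
    (OSim.nSim e P).Step T x (OSim.red e c) d ↔
      ∃ c', P.Step A M T x c c' ∧ d = OSim.red e c' := by
  unfold NHeadProg.Step ONHeadProg.Step
  constructor
  · rintro ⟨h, mv', ⟨o, t, mv, h1, h2⟩, h3⟩
    have h' : c.conf.time < T := h
    rw [OSim.red_state, OSim.red_head] at h1
    rw [OSim.red_state] at h2
    simp only at h1 h2
    rw [ext_node] at h1 h2
    rw [nreply_node] at h1
    rw [nrest_node] at h2
    refine ⟨_, ⟨h', o, t, mv, h1, rfl⟩, ?_⟩
    rw [h3, h2, OSim.red_after]
  · rintro ⟨c', ⟨h, o, t, mv, h1, h2⟩, h3⟩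
    have h' : (OSim.red e c).time < T := h
    refine ⟨h', OSim.encMove e mv (node A M (rest t (c.tape ++ o.toList))),
      ⟨o, t, mv, ?_, ?_⟩, ?_⟩
    · rw [OSim.red_state, OSim.red_head]
      simp only
      rw [ext_node, nreply_node]
      exact h1
    · rw [OSim.red_state]
      simp only
      rw [ext_node, nrest_node]
    · rw [h3, h2, OSim.red_after]

theorem OSim.nSim_accepts (P : ONHeadProg n k w) (x : Inp n) :
    P.Accepts A M T x ↔ (OSim.nSim e P).Accepts T x := by
  unfold NHeadProg.Accepts ONHeadProg.Accepts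
  constructor
  · rintro ⟨h, q, c, h1, h2, h3, h4⟩
    refine ⟨h, e (q, node A M []), OSim.red e c, ⟨q, h1, rfl⟩, ?_, h3, ?_⟩
    · have h5 : Relation.ReflTransGen ((OSim.nSim e P).Step T x)
          (OSim.red e ⟨⟨0, h, q, []⟩, []⟩) (OSim.red e c) := by
        clear h3 h4
        induction h2 with
        | refl => exact Relation.ReflTransGen.refl
        | tail _ hbd ih => exact ih.tail ((OSim.nSim_step e P x _ _).mpr ⟨_, hbd, rfl⟩)
      simpa [OSim.red] using h5
    · show P.acc (e.symm (OSim.red e c).state).1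
      rw [OSim.red_state]
      exact h4
  · rintro ⟨h, s, d, ⟨q, h1, rfl⟩, h2, h3, h4⟩
    have h5 : ∃ c, Relation.ReflTransGen (P.Step A M T x) ⟨⟨0, h, q, []⟩, []⟩ c ∧
        d = OSim.red e c := by
      have h6 : (⟨0, h, e (q, node A M []), []⟩ : Conf n k w') =
          OSim.red e ⟨⟨0, h, q, []⟩, []⟩ := by
        simp [OSim.red]
      rw [h6] at h2
      clear h3 h4
      induction h2 with
      | refl => exact ⟨_, Relation.ReflTransGen.refl, rfl⟩
      | tail _ hbd ih =>
        obtain ⟨c, h7, rfl⟩ := ih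
        obtain ⟨c', h8, h9⟩ := (OSim.nSim_step e P x c _).mp hbd
        exact ⟨c', h7.tail h8, h9⟩
    obtain ⟨c, h6, rfl⟩ := h5
    refine ⟨h, q, c, h1, h6, h3, ?_⟩
    have h7 : P.acc (e.symm (OSim.red e c).state).1 := h4
    rw [OSim.red_state] at h7
    exact h7

private theorem OSim.card_le {ρ : ℕ} {p q : (Fin ρ → Bool) → Prop} (h : ∀ c, p c → q c) :
    Nat.card {c : Fin ρ → Bool // p c} ≤ Nat.card {c : Fin ρ → Bool // q c} :=
  Nat.card_le_card_of_injective (fun c => (⟨c.1, h c.1 c.2⟩ : {c : Fin ρ → Bool // q c}))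
    fun a b hab => Subtype.ext (congrArg (fun z => z.1) hab)

theorem headDet_of_O {f : Inp n → Bool} {S : ℕ} (hA : AtMostPerLength A (2 ^ S))
    (hM : M ≤ 2 ^ S) (hS : 1 ≤ S) (hw : w ≤ 2 ^ S) (h : HeadDetO A M f k T w) :
    ∃ w' ≤ 2 ^ (7 * S), HeadDet f k T w' := by
  classical
  obtain ⟨P, hP⟩ := h
  exact ⟨_, card_states hA hM hS hw, OSim.detSim (Fintype.equivFin (Fin w × Tn A M)) P,
    fun x => OSim.detSim_outputs _ P x _ (hP x)⟩

theorem headOneSided_of_O {f : Inp n → Bool} {S : ℕ} (hA : AtMostPerLength A (2 ^ S))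
    (hM : M ≤ 2 ^ S) (hS : 1 ≤ S) (hw : w ≤ 2 ^ S) (h : HeadOneSidedO A M f k T w) :
    ∃ w' ≤ 2 ^ (7 * S), HeadOneSided f k T w' := by
  classical
  obtain ⟨ρ, P, hP, hP'⟩ := h
  refine ⟨_, card_states hA hM hS hw, ρ,
    fun c => OSim.detSim (Fintype.equivFin (Fin w × Tn A M)) (P c), fun x hx => ?_,
    fun x hx c => OSim.detSim_outputs _ (P c) x _ (hP' x hx c)⟩
  exact (hP x hx).trans (Nat.mul_le_mul_left 2
    (OSim.card_le fun c hc => OSim.detSim_outputs _ (P c) x _ hc))

theorem headTwoSided_of_O {f : Inp n → Bool} {S : ℕ} (hA : AtMostPerLength A (2 ^ S))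
    (hM : M ≤ 2 ^ S) (hS : 1 ≤ S) (hw : w ≤ 2 ^ S) (h : HeadTwoSidedO A M f k T w) :
    ∃ w' ≤ 2 ^ (7 * S), HeadTwoSided f k T w' := by
  classical
  obtain ⟨ρ, P, hP⟩ := h
  refine ⟨_, card_states hA hM hS hw, ρ,
    fun c => OSim.detSim (Fintype.equivFin (Fin w × Tn A M)) (P c), fun x => ?_⟩
  exact (hP x).trans (Nat.mul_le_mul_left 3
    (OSim.card_le fun c hc => OSim.detSim_outputs _ (P c) x _ hc))

theorem headNondet_of_O {f : Inp n → Bool} {S : ℕ} (hA : AtMostPerLength A (2 ^ S))
    (hM : M ≤ 2 ^ S) (hS : 1 ≤ S) (hw : w ≤ 2 ^ S) (h : HeadNondetO A M f k T w) :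
    ∃ w' ≤ 2 ^ (7 * S), HeadNondet f k T w' := by
  classical
  obtain ⟨P, hP⟩ := h
  exact ⟨_, card_states hA hM hS hw, OSim.nSim (Fintype.equivFin (Fin w × Tn A M)) P,
    fun x => (hP x).trans (OSim.nSim_accepts _ P x)⟩

end Pool.Agent.SH
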