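import Mathlib
import Pool.Agent.Lib.MP_69a69c_lc_FP.StackModel
import Pool.Agent.Lib.MP_b573ec_lc_HM.Compare
import Pool.Agent.Lib.MP_69a69c_lc_SH.OModel

/-!
# Stack programs with a query tape and `p` passes are one-head programs with `2 * p * n` head moves

(This module is not used for the result; it shows that the model contains the older one.)
-/

set_option autoImplicit false

namespace Pool.Agent.SH

open Pool.Agent.LT (Inp)
open Pool.Agent.HM (Move Conf nbr)
open Pool.Agent.StackO (reply rest OStackProg ONStackProg)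

/-! ## The schedule of the head -/

private theorem cmp_nbr {n : ℕ} (c : Fin n) (d : Bool) :
    ((nbr c d : Fin n) : ℕ) = if d then min ((c : ℕ) + 1) (n - 1) else (c : ℕ) - 1 := by
  have hc := c.2
  unfold nbr
  cases d
  · simp
  · simp only [if_true]
    split_ifs with h
    · show (c : ℕ) + 1 = _
      omega
    · omega

private def cmpHp {n : ℕ} (c0 : Fin n) (dir : ℕ → Bool) : ℕ → Fin n
  | 0 => c0
  | t + 1 => nbr (cmpHp c0 dir t) (dir t)

private theorem cmpHp_run {n : ℕ} (c0 : Fin n) (dir : ℕ → Bool) (a : ℕ) (d : Bool) (j : ℕ)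
    (h : ∀ i < j, dir (a + i) = d) :
    (cmpHp c0 dir (a + j) : ℕ) =
      if d then min ((cmpHp c0 dir a : ℕ) + j) (n - 1) else (cmpHp c0 dir a : ℕ) - j := by
  induction j with
  | zero =>
    have h0 := (cmpHp c0 dir a).2
    simp only [Nat.add_zero, Nat.sub_zero]
    split_ifs
    · omega
    · rfl
  | succ j ih =>
    have ih' := ih (fun i hi => h i (by omega))
    have e : cmpHp c0 dir (a + (j + 1)) = nbr (cmpHp c0 dir (a + j)) (dir (a + j)) := rfl
    rw [e, h j (by omega), cmp_nbr, ih']
    cases d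
    · simp only [Bool.false_eq_true, if_false]
      omega
    · simp only [if_true]
      omega

private def cmpFw {p : ℕ} (f : Fin p → Bool) (u : ℕ) : Bool :=
  if h : u < p then f ⟨u, h⟩ else true

private def cmpDir {p : ℕ} (n : ℕ) (f : Fin p → Bool) (t : ℕ) : Bool :=
  if t % (2 * n) < n then cmpFw f (t / (2 * n)) else !(cmpFw f (t / (2 * n) + 1))

private def cmpSt {n p : ℕ} (hn : 1 ≤ n) (f : Fin p → Bool) : Fin n :=
  if cmpFw f 0 then ⟨0, hn⟩ else ⟨n - 1, by omega⟩

private def cmpPos {n p : ℕ} (hn : 1 ≤ n) (f : Fin p → Bool) : ℕ → Fin n :=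
  cmpHp (cmpSt hn f) (cmpDir n f)

private theorem cmpPos_succ {n p : ℕ} (hn : 1 ≤ n) (f : Fin p → Bool) (t : ℕ) :
    cmpPos hn f (t + 1) = nbr (cmpPos hn f t) (cmpDir n f t) := rfl

private theorem cmp_mod {n : ℕ} (u o : ℕ) (ho : o < 2 * n) : (2 * n * u + o) % (2 * n) = o := by
  rw [Nat.mul_add_mod, Nat.mod_eq_of_lt ho]

private theorem cmp_div {n : ℕ} (u o : ℕ) (ho : o < 2 * n) : (2 * n * u + o) / (2 * n) = u := by
  rw [Nat.mul_add_div (by omega), Nat.div_eq_of_lt ho, Nat.add_zero]

private theorem cmpDir_read {n p : ℕ} (f : Fin p → Bool) (u o : ℕ) (ho : o < n) :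
    cmpDir n f (2 * n * u + o) = cmpFw f u := by
  unfold cmpDir
  rw [cmp_mod u o (by omega), cmp_div u o (by omega), if_pos ho]

private theorem cmpDir_wind {n p : ℕ} (f : Fin p → Bool) (u o : ℕ) (ho : n ≤ o)
    (ho2 : o < 2 * n) : cmpDir n f (2 * n * u + o) = !(cmpFw f (u + 1)) := by
  unfold cmpDir
  rw [cmp_mod u o ho2, cmp_div u o ho2, if_neg (by omega)]

private theorem cmpPos_read' {n p : ℕ} (hn : 1 ≤ n) (f : Fin p → Bool) (u : ℕ)
    (hu : (cmpPos hn f (2 * n * u) : ℕ) = if cmpFw f u then 0 else n - 1) (o : ℕ) (ho : o ≤ n) :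
    (cmpPos hn f (2 * n * u + o) : ℕ) =
      if cmpFw f u then min o (n - 1) else n - 1 - o := by
  have h := cmpHp_run (cmpSt hn f) (cmpDir n f) (2 * n * u) (cmpFw f u) o
    (fun i hi => cmpDir_read f u i (by omega))
  unfold cmpPos at hu ⊢
  rw [h, hu]
  cases cmpFw f u
  · simp
  · simp

private theorem cmpPos_start {n p : ℕ} (hn : 1 ≤ n) (f : Fin p → Bool) (u : ℕ) :
    (cmpPos hn f (2 * n * u) : ℕ) = if cmpFw f u then 0 else n - 1 := by
  induction u with
  | zero =>
    show ((cmpSt hn f : Fin n) : ℕ) = _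
    unfold cmpSt
    split_ifs <;> rfl
  | succ u ih =>
    have h1 := (cmpPos hn f (2 * n * u + n)).2
    have h2 := cmpHp_run (cmpSt hn f) (cmpDir n f) (2 * n * u + n) (!(cmpFw f (u + 1))) n
      (fun i hi => by
        rw [add_assoc]
        exact cmpDir_wind f u (n + i) (by omega) (by omega))
    have e : 2 * n * (u + 1) = 2 * n * u + n + n := by ring
    rw [e]
    unfold cmpPos at h1 ⊢
    rw [h2]
    cases cmpFw f (u + 1)
    · simp only [Bool.not_false, if_true, Bool.false_eq_true, if_false]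
      omega
    · simp only [Bool.not_true, if_true, Bool.false_eq_true, if_false]
      omega

private theorem cmpPos_read {n p : ℕ} (hn : 1 ≤ n) (f : Fin p → Bool) (u o : ℕ) (ho : o < n) :
    (cmpPos hn f (2 * n * u + o) : ℕ) = if cmpFw f u then o else n - 1 - o := by
  rw [cmpPos_read' hn f u (cmpPos_start hn f u) o ho.le]
  split_ifs
  · omega
  · rfl

private theorem cmp_lt {n p u o : ℕ} (hu : u < p) (ho : o < n) : u * n + o < p * n := by
  have h1 : (u + 1) * n ≤ p * n := Nat.mul_le_mul_right _ hu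
  rw [Nat.add_mul] at h1
  omega

private theorem cmp_divNat {n p u o : ℕ} (hu : u < p) (ho : o < n) :
    (⟨u * n + o, cmp_lt hu ho⟩ : Fin (p * n)).divNat = ⟨u, hu⟩ := by
  apply Fin.ext
  show (u * n + o) / n = u
  rw [Nat.mul_comm, Nat.mul_add_div (by omega), Nat.div_eq_of_lt ho, Nat.add_zero]

private theorem cmp_cell {n p : ℕ} (hn : 1 ≤ n) (f : Fin p → Bool) {u o : ℕ} (hu : u < p)
    (ho : o < n) :
    ST.cell f (⟨u * n + o, cmp_lt hu ho⟩ : Fin (p * n)) = cmpPos hn f (2 * n * u + o) := by
  apply Fin.ext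
  rw [cmpPos_read hn f u o ho]
  unfold ST.cell
  rw [cmp_divNat hu ho]
  have e : ((⟨u * n + o, cmp_lt hu ho⟩ : Fin (p * n)).modNat : ℕ) = o := by
    show (u * n + o) % n = o
    rw [Nat.mul_comm, Nat.mul_add_mod, Nat.mod_eq_of_lt ho]
  have e2 : cmpFw f u = f ⟨u, hu⟩ := by
    unfold cmpFw
    rw [dif_pos hu]
  rw [e2]
  split_ifs
  · exact e
  · rw [Fin.val_rev, e]
    omega

/-! ## The programs -/

private def cmpTr {w : ℕ} (d : Bool) : ST.Move w → Move 1 w
  | .push q a => .push q a
  | .pop q => .pop q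
  | .next q => .head q 0 d

private def cmpN {n p w : ℕ} (hn : 1 ≤ n) (P : ONStackProg n p w) : ONHeadProg n 1 w where
  start h q := h = (fun _ => cmpSt hn P.forward) ∧ P.start q
  move t h q g y o s r mv :=
    if hu : t % (2 * n) < n ∧ t / (2 * n) < p then
      ∃ mv', P.move ⟨t / (2 * n), hu.2⟩ (h 0) q g (y 0) o s r mv' ∧
        mv = cmpTr (cmpDir n P.forward t) mv'
    else o = none ∧ s = false ∧ mv = .head q 0 (cmpDir n P.forward t)
  acc := P.acc

private def cmpD {n p w : ℕ} (hn : 1 ≤ n) (P : OStackProg n p w) : OHeadProg n 1 w where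
  heads := fun _ => cmpSt hn P.forward
  start := P.start
  write t h q g y :=
    if hu : t % (2 * n) < n ∧ t / (2 * n) < p then
      P.write ⟨t / (2 * n), hu.2⟩ (h 0) q g (y 0)
    else none
  ask t h q g y :=
    if hu : t % (2 * n) < n ∧ t / (2 * n) < p then
      P.ask ⟨t / (2 * n), hu.2⟩ (h 0) q g (y 0)
    else false
  move t h q g y r :=
    if hu : t % (2 * n) < n ∧ t / (2 * n) < p then
      cmpTr (cmpDir n P.forward t) (P.move ⟨t / (2 * n), hu.2⟩ (h 0) q g (y 0) r)
    else .head q 0 (cmpDir n P.forward t)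
  acc := P.acc

private theorem cmpN_read {n p w : ℕ} (hn : 1 ≤ n) (P : ONStackProg n p w) {u o : ℕ}
    (hu : u < p) (ho : o < n) (h : Fin 1 → Fin n) (q : Fin w) (g : Option (Fin w))
    (y : Fin 1 → Bool) (l : Option Bool) (s r : Bool) (mv : Move 1 w) :
    (cmpN hn P).move (2 * n * u + o) h q g y l s r mv ↔
      ∃ mv', P.move ⟨u, hu⟩ (h 0) q g (y 0) l s r mv' ∧
        mv = cmpTr (cmpDir n P.forward (2 * n * u + o)) mv' := by
  have e1 := cmp_mod (n := n) u o (by omega)
  have e2 := cmp_div (n := n) u o (by omega)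
  unfold cmpN
  simp only
  rw [dif_pos ⟨by omega, by omega⟩]
  simp only [e2]

private theorem cmpN_wind {n p w : ℕ} (hn : 1 ≤ n) (P : ONStackProg n p w) {u o : ℕ}
    (ho : n ≤ o) (ho2 : o < 2 * n) (h : Fin 1 → Fin n) (q : Fin w) (g : Option (Fin w))
    (y : Fin 1 → Bool) (l : Option Bool) (s r : Bool) (mv : Move 1 w) :
    (cmpN hn P).move (2 * n * u + o) h q g y l s r mv ↔
      l = none ∧ s = false ∧ mv = .head q 0 (cmpDir n P.forward (2 * n * u + o)) := by
  have e1 := cmp_mod (n := n) u o ho2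
  unfold cmpN
  simp only
  rw [dif_neg (fun h => by omega)]

private theorem cmp_step {n p w : ℕ} (hn : 1 ≤ n) (P : ONStackProg n p w) (A : Set (List Bool))
    (M : ℕ) {u o : ℕ} (hu : u < p) (ho : o < n) (x : Inp n) (q : Fin w) (s : List (Fin w))
    (v : List Bool) (c' : StackO.OConf w) :
    P.Step A M x ⟨⟨u * n + o, q, s⟩, v⟩ c' ↔ ∃ (l : Option Bool) (b : Bool) (mv' : ST.Move w),
      P.move ⟨u, hu⟩ (cmpPos hn P.forward (2 * n * u + o)) q s.head?
        (x (cmpPos hn P.forward (2 * n * u + o))) l b (reply A M b (v ++ l.toList)) mv' ∧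
        c' = ⟨(⟨u * n + o, q, s⟩ : ST.Conf w).after mv', rest b (v ++ l.toList)⟩ := by
  have e1 := cmp_divNat hu ho
  have e2 := cmp_cell hn P.forward hu ho
  unfold ONStackProg.Step
  constructor
  · rintro ⟨h, l, b, mv, h1, h2⟩
    refine ⟨l, b, mv, ?_, h2⟩
    simp only at h1
    rw [e1, e2] at h1
    exact h1
  · rintro ⟨l, b, mv, h1, h2⟩
    refine ⟨cmp_lt hu ho, l, b, mv, ?_, h2⟩
    simp only
    rw [e1, e2]
    exact h1

private def cmpC {n p w : ℕ} (hn : 1 ≤ n) (f : Fin p → Bool) (t : ℕ) (q : Fin w)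
    (s : List (Fin w)) (v : List Bool) : OConf n 1 w := ⟨⟨t, fun _ => cmpPos hn f t, q, s⟩, v⟩

private theorem cmp_after {n p w : ℕ} (hn : 1 ≤ n) (f : Fin p → Bool) (t : ℕ) (q q' : Fin w)
    (s : List (Fin w)) (v v' : List Bool) :
    (⟨(cmpC hn f t q s v).conf.after (.head q' 0 (cmpDir n f t)), v'⟩ : OConf n 1 w) =
      cmpC hn f (t + 1) q' s v' := by
  unfold cmpC Conf.after
  simp only [OConf.mk.injEq, Conf.mk.injEq, and_true, true_and]
  funext i
  rw [Subsingleton.elim i 0, Function.update_self, cmpPos_succ]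

private theorem cmp_time {n p u o : ℕ} (hu : u < p) (ho : o < 2 * n) :
    2 * n * u + o < 2 * p * n := by
  have h1 : 2 * n * (u + 1) ≤ 2 * n * p := Nat.mul_le_mul_left _ hu
  have h2 : 2 * n * (u + 1) = 2 * n * u + 2 * n := by ring
  have h3 : 2 * n * p = 2 * p * n := by ring
  omega

private theorem cmp_rewind {n p w : ℕ} (hn : 1 ≤ n) (P : ONStackProg n p w)
    (A : Set (List Bool)) (M : ℕ) (x : Inp n)
    {u : ℕ} (hu : u < p) (q : Fin w) (s : List (Fin w)) (v : List Bool) (j : ℕ) (hj : j ≤ n) :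
    Relation.ReflTransGen ((cmpN hn P).Step A M (2 * p * n) x)
      (cmpC hn P.forward (2 * n * u + n) q s v)
      (cmpC hn P.forward (2 * n * u + n + j) q s v) := by
  induction j with
  | zero => exact Relation.ReflTransGen.refl
  | succ j ih =>
    refine (ih (by omega)).tail ⟨?_, none, false,
      .head q 0 (cmpDir n P.forward (2 * n * u + n + j)), ?_, ?_⟩
    · show 2 * n * u + n + j < 2 * p * n
      rw [add_assoc]
      exact cmp_time hu (by omega)
    · show (cmpN hn P).move (2 * n * u + n + j) _ _ _ _ _ _ _ _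
      rw [add_assoc, cmpN_wind hn P (by omega) (by omega)]
      exact ⟨rfl, rfl, rfl⟩
    · have e : rest false ((cmpC hn P.forward (2 * n * u + n + j) q s v).tape ++
          (none : Option Bool).toList) = v := by
        show v ++ [] = v
        rw [List.append_nil]
      rw [e, cmp_after]
      rfl

private theorem cmp_fwd {n p w : ℕ} (hn : 1 ≤ n) (P : ONStackProg n p w)
    (A : Set (List Bool)) (M : ℕ) (x : Inp n)
    {c c' : StackO.OConf w} (h : P.Step A M x c c') :
    Relation.ReflTransGen ((cmpN hn P).Step A M (2 * p * n) x)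
      (cmpC hn P.forward (2 * n * (c.conf.pos / n) + c.conf.pos % n) c.conf.state c.conf.stack
        c.tape)
      (cmpC hn P.forward (2 * n * (c'.conf.pos / n) + c'.conf.pos % n) c'.conf.state
        c'.conf.stack c'.tape) := by
  have hpos : c.conf.pos < p * n := by
    obtain ⟨h1, -⟩ := h
    exact h1
  obtain ⟨⟨pos, q, s⟩, v⟩ := c
  simp only at hpos ⊢
  have ho : pos % n < n := Nat.mod_lt _ hn
  have hu : pos / n < p := by
    rw [Nat.div_lt_iff_lt_mul hn]
    exact hpos
  have e : pos = pos / n * n + pos % n := by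
    rw [Nat.mul_comm]
    exact (Nat.div_add_mod pos n).symm
  generalize pos / n = u at *
  generalize pos % n = o at *
  subst e
  rw [cmp_step hn P A M hu ho] at h
  obtain ⟨l, b, mv, h1, rfl⟩ := h
  have hstep : (cmpN hn P).Step A M (2 * p * n) x (cmpC hn P.forward (2 * n * u + o) q s v)
      ⟨(cmpC hn P.forward (2 * n * u + o) q s v).conf.after
        (cmpTr (cmpDir n P.forward (2 * n * u + o)) mv), rest b (v ++ l.toList)⟩ := by
    refine ⟨cmp_time hu (by omega), l, b, _, ?_, rfl⟩
    show (cmpN hn P).move (2 * n * u + o) _ _ _ _ _ _ _ _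
    rw [cmpN_read hn P hu ho]
    exact ⟨mv, h1, rfl⟩
  have d1 : (u * n + o) / n = u := by
    rw [Nat.mul_comm, Nat.mul_add_div (by omega), Nat.div_eq_of_lt ho, Nat.add_zero]
  have d2 : (u * n + o) % n = o := by
    rw [Nat.mul_comm, Nat.mul_add_mod, Nat.mod_eq_of_lt ho]
  cases mv with
  | push q' a =>
    show Relation.ReflTransGen _ _
      (cmpC hn P.forward (2 * n * ((u * n + o) / n) + (u * n + o) % n) q' (a :: s)
        (rest b (v ++ l.toList)))
    rw [d1, d2]
    exact Relation.ReflTransGen.single hstep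
  | pop q' =>
    show Relation.ReflTransGen _ _
      (cmpC hn P.forward (2 * n * ((u * n + o) / n) + (u * n + o) % n) q' s.tail
        (rest b (v ++ l.toList)))
    rw [d1, d2]
    exact Relation.ReflTransGen.single hstep
  | next q' =>
    show Relation.ReflTransGen _ _
      (cmpC hn P.forward (2 * n * ((u * n + o + 1) / n) + (u * n + o + 1) % n) q' s
        (rest b (v ++ l.toList)))
    have hs : (⟨(cmpC hn P.forward (2 * n * u + o) q s v).conf.after
        (cmpTr (cmpDir n P.forward (2 * n * u + o)) (.next q')), rest b (v ++ l.toList)⟩ :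
          OConf n 1 w) =
          cmpC hn P.forward (2 * n * u + o + 1) q' s (rest b (v ++ l.toList)) :=
      cmp_after hn P.forward _ q q' s v _
    rw [hs] at hstep
    rcases Nat.lt_or_ge (o + 1) n with h2 | h2
    · have d3 : (u * n + o + 1) / n = u := by
        rw [add_assoc, Nat.mul_comm, Nat.mul_add_div (by omega), Nat.div_eq_of_lt h2,
          Nat.add_zero]
      have d4 : (u * n + o + 1) % n = o + 1 := by
        rw [add_assoc, Nat.mul_comm, Nat.mul_add_mod, Nat.mod_eq_of_lt h2]
      rw [d3, d4]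
      exact Relation.ReflTransGen.single hstep
    · have h3 : o + 1 = n := by omega
      have d5 : u * n + o + 1 = (u + 1) * n := by
        rw [add_assoc, h3]
        ring
      rw [d5, Nat.mul_div_cancel _ (by omega), Nat.mul_mod_left, Nat.add_zero]
      rw [add_assoc, h3] at hstep
      refine (Relation.ReflTransGen.single hstep).trans ?_
      have h4 := cmp_rewind hn P A M x hu q' s (rest b (v ++ l.toList)) n le_rfl
      have e5 : 2 * n * (u + 1) = 2 * n * u + n + n := by ring
      rw [e5]
      exact h4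

private theorem cmp_bwd {n p w : ℕ} (hn : 1 ≤ n) (P : ONStackProg n p w)
    (A : Set (List Bool)) (M : ℕ) (x : Inp n)
    (q0 : Fin w) {d : OConf n 1 w}
    (h : Relation.ReflTransGen ((cmpN hn P).Step A M (2 * p * n) x)
      (cmpC hn P.forward 0 q0 [] []) d) :
    d = cmpC hn P.forward d.conf.time d.conf.state d.conf.stack d.tape ∧
      d.conf.time ≤ 2 * p * n ∧
      Relation.ReflTransGen (P.Step A M x) ⟨⟨0, q0, []⟩, []⟩
        ⟨⟨d.conf.time / (2 * n) * n + min (d.conf.time % (2 * n)) n, d.conf.state,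
          d.conf.stack⟩, d.tape⟩ := by
  induction h with
  | refl =>
    refine ⟨rfl, Nat.zero_le _, ?_⟩
    show Relation.ReflTransGen (P.Step A M x) ⟨⟨0, q0, []⟩, []⟩
      ⟨⟨0 / (2 * n) * n + min (0 % (2 * n)) n, q0, []⟩, []⟩
    simp only [Nat.zero_div, Nat.zero_mul, Nat.zero_mod, Nat.zero_min, Nat.add_zero]
    exact Relation.ReflTransGen.refl
  | @tail c c' _ hst ih =>
    obtain ⟨hc, -, hr⟩ := ih
    obtain ⟨ht, l, b, mv, hmv, rfl⟩ := hst
    obtain ⟨⟨t, hd, q, s⟩, v⟩ := c
    simp only at hc hr ht hmv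
    have ho : t % (2 * n) < 2 * n := Nat.mod_lt _ (by omega)
    have hu : t / (2 * n) < p := by
      rw [Nat.div_lt_iff_lt_mul (by omega)]
      have h3 : p * (2 * n) = 2 * p * n := by ring
      omega
    have e : t = 2 * n * (t / (2 * n)) + t % (2 * n) := (Nat.div_add_mod t (2 * n)).symm
    have hhd : hd = fun _ => cmpPos hn P.forward t :=
      congrArg (fun c : OConf n 1 w => c.conf.heads) hc
    subst hhd
    clear hc
    generalize t / (2 * n) = u at *
    generalize t % (2 * n) = o at *
    subst e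
    rcases Nat.lt_or_ge o n with h4 | h4
    · have hmv' : ∃ mv', P.move ⟨u, hu⟩ (cmpPos hn P.forward (2 * n * u + o)) q s.head?
          (x (cmpPos hn P.forward (2 * n * u + o))) l b (reply A M b (v ++ l.toList)) mv' ∧
            mv = cmpTr (cmpDir n P.forward (2 * n * u + o)) mv' :=
        (cmpN_read hn P hu h4 _ q s.head? _ l b _ mv).1 hmv
      obtain ⟨mv', h5, rfl⟩ := hmv'
      have h6 : P.Step A M x ⟨⟨u * n + o, q, s⟩, v⟩
          ⟨(⟨u * n + o, q, s⟩ : ST.Conf w).after mv', rest b (v ++ l.toList)⟩ :=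
        (cmp_step hn P A M hu h4 x q s v _).2 ⟨l, b, mv', h5, rfl⟩
      have e6 : min o n = o := by omega
      rw [e6] at hr
      have h7 := hr.tail h6
      have d1 := cmp_div (n := n) u o (by omega)
      have d2 := cmp_mod (n := n) u o (by omega)
      cases mv' with
      | push q' a =>
        refine ⟨rfl, ht.le, ?_⟩
        show Relation.ReflTransGen (P.Step A M x) ⟨⟨0, q0, []⟩, []⟩
          ⟨⟨(2 * n * u + o) / (2 * n) * n + min ((2 * n * u + o) % (2 * n)) n, q', a :: s⟩,
            rest b (v ++ l.toList)⟩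
        rw [d1, d2, e6]
        exact h7
      | pop q' =>
        refine ⟨rfl, ht.le, ?_⟩
        show Relation.ReflTransGen (P.Step A M x) ⟨⟨0, q0, []⟩, []⟩
          ⟨⟨(2 * n * u + o) / (2 * n) * n + min ((2 * n * u + o) % (2 * n)) n, q', s.tail⟩,
            rest b (v ++ l.toList)⟩
        rw [d1, d2, e6]
        exact h7
      | next q' =>
        have hs : (⟨(cmpC hn P.forward (2 * n * u + o) q s v).conf.after
            (cmpTr (cmpDir n P.forward (2 * n * u + o)) (.next q')), rest b (v ++ l.toList)⟩ :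
              OConf n 1 w) =
              cmpC hn P.forward (2 * n * u + o + 1) q' s (rest b (v ++ l.toList)) :=
          cmp_after hn P.forward _ q q' s v _
        show (⟨(cmpC hn P.forward (2 * n * u + o) q s v).conf.after
            (cmpTr (cmpDir n P.forward (2 * n * u + o)) (.next q')), rest b (v ++ l.toList)⟩ :
              OConf n 1 w) = _ ∧ _ ∧ _
        refine ⟨hs, ht, ?_⟩
        show Relation.ReflTransGen (P.Step A M x) ⟨⟨0, q0, []⟩, []⟩
          ⟨⟨(2 * n * u + o + 1) / (2 * n) * n + min ((2 * n * u + o + 1) % (2 * n)) n, q', s⟩,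
            rest b (v ++ l.toList)⟩
        have d3 := cmp_div (n := n) u (o + 1) (by omega)
        have d4 := cmp_mod (n := n) u (o + 1) (by omega)
        have e7 : min (o + 1) n = o + 1 := by omega
        rw [add_assoc, d3, d4, e7]
        exact h7
    · have hmv' : l = none ∧ b = false ∧ mv = .head q 0 (cmpDir n P.forward (2 * n * u + o)) :=
        (cmpN_wind hn P h4 ho _ q s.head? _ l b _ mv).1 hmv
      obtain ⟨rfl, rfl, rfl⟩ := hmv'
      have hv : rest false (v ++ (none : Option Bool).toList) = v := by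
        show v ++ [] = v
        rw [List.append_nil]
      have hs : (⟨(cmpC hn P.forward (2 * n * u + o) q s v).conf.after
          (.head q 0 (cmpDir n P.forward (2 * n * u + o))),
            rest false (v ++ (none : Option Bool).toList)⟩ : OConf n 1 w) =
            cmpC hn P.forward (2 * n * u + o + 1) q s v := by
        rw [hv]
        exact cmp_after hn P.forward _ q q s v _
      show (⟨(cmpC hn P.forward (2 * n * u + o) q s v).conf.after
          (.head q 0 (cmpDir n P.forward (2 * n * u + o))),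
            rest false (v ++ (none : Option Bool).toList)⟩ : OConf n 1 w) = _ ∧ _ ∧ _
      refine ⟨hs.trans ?_, ht, ?_⟩
      · show _ = cmpC hn P.forward (2 * n * u + o + 1) q s
          (rest false (v ++ (none : Option Bool).toList))
        rw [hv]
      show Relation.ReflTransGen (P.Step A M x) ⟨⟨0, q0, []⟩, []⟩
        ⟨⟨(2 * n * u + o + 1) / (2 * n) * n + min ((2 * n * u + o + 1) % (2 * n)) n, q, s⟩,
          rest false (v ++ (none : Option Bool).toList)⟩
      rw [hv]
      have e6 : min o n = n := by omega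
      rw [e6] at hr
      rcases Nat.lt_or_ge (o + 1) (2 * n) with h5 | h5
      · have d3 := cmp_div (n := n) u (o + 1) (by omega)
        have d4 := cmp_mod (n := n) u (o + 1) (by omega)
        have e7 : min (o + 1) n = n := by omega
        rw [add_assoc, d3, d4, e7]
        exact hr
      · have e8 : 2 * n * u + o + 1 = 2 * n * (u + 1) + 0 := by
          have : o + 1 = 2 * n := by omega
          rw [add_assoc, this]
          ring
        have d3 := cmp_div (n := n) (u + 1) 0 (by omega)
        have d4 := cmp_mod (n := n) (u + 1) 0 (by omega)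
        rw [e8, d3, d4, Nat.zero_min, Nat.add_zero, Nat.add_mul, Nat.one_mul]
        exact hr

private theorem cmp_accepts {n p w : ℕ} (hn : 1 ≤ n) (P : ONStackProg n p w)
    (A : Set (List Bool)) (M : ℕ) (x : Inp n) :
    (cmpN hn P).Accepts A M (2 * p * n) x ↔ P.Accepts A M x := by
  constructor
  · rintro ⟨h, q, d, ⟨rfl, hq⟩, hr, ht, hacc⟩
    obtain ⟨-, -, h2⟩ := cmp_bwd hn P A M x q hr
    refine ⟨q, _, hq, h2, ?_, hacc⟩
    show d.conf.time / (2 * n) * n + min (d.conf.time % (2 * n)) n = p * n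
    have e : d.conf.time = 2 * n * p + 0 := by
      rw [ht]
      ring
    have d3 := cmp_div (n := n) p 0 (by omega)
    have d4 := cmp_mod (n := n) p 0 (by omega)
    rw [e, d3, d4, Nat.zero_min, Nat.add_zero]
  · rintro ⟨q, c, hq, hr, hp, hacc⟩
    have key : ∀ c, Relation.ReflTransGen (P.Step A M x) ⟨⟨0, q, []⟩, []⟩ c →
        Relation.ReflTransGen ((cmpN hn P).Step A M (2 * p * n) x)
          (cmpC hn P.forward 0 q [] [])
          (cmpC hn P.forward (2 * n * (c.conf.pos / n) + c.conf.pos % n) c.conf.state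
            c.conf.stack c.tape) := by
      intro c hc
      induction hc with
      | refl =>
        show Relation.ReflTransGen _ _ (cmpC hn P.forward (2 * n * (0 / n) + 0 % n) q [] [])
        rw [Nat.zero_div, Nat.zero_mod, Nat.mul_zero]
      | tail _ h1 ih => exact ih.trans (cmp_fwd hn P A M x h1)
    refine ⟨fun _ => cmpSt hn P.forward, q, _, ⟨rfl, hq⟩, key c hr, ?_, hacc⟩
    show 2 * n * (c.conf.pos / n) + c.conf.pos % n = 2 * p * n
    rw [hp, Nat.mul_div_cancel _ (by omega), Nat.mul_mod_left]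
    ring

/-! ## Deterministic programs -/

private theorem cmpD_step_read {n p w : ℕ} (hn : 1 ≤ n) (P : OStackProg n p w)
    (A : Set (List Bool)) (M : ℕ) (x : Inp n) {u o : ℕ} (hu : u < p) (ho : o < n) (q : Fin w)
    (s : List (Fin w)) (v : List Bool) :
    ∃ (mv : ST.Move w) (v' : List Bool),
      P.step A M x ⟨⟨u * n + o, q, s⟩, v⟩ = ⟨(⟨u * n + o, q, s⟩ : ST.Conf w).after mv, v'⟩ ∧
      (cmpD hn P).step A M (2 * p * n) x (cmpC hn P.forward (2 * n * u + o) q s v) =
        ⟨(cmpC hn P.forward (2 * n * u + o) q s v).conf.after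
          (cmpTr (cmpDir n P.forward (2 * n * u + o)) mv), v'⟩ := by
  have e1 := cmp_divNat hu ho
  have e2 := cmp_cell hn P.forward hu ho
  have e3 := cmp_mod (n := n) u o (by omega)
  have e4 := cmp_div (n := n) u o (by omega)
  have e5 := cmp_lt hu ho
  have e6 := cmp_time hu (show o < 2 * n by omega)
  have e7 : (2 * n * u + o) % (2 * n) < n ∧ (2 * n * u + o) / (2 * n) < p := by
    rw [e3, e4]
    exact ⟨ho, hu⟩
  refine ⟨P.move ⟨u, hu⟩ (cmpPos hn P.forward (2 * n * u + o)) q s.head?
    (x (cmpPos hn P.forward (2 * n * u + o)))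
    (reply A M (P.ask ⟨u, hu⟩ (cmpPos hn P.forward (2 * n * u + o)) q s.head?
      (x (cmpPos hn P.forward (2 * n * u + o))))
      (v ++ (P.write ⟨u, hu⟩ (cmpPos hn P.forward (2 * n * u + o)) q s.head?
        (x (cmpPos hn P.forward (2 * n * u + o)))).toList)),
    rest (P.ask ⟨u, hu⟩ (cmpPos hn P.forward (2 * n * u + o)) q s.head?
      (x (cmpPos hn P.forward (2 * n * u + o))))
      (v ++ (P.write ⟨u, hu⟩ (cmpPos hn P.forward (2 * n * u + o)) q s.head?
        (x (cmpPos hn P.forward (2 * n * u + o)))).toList), ?_, ?_⟩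
  · unfold OStackProg.step
    simp only
    rw [dif_pos e5, e1, e2]
  · unfold OHeadProg.step cmpC cmpD
    simp only
    rw [if_pos e6]
    simp only [dif_pos e7]
    simp only [e4]

private theorem cmpD_rewind {n p w : ℕ} (hn : 1 ≤ n) (P : OStackProg n p w)
    (A : Set (List Bool)) (M : ℕ) (x : Inp n) {u : ℕ} (hu : u < p) (q : Fin w)
    (s : List (Fin w)) (v : List Bool) (j : ℕ) (hj : j ≤ n) :
    ((cmpD hn P).step A M (2 * p * n) x)^[j] (cmpC hn P.forward (2 * n * u + n) q s v) =
      cmpC hn P.forward (2 * n * u + n + j) q s v := by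
  induction j with
  | zero => rfl
  | succ j ih =>
    rw [Function.iterate_succ_apply', ih (by omega)]
    have e1 := cmp_mod (n := n) u (n + j) (by omega)
    have e2 : 2 * n * u + n + j < 2 * p * n := by
      rw [add_assoc]
      exact cmp_time hu (by omega)
    have e3 : ¬ ((2 * n * u + n + j) % (2 * n) < n ∧ (2 * n * u + n + j) / (2 * n) < p) := by
      rw [add_assoc, e1]
      omega
    have e4 : (cmpD hn P).step A M (2 * p * n) x (cmpC hn P.forward (2 * n * u + n + j) q s v) =
        ⟨(cmpC hn P.forward (2 * n * u + n + j) q s v).conf.after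
          (.head q 0 (cmpDir n P.forward (2 * n * u + n + j))), v⟩ := by
      unfold OHeadProg.step cmpC cmpD
      simp only
      rw [if_pos e2]
      simp only [dif_neg e3]
      show (⟨_, v ++ []⟩ : OConf n 1 w) = _
      rw [List.append_nil]
    rw [e4, cmp_after]
    rfl

private theorem cmpD_fwd {n p w : ℕ} (hn : 1 ≤ n) (P : OStackProg n p w)
    (A : Set (List Bool)) (M : ℕ) (x : Inp n) (c : StackO.OConf w) :
    ∃ j, ((cmpD hn P).step A M (2 * p * n) x)^[j]
      (cmpC hn P.forward (2 * n * (c.conf.pos / n) + c.conf.pos % n) c.conf.state c.conf.stack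
        c.tape) =
      cmpC hn P.forward (2 * n * ((P.step A M x c).conf.pos / n) + (P.step A M x c).conf.pos % n)
        (P.step A M x c).conf.state (P.step A M x c).conf.stack (P.step A M x c).tape := by
  by_cases hpos : c.conf.pos < p * n
  swap
  · refine ⟨0, ?_⟩
    have e : P.step A M x c = c := by
      unfold OStackProg.step
      rw [dif_neg hpos]
    rw [e]
    rfl
  obtain ⟨⟨pos, q, s⟩, v⟩ := c
  simp only at hpos
  have ho : pos % n < n := Nat.mod_lt _ hn
  have hu : pos / n < p := by
    rw [Nat.div_lt_iff_lt_mul hn]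
    exact hpos
  have e : pos = pos / n * n + pos % n := by
    rw [Nat.mul_comm]
    exact (Nat.div_add_mod pos n).symm
  have d1 : (pos / n * n + pos % n) / n = pos / n := by
    rw [← e]
  have d2 : (pos / n * n + pos % n) % n = pos % n := by
    rw [← e]
  show ∃ j, ((cmpD hn P).step A M (2 * p * n) x)^[j]
      (cmpC hn P.forward (2 * n * (pos / n) + pos % n) q s v) = _
  generalize pos / n = u at *
  generalize pos % n = o at *
  subst e
  obtain ⟨mv, v', h1, h2⟩ := cmpD_step_read hn P A M x hu ho q s v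
  rw [h1]
  cases mv with
  | push q' a =>
    refine ⟨1, ?_⟩
    rw [Function.iterate_one, h2]
    show _ = cmpC hn P.forward (2 * n * ((u * n + o) / n) + (u * n + o) % n) q' (a :: s) v'
    rw [d1, d2]
    rfl
  | pop q' =>
    refine ⟨1, ?_⟩
    rw [Function.iterate_one, h2]
    show _ = cmpC hn P.forward (2 * n * ((u * n + o) / n) + (u * n + o) % n) q' s.tail v'
    rw [d1, d2]
    rfl
  | next q' =>
    have hs : (cmpD hn P).step A M (2 * p * n) x (cmpC hn P.forward (2 * n * u + o) q s v) =
          cmpC hn P.forward (2 * n * u + o + 1) q' s v' :=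
      h2.trans (cmp_after hn P.forward _ q q' s v _)
    show ∃ j, _ = cmpC hn P.forward (2 * n * ((u * n + o + 1) / n) + (u * n + o + 1) % n) q' s v'
    rcases Nat.lt_or_ge (o + 1) n with h3 | h3
    · refine ⟨1, ?_⟩
      have d3 : (u * n + o + 1) / n = u := by
        rw [add_assoc, Nat.mul_comm, Nat.mul_add_div (by omega), Nat.div_eq_of_lt h3,
          Nat.add_zero]
      have d4 : (u * n + o + 1) % n = o + 1 := by
        rw [add_assoc, Nat.mul_comm, Nat.mul_add_mod, Nat.mod_eq_of_lt h3]
      rw [Function.iterate_one, hs, d3, d4]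
      rfl
    · refine ⟨n + 1, ?_⟩
      have h4 : o + 1 = n := by omega
      have d5 : u * n + o + 1 = (u + 1) * n := by
        rw [add_assoc, h4]
        ring
      rw [d5, Nat.mul_div_cancel _ (by omega), Nat.mul_mod_left, Nat.add_zero,
        Function.iterate_succ_apply, hs, add_assoc, h4,
        cmpD_rewind hn P A M x hu q' s v' n le_rfl]
      have e5 : 2 * n * (u + 1) = 2 * n * u + n + n := by ring
      rw [e5]
      rfl

theorem detO_of_stackO {n p w : ℕ} (hn : 1 ≤ n) {A : Set (List Bool)} {M : ℕ} {f : Inp n → Bool}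
    (h : StackO.StackDetO A M f p w) : HeadDetO A M f 1 (2 * p * n) w := by
  obtain ⟨P, hP⟩ := h
  refine ⟨cmpD hn P, fun x => ?_⟩
  obtain ⟨k, h1, h2⟩ := hP x
  have key : ∀ k, ∃ j, (cmpD hn P).config A M (2 * p * n) x j =
      cmpC hn P.forward (2 * n * ((P.config A M x k).conf.pos / n) +
        (P.config A M x k).conf.pos % n)
        (P.config A M x k).conf.state (P.config A M x k).conf.stack (P.config A M x k).tape := by
    intro k
    induction k with
    | zero =>
      refine ⟨0, ?_⟩
      show (⟨⟨0, fun _ => cmpSt hn P.forward, P.start, []⟩, []⟩ : OConf n 1 w) =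
        cmpC hn P.forward (2 * n * (0 / n) + 0 % n) P.start [] []
      rw [Nat.zero_div, Nat.zero_mod, Nat.mul_zero]
      rfl
    | succ k ih =>
      obtain ⟨j, hj⟩ := ih
      obtain ⟨i, hi⟩ := cmpD_fwd hn P A M x (P.config A M x k)
      refine ⟨i + j, ?_⟩
      have e1 : P.config A M x (k + 1) = P.step A M x (P.config A M x k) :=
        Function.iterate_succ_apply' _ _ _
      have e2 : (cmpD hn P).config A M (2 * p * n) x (i + j) =
          ((cmpD hn P).step A M (2 * p * n) x)^[i] ((cmpD hn P).config A M (2 * p * n) x j) :=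
        Function.iterate_add_apply _ _ _ _
      rw [e1, e2, hj, hi]
  obtain ⟨j, hj⟩ := key k
  refine ⟨j, ?_, ?_⟩
  · rw [hj]
    show 2 * n * ((P.config A M x k).conf.pos / n) + (P.config A M x k).conf.pos % n = 2 * p * n
    rw [h1, Nat.mul_div_cancel _ (by omega), Nat.mul_mod_left]
    ring
  · rw [hj]
    exact h2

theorem nondetO_of_stackO {n p w : ℕ} (hn : 1 ≤ n) {A : Set (List Bool)} {M : ℕ}
    {f : Inp n → Bool} (h : StackO.StackNondetO A M f p w) :
    HeadNondetO A M f 1 (2 * p * n) w := by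
  obtain ⟨P, hP⟩ := h
  exact ⟨cmpN hn P, fun x => (hP x).trans (cmp_accepts hn P A M x).symm⟩

end Pool.Agent.SH
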