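import Mathlib
import Pool.Agent.Lib.MP_b573ec_lc_HM.Cuts
import Pool.Agent.Lib.MP_69a69c_lc_SH.HistG

/-!
# The sets of blocks which are visited at the same time
-/

set_option autoImplicit false

namespace Pool.Agent.SH

open Pool.Agent.HM (chg InI Walk crs)

/-- the blocks (of length `b`, without their margins of length `c`) in which there is a head -/
noncomputable def labs {n k : ℕ} (b c M : ℕ) (h : Fin k → Fin n) : Finset (Fin M) := by
  classical
  exact Finset.univ.filter fun j => ∃ r, InI 0 b c j (h r)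

theorem mem_labs {n k b c M : ℕ} {h : Fin k → Fin n} {j : Fin M} :
    j ∈ labs b c M h ↔ ∃ r, InI 0 b c j (h r) := by
  classical
  unfold labs
  rw [Finset.mem_filter]
  exact ⟨fun g => g.2, fun g => ⟨Finset.mem_univ _, g⟩⟩

/-- the block of a cell is unique -/
private theorem labs_uniq {L b c i i' e : ℕ} (h : InI L b c i e) (h' : InI L b c i' e) :
    i = i' := by
  obtain ⟨h1, h2⟩ := h
  obtain ⟨h3, h4⟩ := h'
  rcases lt_trichotomy i i' with hlt | heq | hlt
  · have e : (i + 1) * b ≤ i' * b := Nat.mul_le_mul_right b hlt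
    omega
  · exact heq
  · have e : (i' + 1) * b ≤ i * b := Nat.mul_le_mul_right b hlt
    omega

theorem card_labs_le {n k : ℕ} (b c M : ℕ) (h : Fin k → Fin n) : (labs b c M h).card ≤ k := by
  classical
  have := Finset.card_le_card_of_forall_subsingleton (s := labs b c M h)
    (t := (Finset.univ : Finset (Fin k)))
    (fun (i : Fin M) (r : Fin k) => InI 0 b c i (h r)) ?_ ?_
  · simpa using this
  · intro i hi
    obtain ⟨r, hr⟩ := mem_labs.1 hi
    exact ⟨r, Finset.mem_univ _, hr⟩
  · intro r _ i hi i' hi'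
    exact Fin.ext (labs_uniq hi.2 hi'.2)

/-- the changes of a history are in a finite set -/
private theorem labs_chg_le {α : Type*} (ℓ : ℕ → α) (T : ℕ) (F : Finset ℕ)
    (h : ∀ t < T, ℓ (t + 1) ≠ ℓ t → t ∈ F) : chg ℓ T ≤ F.card := by
  classical
  unfold chg
  apply Finset.card_le_card
  intro t ht
  rw [Finset.mem_filter, Finset.mem_range] at ht
  exact h t ht.1 ht.2

/-- the set of the crossings of a block -/
private theorem labs_crs {n k : ℕ} (T L b : ℕ) (π : ℕ → Fin k → Fin n) (c i : ℕ) :
    ∃ F : Finset ℕ, F.card = crs T L b π c i ∧ ∀ t, t ∈ F ↔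
      (t < T ∧ ∃ r, ¬ (InI L b c i (π t r) ↔ InI L b c i (π (t + 1) r))) := by
  classical
  refine ⟨_, rfl, fun t => ?_⟩
  rw [Finset.mem_filter, Finset.mem_range]

/-- without a crossing a block stays visited or not visited -/
private theorem labs_stay {n k : ℕ} {L b c i t : ℕ} {π : ℕ → Fin k → Fin n}
    (h : ¬ ((∃ r, InI L b c i (π (t + 1) r)) ↔ ∃ r, InI L b c i (π t r))) :
    ∃ r, ¬ (InI L b c i (π t r) ↔ InI L b c i (π (t + 1) r)) := by
  by_contra hcon
  push Not at hcon
  exact h ⟨fun ⟨r, hr⟩ => ⟨r, (hcon r).2 hr⟩, fun ⟨r, hr⟩ => ⟨r, (hcon r).1 hr⟩⟩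

/-- the history of the sets of visited blocks -/
theorem exists_labs {n k : ℕ} (T b c M : ℕ) (π : ℕ → Fin k → Fin n) : ∃ ℓ : ℕ → Finset (Fin M),
    (∀ t < T, labs b c M (π t) = ℓ t) ∧
      HistG T (∑ i : Fin M, crs T 0 b π c i + 1) ∅ ℓ := by
  classical
  let ℓ : ℕ → Finset (Fin M) := fun t => if t < T then labs b c M (π t) else ∅
  refine ⟨ℓ, ?_, ?_, ?_⟩
  · intro t ht
    simp only [ℓ, if_pos ht]
  · intro t ht
    simp only [ℓ, if_neg (not_lt.2 ht)]
  · choose F hF1 hF2 using fun i : Fin M => labs_crs T 0 b π c i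
    have h3 : chg ℓ T ≤ ((Finset.univ.biUnion F) ∪ {T - 1}).card := by
      apply labs_chg_le
      intro t ht hne
      rw [Finset.mem_union]
      by_cases ht1 : t + 1 < T
      · left
        rw [Finset.mem_biUnion]
        by_contra hcon
        apply hne
        simp only [ℓ, if_pos ht, if_pos ht1]
        ext i
        rw [mem_labs, mem_labs]
        by_contra hk
        exact hcon ⟨i, Finset.mem_univ _, (hF2 i t).2 ⟨ht, labs_stay hk⟩⟩
      · right
        rw [Finset.mem_singleton]
        omega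
    refine h3.trans ((Finset.card_union_le _ _).trans ?_)
    rw [Finset.card_singleton]
    refine Nat.add_le_add_right ?_ 1
    refine Finset.card_biUnion_le.trans ?_
    exact le_of_eq (Finset.sum_congr rfl fun i _ => hF1 i)

end Pool.Agent.SH
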