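import Mathlib
import Pool.Agent.Lib.MP_b573ec_lc_ST.Codes
import Pool.Agent.Lib.MP_b573ec_lc_ST.Skel
import Pool.Agent.Lib.MP_b573ec_lc_HM.Hist
import Pool.Agent.Lib.MP_b573ec_lc_HM.Runs
import Pool.Agent.Lib.MP_b573ec_lc_HM.Traj
import Pool.Agent.Lib.MP_69a69c_lc_SH.StarR
import Pool.Agent.Lib.MP_69a69c_lc_SH.Labs

/-!
# The accepted inputs are covered by few star-closed sets
-/

set_option autoImplicit false

namespace Pool.Agent.SH

open Pool.Agent.LT (Inp)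
open Pool.Agent.HM (InI NHeadProg)

/-- `A` is closed under stars of `M` blocks of length `b` with margins of length `c`: an input `u`
belongs to `A` if for each block `A` contains an input which agrees with `u` outside this block
without its margins -/
def StarH {n : ℕ} (b c M : ℕ) (A : Inp n → Prop) : Prop :=
  ∀ (u : Inp n) (v : Fin M → Inp n),
    (∀ (j : Fin M) (e : Fin n), ¬ InI 0 b c j e → v j e = u e) → (∀ j, A (v j)) → A u

/-- two digits -/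
private theorem Cover_code2 {N a a' c c' : ℕ} (hc : c < N) (hc' : c' < N)
    (h : a * N + c = a' * N + c') : a = a' ∧ c = c' := by
  have h1 : c = c' := by
    have e1 : (a * N + c) % N = c := by
      rw [mul_comm, Nat.mul_add_mod, Nat.mod_eq_of_lt hc]
    have e2 : (a' * N + c') % N = c' := by
      rw [mul_comm, Nat.mul_add_mod, Nat.mod_eq_of_lt hc']
    rw [← e1, ← e2, h]
  subst h1
  exact ⟨Nat.eq_of_mul_eq_mul_right (by omega) (Nat.add_right_cancel h), rfl⟩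

private theorem Cover_lt2 {M N a c : ℕ} (ha : a < M) (hc : c < N) : a * N + c < M * N := by
  have h1 : (a + 1) * N ≤ M * N := Nat.mul_le_mul_right N ha
  have h2 : (a + 1) * N = a * N + N := by ring
  omega

/-- the number of codes -/
private theorem Cover_count {n k T w S κ B : ℕ} (hS : 1 ≤ S) (hn : n ≤ 2 ^ S) (hw : w ≤ 2 ^ S)
    (hT : T ≤ 2 ^ (2 * S)) (hB : B ≤ 2 ^ S) :
    (((B * ((T + 1) * 2 ^ (2 * k + 1)) ^ (κ + 1 + 1)) * HM.W n k w) * HM.W n k w) *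
      ((T + 1) * (HM.W n k w + 1)) ^ (8 * (3 * (κ + 1) + 1)) ≤
        2 ^ ((38 * k + 205) * (κ + 1) * S) := by
  have h1 : T + 1 ≤ 2 ^ (3 * S) := by
    have h2 : 1 ≤ 2 ^ (2 * S) := Nat.one_le_two_pow
    calc T + 1 ≤ 2 ^ (2 * S) + 2 ^ (2 * S) := Nat.add_le_add hT h2
      _ = 2 ^ (2 * S + 1) := by ring
      _ ≤ 2 ^ (3 * S) := Nat.pow_le_pow_right (by norm_num) (by omega)
  have h2 : (T + 1) * 2 ^ (2 * k + 1) ≤ 2 ^ ((2 * k + 4) * S) := by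
    calc (T + 1) * 2 ^ (2 * k + 1) ≤ 2 ^ (3 * S) * 2 ^ ((2 * k + 1) * S) :=
          Nat.mul_le_mul h1 (Nat.pow_le_pow_right (by norm_num)
            (Nat.le_mul_of_pos_right _ hS))
      _ = 2 ^ ((2 * k + 4) * S) := by
          rw [← pow_add]
          ring_nf
  have h3 : HM.W n k w ≤ 2 ^ ((k + 2) * S) := by
    calc n ^ k * w + w ≤ (2 ^ S) ^ k * 2 ^ S + 2 ^ S :=
          Nat.add_le_add (Nat.mul_le_mul (Nat.pow_le_pow_left hn k) hw) hw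
      _ ≤ (2 ^ S) ^ k * 2 ^ S + (2 ^ S) ^ k * 2 ^ S := by
          apply Nat.add_le_add_left
          exact Nat.le_mul_of_pos_left _ (by positivity)
      _ = 2 ^ (k * S + S + 1) := by
          rw [← pow_mul]
          ring
      _ ≤ 2 ^ ((k + 2) * S) := Nat.pow_le_pow_right (by norm_num) (by
          have e : (k + 2) * S = k * S + S + S := by ring
          omega)
  have h4 : HM.W n k w + 1 ≤ 2 ^ ((k + 3) * S) := by
    have h5 : 1 ≤ 2 ^ ((k + 2) * S) := Nat.one_le_two_pow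
    calc HM.W n k w + 1 ≤ 2 ^ ((k + 2) * S) + 2 ^ ((k + 2) * S) := Nat.add_le_add h3 h5
      _ = 2 ^ ((k + 2) * S + 1) := by ring
      _ ≤ 2 ^ ((k + 3) * S) := Nat.pow_le_pow_right (by norm_num) (by
          have e : (k + 3) * S = (k + 2) * S + S := by ring
          omega)
  have h5 : (T + 1) * (HM.W n k w + 1) ≤ 2 ^ ((k + 6) * S) := by
    calc (T + 1) * (HM.W n k w + 1) ≤ 2 ^ (3 * S) * 2 ^ ((k + 3) * S) := Nat.mul_le_mul h1 h4
      _ = 2 ^ ((k + 6) * S) := by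
          rw [← pow_add]
          ring_nf
  calc (((B * ((T + 1) * 2 ^ (2 * k + 1)) ^ (κ + 1 + 1)) * HM.W n k w) * HM.W n k w) *
      ((T + 1) * (HM.W n k w + 1)) ^ (8 * (3 * (κ + 1) + 1))
      ≤ (((2 ^ S * (2 ^ ((2 * k + 4) * S)) ^ (κ + 1 + 1)) * 2 ^ ((k + 2) * S)) *
        2 ^ ((k + 2) * S)) * (2 ^ ((k + 6) * S)) ^ (8 * (3 * (κ + 1) + 1)) :=
        Nat.mul_le_mul (Nat.mul_le_mul (Nat.mul_le_mul (Nat.mul_le_mul hB
          (Nat.pow_le_pow_left h2 _)) h3) h3) (Nat.pow_le_pow_left h5 _)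
    _ = 2 ^ (S + (2 * k + 4) * S * (κ + 1 + 1) + (k + 2) * S + (k + 2) * S +
          (k + 6) * S * (8 * (3 * (κ + 1) + 1))) := by
        rw [← pow_mul, ← pow_mul, ← pow_add, ← pow_add, ← pow_add, ← pow_add]
    _ ≤ 2 ^ ((38 * k + 205) * (κ + 1) * S) := by
        refine Nat.pow_le_pow_right (by norm_num) ?_
        obtain ⟨p, hp⟩ : ∃ p, p = κ * S := ⟨_, rfl⟩
        obtain ⟨q, hq⟩ : ∃ q, q = k * S := ⟨_, rfl⟩
        obtain ⟨r, hr⟩ : ∃ r, r = k * (κ * S) := ⟨_, rfl⟩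
        have e1 : S + (2 * k + 4) * S * (κ + 1 + 1) + (k + 2) * S + (k + 2) * S +
          (k + 6) * S * (8 * (3 * (κ + 1) + 1)) = 26 * r + 148 * p + 38 * q + 205 * S := by
          rw [hp, hq, hr]
          ring
        have e2 : (38 * k + 205) * (κ + 1) * S = 38 * r + 205 * p + 38 * q + 205 * S := by
          rw [hp, hq, hr]
          ring
        rw [e1, e2]
        omega

/-- the condition on the heads given by a history of sets of visited blocks -/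
private def Cover_R {n : ℕ} (b c k M : ℕ) (ℓ : ℕ → Finset (Fin M)) :
    ℕ → (Fin k → Fin n) → Prop := fun t h => labs b c M h = ℓ t

/-- the transcript relation -/
private def Cover_Trc {n k w : ℕ} (P : NHeadProg n k w) (T b c M : ℕ) (x : Inp n)
    (ℓ : ℕ → Finset (Fin M)) (s0 s1 : (Fin k → Fin n) × Fin w) (s : ST.Sk (HM.W n k w)) : Prop :=
  P.start s0.1 s0.2 ∧ P.acc s1.2 ∧
    ST.Dv (P.rel T (Cover_R b c k M ℓ) fun _ => x) T (HM.chg ℓ) (fun _ => false)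
      ⟨0, HM.cst s0.1 s0.2, none, T, HM.cst s1.1 s1.2⟩ s

private theorem Cover_accepts {n k w : ℕ} {P : NHeadProg n k w} {T b c M : ℕ} {x : Inp n}
    {ℓ : ℕ → Finset (Fin M)} {s0 s1 : (Fin k → Fin n) × Fin w} {s : ST.Sk (HM.W n k w)}
    (h : Cover_Trc P T b c M x ℓ s0 s1 s) : P.Accepts T x := by
  obtain ⟨h1, h2, h3⟩ := h
  obtain ⟨l, hl⟩ := h3.sound
  exact HM.acceptsR_accepts ((HM.acceptsR_iff P T (Cover_R b c k M ℓ) x fun _ => false).2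
    ⟨s0.1, s0.2, s1.1, s1.2, l, h1, h2, hl⟩)

/-- the set of blocks which are visited in a phase, if it has at most `k` elements -/
private theorem Cover_phase {n k b c M : ℕ} (ℓ : ℕ → Finset (Fin M)) (p : ℕ) :
    ∃ X : Finset (Fin M), X.card ≤ k ∧ ∀ s, HM.chg ℓ s = p → ∀ h : Fin k → Fin n,
      labs b c M h = ℓ s → labs b c M h = X := by
  by_cases hp : ∃ s, HM.chg ℓ s = p ∧ (ℓ s).card ≤ k
  · obtain ⟨s0, h1, h2⟩ := hp
    refine ⟨ℓ s0, h2, fun s hs h hh => ?_⟩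
    rw [hh]
    exact HM.chg_eq (hs.trans h1.symm)
  · refine ⟨∅, by simp, fun s hs h hh => ?_⟩
    exact absurd ⟨s, hs, hh ▸ card_labs_le b c M h⟩ hp

/-- stars -/
private theorem Cover_star {n k w : ℕ} {P : NHeadProg n k w} {T b c : ℕ} {u : Inp n}
    {v : Fin (2 * k + 1) → Inp n}
    (hv : ∀ (j : Fin (2 * k + 1)) (e : Fin n), ¬ InI 0 b c j e → v j e = u e)
    {ℓ : ℕ → Finset (Fin (2 * k + 1))} {s0 s1 : (Fin k → Fin n) × Fin w}
    {s : ST.Sk (HM.W n k w)} (h : ∀ j, Cover_Trc P T b c (2 * k + 1) (v j) ℓ s0 s1 s) :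
    Cover_Trc P T b c (2 * k + 1) u ℓ s0 s1 s := by
  refine ⟨(h ⟨0, by omega⟩).1, (h ⟨0, by omega⟩).2.1, ?_⟩
  refine Dv_starR (HM.chg_mono ℓ)
    (fun j => P.rel T (Cover_R b c k (2 * k + 1) ℓ) fun _ => v j) ?_ s _ fun j => (h j).2.2
  intro p q
  obtain ⟨X, hX, hX'⟩ := Cover_phase (n := n) (k := k) (b := b) (c := c) ℓ p
  obtain ⟨Y, hY, hY'⟩ := Cover_phase (n := n) (k := k) (b := b) (c := c) ℓ q
  obtain ⟨i, hi⟩ : ∃ i, i ∉ X ∪ Y := by
    by_contra hcon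
    push Not at hcon
    have h1 : X ∪ Y = Finset.univ := Finset.eq_univ_iff_forall.2 hcon
    have h2 := Finset.card_union_le X Y
    rw [h1, Finset.card_univ, Fintype.card_fin] at h2
    omega
  rw [Finset.mem_union, not_or] at hi
  refine ⟨i, fun t ht hpq q0 g mv hm => ?_⟩
  obtain ⟨h1, hh, q1, g1, mv1, hR, e1, e2, hmv, e3⟩ := hm
  refine ⟨h1, hh, q1, g1, mv1, hR, e1, e2, ?_, e3⟩
  have hni : i ∉ labs b c (2 * k + 1) hh := by
    rcases hpq with hpq | hpq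
    · rw [hX' t hpq hh hR]
      exact hi.1
    · rw [hY' t hpq hh hR]
      exact hi.2
  have e4 : (fun r => v i (hh r)) = fun r => u (hh r) := by
    funext r
    refine hv i (hh r) fun hin => hni ?_
    rw [mem_labs]
    exact ⟨r, hin⟩
  rw [← e4]
  exact hmv

theorem coverH (k : ℕ) : ∃ C : ℕ, ∀ (n T S w b B κ : ℕ) (P : NHeadProg n k w), 1 ≤ S →
    n ≤ 2 ^ S → w ≤ 2 ^ S → T ≤ 2 ^ (2 * S) → 1 ≤ B → B ≤ 2 ^ S → T ≤ B * κ →
    ∃ (Θ : ℕ) (Tr : Fin Θ → Inp n → Prop), Θ ≤ 2 ^ (C * (κ + 1) * S) ∧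
      (∀ θ, ∃ c, 1 ≤ c ∧ c ≤ B ∧ StarH b c (2 * k + 1) (Tr θ)) ∧
      (∀ θ x, Tr θ x → P.Accepts T x) ∧ ∀ x, P.Accepts T x → ∃ θ, Tr θ x := by
  refine ⟨38 * k + 205, fun n T S w b B κ P hS hn hw hT hB hBS hTB => ?_⟩
  obtain ⟨codeH, hHlt, hHinj⟩ :=
    histG_codes (α := Finset (Fin (2 * k + 1))) T (κ + 1) ∅
  rw [Fintype.card_finset, Fintype.card_fin] at hHlt
  obtain ⟨code, hinj, hlt⟩ := ST.sk_codes (HM.W n k w) T (3 * (κ + 1) + 1)
  set N : ℕ := ((T + 1) * (HM.W n k w + 1)) ^ (8 * (3 * (κ + 1) + 1)) with hN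
  set H : ℕ := ((T + 1) * 2 ^ (2 * k + 1)) ^ (κ + 1 + 1) with hH
  have hsz : ∀ {c : ℕ} {x : Inp n} {ℓ : ℕ → Finset (Fin (2 * k + 1))}
      {s0 s1 : (Fin k → Fin n) × Fin w} {s : ST.Sk (HM.W n k w)}, HistG T (κ + 1) ∅ ℓ →
      Cover_Trc P T b c (2 * k + 1) x ℓ s0 s1 s → s.size ≤ 3 * (κ + 1) + 1 ∧ s.Bdd T := by
    intro c x ℓ s0 s1 s hh h
    refine ⟨?_, h.2.2.bdd⟩
    have h1 := h.2.2.size (HM.chg_mono ℓ)
    have h2 := hh.2
    dsimp only at h1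
    omega
  refine ⟨(((B * H) * HM.W n k w) * HM.W n k w) * N, fun θ x => ∃ c ℓ s0 s1 s, c < B ∧
    HistG T (κ + 1) ∅ ℓ ∧ Cover_Trc P T b (c + 1) (2 * k + 1) x ℓ s0 s1 s ∧
    (((c * H + codeH ℓ) * HM.W n k w + (HM.cst s0.1 s0.2 : Fin (HM.W n k w)).val) *
      HM.W n k w + (HM.cst s1.1 s1.2 : Fin (HM.W n k w)).val) * N + code s = (θ : ℕ),
    Cover_count hS hn hw hT hBS, ?_, ?_, ?_⟩
  · intro θ
    by_cases hex : ∃ x c ℓ s0 s1 s, c < B ∧
      HistG T (κ + 1) ∅ ℓ ∧ Cover_Trc P T b (c + 1) (2 * k + 1) x ℓ s0 s1 s ∧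
      (((c * H + codeH ℓ) * HM.W n k w + (HM.cst s0.1 s0.2 : Fin (HM.W n k w)).val) *
        HM.W n k w + (HM.cst s1.1 s1.2 : Fin (HM.W n k w)).val) * N + code s = (θ : ℕ)
    · obtain ⟨x, c, ℓ, s0, s1, s, hc, hh, ht, hcd⟩ := hex
      obtain ⟨h1, h2⟩ := hsz hh ht
      refine ⟨c + 1, by omega, by omega, fun u v hv hA => ?_⟩
      refine ⟨c, ℓ, s0, s1, s, hc, hh, Cover_star hv fun j => ?_, hcd⟩
      obtain ⟨c', ℓ', s0', s1', s', hc', hh', ht', hcd'⟩ := hA j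
      obtain ⟨h3, h4⟩ := hsz hh' ht'
      obtain ⟨e1, e2⟩ := Cover_code2 (hlt s h1 h2) (hlt s' h3 h4) (hcd.trans hcd'.symm)
      obtain ⟨e3, e4⟩ := Cover_code2 (HM.cst s1.1 s1.2).2 (HM.cst s1'.1 s1'.2).2 e1
      obtain ⟨e5, e6⟩ := Cover_code2 (HM.cst s0.1 s0.2).2 (HM.cst s0'.1 s0'.2).2 e3
      obtain ⟨e7, e8⟩ := Cover_code2 (hHlt ℓ hh) (hHlt ℓ' hh') e5
      have e9 := hinj s s' h1 h2 h3 h4 e2
      have e10 := hHinj ℓ ℓ' hh hh' e8
      obtain ⟨e11, e12⟩ := HM.cst_inj (Fin.ext e4)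
      obtain ⟨e13, e14⟩ := HM.cst_inj (Fin.ext e6)
      have e15 : s1 = s1' := Prod.ext e11 e12
      have e16 : s0 = s0' := Prod.ext e13 e14
      subst e7 e9 e10 e15 e16
      exact ht'
    · refine ⟨1, le_rfl, hB, fun u v _ hA => ?_⟩
      exact absurd ⟨_, hA ⟨0, by omega⟩⟩ hex
  · rintro θ x ⟨c, ℓ, s0, s1, s, hc, hh, ht, hcd⟩
    exact Cover_accepts ht
  · intro x hx
    obtain ⟨π, hπ, hacc⟩ := HM.exists_traj P T x hx
    obtain ⟨h, q, h', q', l, hst, hac, hpop⟩ :=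
      (HM.acceptsR_iff P T (fun t h => h = π t) x fun _ => false).1 hacc
    obtain ⟨c, hc1, hc2, hc3⟩ : ∃ c, 1 ≤ c ∧ c ≤ B ∧
        ∑ i : Fin (2 * k + 1), HM.crs T 0 b π c i ≤ κ := by
      by_contra hcon
      push Not at hcon
      have h1 := HM.sum_crs_le T 0 b (2 * k + 1) B π hπ
      have h2 : ∑ _c ∈ Finset.Icc 1 B, (κ + 1) ≤
          ∑ c ∈ Finset.Icc 1 B, ∑ i : Fin (2 * k + 1), HM.crs T 0 b π c i :=
        Finset.sum_le_sum fun c hc =>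
          hcon c (Finset.mem_Icc.1 hc).1 (Finset.mem_Icc.1 hc).2
      rw [Finset.sum_const, Nat.card_Icc, smul_eq_mul] at h2
      have e1 : (B + 1 - 1) * (κ + 1) = B * κ + B := by
        rw [Nat.add_sub_cancel]
        ring
      rw [e1] at h2
      omega
    obtain ⟨ℓ, hℓ1, hℓ2⟩ := exists_labs T b c (2 * k + 1) π
    have hh : HistG T (κ + 1) ∅ ℓ := ⟨hℓ2.1, hℓ2.2.trans (by omega)⟩
    have hpop' : ST.Pop (P.rel T (Cover_R b c k (2 * k + 1) ℓ) fun _ => x) T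
        (fun _ => false) 0 (HM.cst h q) none T (HM.cst h' q') l := by
      refine HM.Pop_mono ?_ hpop
      rintro t ht s g mv ⟨h1, hd, q1, g1, mv1, hR, e1, e2, e3, e4⟩
      refine ⟨h1, hd, q1, g1, mv1, ?_, e1, e2, e3, e4⟩
      rw [hR]
      exact hℓ1 t ht
    obtain ⟨s, hs, -⟩ := hpop'.exists_dv (HM.chg_mono ℓ) (fun _ => ST.Lab.c) fun y _ =>
      ⟨fun h => absurd h.1 (by simp), fun h => absurd h.1 (by simp)⟩
    obtain ⟨c, rfl⟩ : ∃ c', c = c' + 1 := ⟨c - 1, by omega⟩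
    have ht : Cover_Trc P T b (c + 1) (2 * k + 1) x ℓ (h, q) (h', q') s := ⟨hst, hac, hs⟩
    obtain ⟨h1, h2⟩ := hsz hh ht
    refine ⟨⟨_, ?_⟩, c, ℓ, (h, q), (h', q'), s, by omega, hh, ht, rfl⟩
    exact Cover_lt2 (Cover_lt2 (Cover_lt2 (Cover_lt2 (by omega) (hHlt ℓ hh)) (HM.cst h q).2)
      (HM.cst h' q').2) (hlt s h1 h2)

end Pool.Agent.SH
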