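import Mathlib
import Pool.Agent.Lib.MP_69a69c_lc_SH.OModel

/-!
# Without a bound for the number of words of the oracle one sweep and two states are enough
-/

set_option autoImplicit false

namespace Pool.Agent.SH

open Pool.Agent.LT (Inp)

/-- the words of all lengths accepted by a family of functions -/
def oracleOf (f : ∀ n, Inp n → Bool) : Set (List Bool) :=
  {q | ∃ (n : ℕ) (x : Inp n), q = List.ofFn x ∧ f n x = true}

/-- copy the input to the query tape and ask -/
private def denseProg (m : ℕ) : OHeadProg (m + 1) 1 2 where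
  heads _ := ⟨0, Nat.succ_pos m⟩
  start := 0
  write _ _ _ _ y := some (y 0)
  ask t _ _ _ _ := decide (t = m)
  move _ _ _ _ _ r := .head (if r then 1 else 0) 0 true
  acc s := decide (s = 1)

private theorem dense_take {n : ℕ} (x : Inp n) (i : ℕ) (h : i < n) :
    (List.ofFn x).take i ++ [x ⟨i, h⟩] = (List.ofFn x).take (i + 1) := by
  have h2 : i < (List.ofFn x).length := by simpa using h
  rw [List.take_succ_eq_append_getElem h2, List.getElem_ofFn]

private theorem dense_heads {m : ℕ} (i : ℕ) (h : i < m + 1) (h' : i + 1 < m + 1) :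
    Function.update (fun _ : Fin 1 => (⟨i, h⟩ : Fin (m + 1))) 0
      (Pool.Agent.HM.nbr ⟨i, h⟩ true) = fun _ => ⟨i + 1, h'⟩ := by
  funext r
  rw [Subsingleton.elim r 0, Function.update_self]
  simp [Pool.Agent.HM.nbr, h']

private theorem dense_config {m : ℕ} (A : Set (List Bool)) (x : Inp (m + 1)) (i : ℕ)
    (hi : i < m + 1) :
    (denseProg m).config A (m + 1) (m + 1) x i =
      ⟨⟨i, fun _ => ⟨i, hi⟩, 0, []⟩, (List.ofFn x).take i⟩ := by
  induction i with
  | zero => simp [OHeadProg.config, denseProg]
  | succ i ih =>
    have h : i < m + 1 := by omega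
    have e : (denseProg m).config A (m + 1) (m + 1) x (i + 1) =
        (denseProg m).step A (m + 1) (m + 1) x ((denseProg m).config A (m + 1) (m + 1) x i) := by
      unfold OHeadProg.config
      rw [Function.iterate_succ_apply']
    have h2 : ¬ (i = m) := by omega
    rw [e, ih h]
    unfold OHeadProg.step
    simp only [denseProg, h, if_true, h2, decide_false, Pool.Agent.StackO.reply,
      Pool.Agent.StackO.rest, Bool.false_and, Option.toList_some, dense_take x i h,
      Pool.Agent.HM.Conf.after, dense_heads i h hi]
    simp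

theorem detO_oracleOf (f : ∀ n, Inp n → Bool) (n : ℕ) (hn : 1 ≤ n) :
    HeadDetO (oracleOf f) n (f n) 1 n 2 := by
  obtain ⟨m, rfl⟩ : ∃ m, n = m + 1 := ⟨n - 1, by omega⟩
  refine ⟨denseProg m, fun x => ⟨m + 1, ?_⟩⟩
  have e : (denseProg m).config (oracleOf f) (m + 1) (m + 1) x (m + 1) =
      (denseProg m).step (oracleOf f) (m + 1) (m + 1) x
        ((denseProg m).config (oracleOf f) (m + 1) (m + 1) x m) := by
    unfold OHeadProg.config
    rw [Function.iterate_succ_apply']
  have h3 : (List.ofFn x).take m ++ [x ⟨m, Nat.lt_succ_self m⟩] = List.ofFn x :=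
    (dense_take x m _).trans (List.take_of_length_le (by simp))
  have h4 : List.ofFn x ∈ oracleOf f ↔ f (m + 1) x = true := by
    constructor
    · rintro ⟨k, y, h5, h6⟩
      have h7 : k = m + 1 := by
        have := congrArg List.length h5
        simpa using this.symm
      subst h7
      have h8 : x = y := List.ofFn_injective h5
      rw [h8]
      exact h6
    · intro h5
      exact ⟨m + 1, x, rfl, h5⟩
  rw [e, dense_config _ _ _ (Nat.lt_succ_self m)]
  unfold OHeadProg.step
  simp only [denseProg, Nat.lt_succ_self, if_true, decide_true, Pool.Agent.StackO.reply,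
    Option.toList_some, h3, h4, Bool.true_and, Pool.Agent.HM.Conf.after, List.length_ofFn, le_refl,
    and_true]
  cases f (m + 1) x <;> simp

end Pool.Agent.SH
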