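import Mathlib
import Pool.Agent.Lib.MP_b573ec_lc_HM.Core
import Pool.Agent.Lib.MP_69a69c_lc_SH.OModel
import Pool.Agent.Lib.MP_69a69c_lc_SH.NoCover

/-!
# Inputs with given groups
-/

set_option autoImplicit false

namespace Pool.Agent.SH

open Pool.Agent.LT (Inp)
open Pool.Agent.HM (InI)
open Pool.Agent.ST (getBit)

/-- the input whose blocks have the bits `X` in the groups `t₀, ..., t₀ + m - 1` and zeros
elsewhere -/
def encH (k n t₀ : ℕ) {m : ℕ} (X : Fin (2 * k + 1) → Fin m × Fin (grpLen k) → Bool) : Inp n :=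
  fun e =>
    if h : (e : ℕ) / (n / (2 * k + 1)) < 2 * k + 1 ∧
        (e : ℕ) % (n / (2 * k + 1)) / grpLen k - t₀ < m ∧
        t₀ ≤ (e : ℕ) % (n / (2 * k + 1)) / grpLen k then
      X ⟨(e : ℕ) / (n / (2 * k + 1)), h.1⟩
        (⟨(e : ℕ) % (n / (2 * k + 1)) / grpLen k - t₀, h.2.1⟩,
          ⟨(e : ℕ) % (n / (2 * k + 1)) % grpLen k, Nat.mod_lt _ (by positivity)⟩)
    else false

private theorem EncH_cell_lt {n K j p : ℕ} (hj : j < K) (hp : p < n / K) :
    j * (n / K) + p < n := by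
  have h1 : K * (n / K) ≤ n := Nat.mul_div_le n K
  have h2 : (j + 1) * (n / K) ≤ K * (n / K) := Nat.mul_le_mul_right _ hj
  have h3 : (j + 1) * (n / K) = j * (n / K) + n / K := by ring
  omega

private theorem EncH_pos_lt {N g t i : ℕ} (ht : t < N / g) (hi : i < g) : g * t + i < N := by
  have h1 : g * (N / g) ≤ N := Nat.mul_div_le N g
  have h2 : g * (t + 1) ≤ g * (N / g) := Nat.mul_le_mul_left _ ht
  have h3 : g * (t + 1) = g * t + g := by ring
  omega

private theorem EncH_bit {k n t₀ m : ℕ} (X : Fin (2 * k + 1) → Fin m × Fin (grpLen k) → Bool)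
    {j t i : ℕ} (hj : j < 2 * k + 1) (ht : t < n / (2 * k + 1) / grpLen k) (hi : i < grpLen k) :
    getBit (encH k n t₀ X) (j * (n / (2 * k + 1)) + (grpLen k * t + i)) =
      if h : t - t₀ < m ∧ t₀ ≤ t then X ⟨j, hj⟩ (⟨t - t₀, h.1⟩, ⟨i, hi⟩) else false := by
  have hg : 0 < grpLen k := by positivity
  have hp := EncH_pos_lt ht hi
  have hN : 0 < n / (2 * k + 1) := by omega
  have hc := EncH_cell_lt hj hp
  have e1 : (j * (n / (2 * k + 1)) + (grpLen k * t + i)) / (n / (2 * k + 1)) = j := by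
    rw [Nat.add_comm, Nat.add_mul_div_right _ _ hN, Nat.div_eq_of_lt hp, Nat.zero_add]
  have e2 : (j * (n / (2 * k + 1)) + (grpLen k * t + i)) % (n / (2 * k + 1)) =
      grpLen k * t + i := by
    rw [Nat.add_comm, Nat.add_mul_mod_self_right, Nat.mod_eq_of_lt hp]
  have e3 : (grpLen k * t + i) / grpLen k = t := by
    rw [Nat.mul_add_div hg, Nat.div_eq_of_lt hi, Nat.add_zero]
  have e4 : (grpLen k * t + i) % grpLen k = i := by
    rw [Nat.mul_add_mod, Nat.mod_eq_of_lt hi]
  unfold getBit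
  rw [dif_pos hc]
  unfold encH
  by_cases h : t - t₀ < m ∧ t₀ ≤ t
  · rw [dif_pos h, dif_pos]
    · congr 1
      · exact Fin.ext e1
      · refine Prod.ext (Fin.ext ?_) (Fin.ext ?_)
        · simp only
          rw [e2, e3]
        · simp only
          rw [e2, e4]
    · refine ⟨?_, ?_, ?_⟩
      · simp only
        rw [e1]
        exact hj
      · simp only
        rw [e2, e3]
        exact h.1
      · simp only
        rw [e2, e3]
        exact h.2
  · rw [dif_neg h, dif_neg]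
    simp only
    rw [e2, e3]
    exact fun h' => h h'.2

private theorem EncH_sum {k n t₀ m : ℕ} (X : Fin (2 * k + 1) → Fin m × Fin (grpLen k) → Bool)
    {t : ℕ} (ht : t < n / (2 * k + 1) / grpLen k) (h : t - t₀ < m ∧ t₀ ≤ t) :
    (∑ i ∈ Finset.range (grpLen k), (decide (∀ j < 2 * k + 1,
      getBit (encH k n t₀ X) (j * (n / (2 * k + 1)) + (grpLen k * t + i)) = true)).toNat) =
      ∑ s, (decide (∀ j, X j (⟨t - t₀, h.1⟩, s) = true)).toNat := by
  rw [Finset.sum_range]
  refine Finset.sum_congr rfl fun s _ => ?_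
  congr 1
  refine decide_eq_decide.2 ⟨fun hh j => ?_, fun hh j hj => ?_⟩
  · have := hh j j.2
    rw [EncH_bit X j.2 ht s.2, dif_pos h] at this
    exact this
  · rw [EncH_bit X hj ht s.2, dif_pos h]
    exact hh ⟨j, hj⟩

private theorem EncH_sum0 {k n t₀ m : ℕ} (X : Fin (2 * k + 1) → Fin m × Fin (grpLen k) → Bool)
    {t : ℕ} (ht : t < n / (2 * k + 1) / grpLen k) (h : ¬ (t - t₀ < m ∧ t₀ ≤ t)) :
    (∑ i ∈ Finset.range (grpLen k), (decide (∀ j < 2 * k + 1,
      getBit (encH k n t₀ X) (j * (n / (2 * k + 1)) + (grpLen k * t + i)) = true)).toNat) = 0 := by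
  refine Finset.sum_eq_zero fun i hi => ?_
  have hi' := Finset.mem_range.1 hi
  rw [decide_eq_false]
  · rfl
  · intro hh
    have := hh 0 (by omega)
    rw [EncH_bit X (by omega : 0 < 2 * k + 1) ht hi', dif_neg h] at this
    exact absurd this (by simp)

theorem langH_encH {k n t₀ m : ℕ} (h : t₀ + m ≤ n / (2 * k + 1) / grpLen k)
    (X : Fin (2 * k + 1) → Fin m × Fin (grpLen k) → Bool) :
    langH k n (encH k n t₀ X) = false ↔ ZeroM X := by
  unfold langH ZeroM
  rw [decide_eq_false_iff_not]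
  constructor
  · intro hh τ
    have hτ := τ.2
    have ht : t₀ + (τ : ℕ) < n / (2 * k + 1) / grpLen k := by omega
    have hc : t₀ + (τ : ℕ) - t₀ < m ∧ t₀ ≤ t₀ + (τ : ℕ) := by omega
    have h1 := EncH_sum X ht hc
    have e : (⟨t₀ + (τ : ℕ) - t₀, hc.1⟩ : Fin m) = τ := Fin.ext (by simp)
    rw [e] at h1
    rw [← h1]
    by_contra h2
    exact hh ⟨_, ht, by omega⟩
  · rintro hh ⟨t, ht, h1⟩
    by_cases hc : t - t₀ < m ∧ t₀ ≤ t
    · rw [EncH_sum X ht hc, hh] at h1
      exact absurd h1 (by decide)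
    · rw [EncH_sum0 X ht hc] at h1
      exact absurd h1 (by decide)

/-- a change of the bits of block `j` changes only cells of this block outside the margins -/
theorem encH_agree {k n t₀ m c : ℕ} (hc : c ≤ grpLen k * t₀)
    (hc' : grpLen k * (t₀ + m) + c ≤ n / (2 * k + 1))
    (X Y : Fin (2 * k + 1) → Fin m × Fin (grpLen k) → Bool) (j : Fin (2 * k + 1))
    (hXY : ∀ j', j' ≠ j → Y j' = X j') (e : Fin n) (he : ¬ InI 0 (n / (2 * k + 1)) c j e) :
    encH k n t₀ Y e = encH k n t₀ X e := by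
  unfold encH
  by_cases h : (e : ℕ) / (n / (2 * k + 1)) < 2 * k + 1 ∧
      (e : ℕ) % (n / (2 * k + 1)) / grpLen k - t₀ < m ∧
      t₀ ≤ (e : ℕ) % (n / (2 * k + 1)) / grpLen k
  · rw [dif_pos h, dif_pos h]
    have hj : (⟨(e : ℕ) / (n / (2 * k + 1)), h.1⟩ : Fin (2 * k + 1)) ≠ j := by
      intro hj
      apply he
      have hj' : (e : ℕ) / (n / (2 * k + 1)) = j := congrArg Fin.val hj
      have hg : 0 < grpLen k := by positivity
      have h1 := Nat.div_add_mod (e : ℕ) (n / (2 * k + 1))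
      have h2 := Nat.div_add_mod ((e : ℕ) % (n / (2 * k + 1))) (grpLen k)
      have h3 := Nat.mod_lt ((e : ℕ) % (n / (2 * k + 1))) hg
      have h4 : grpLen k * t₀ ≤ grpLen k * ((e : ℕ) % (n / (2 * k + 1)) / grpLen k) :=
        Nat.mul_le_mul_left _ h.2.2
      have h5 : grpLen k * ((e : ℕ) % (n / (2 * k + 1)) / grpLen k + 1) ≤
          grpLen k * (t₀ + m) := Nat.mul_le_mul_left _ (by omega)
      rw [hj'] at h1
      unfold InI
      rw [Nat.mul_comm _ (j : ℕ)] at h1
      rw [Nat.mul_add, Nat.mul_one] at h5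
      rw [Nat.add_mul, Nat.one_mul]
      constructor <;> omega
    rw [hXY _ hj]
  · rw [dif_neg h, dif_neg h]

end Pool.Agent.SH
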