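import Mathlib
import Pool.Agent.Lib.MP_69a69c_lc_SH.OModel

/-!
# The universal language for all numbers of heads
-/

set_option autoImplicit false

namespace Pool.Agent.SH

open Pool.Agent.LT (Inp)
open Pool.Agent.ST (expo)
open Pool.Agent.HM (HeadProg Move)

/-- the input without its first `⌊log2 n⌋` bits -/
def tailInp {n : ℕ} (x : Inp n) : Inp (n - Nat.log 2 n) := fun e => x ⟨Nat.log 2 n + e, by omega⟩

/-- The language `langU`: the number of ones among the first `⌊log2 n⌋` bits of the input gives
the number `k` of heads; the input belongs to the language if `2 ^ grpLen k ≤ n` and the rest of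
the input belongs to `langH k`. -/
def langU (n : ℕ) (x : Inp n) : Bool :=
  decide (2 ^ grpLen (expo n x) ≤ n) && langH (expo n x) (n - Nat.log 2 n) (tailInp x)

/-- `f` is computed by a deterministic program with `k` heads, `T` head moves and width `w`,
without stack: all its moves are head moves (and it has no oracle) -/
def HeadDetN {n : ℕ} (f : Inp n → Bool) (k T w : ℕ) : Prop :=
  ∃ P : HeadProg n k w, (∀ t h q a y, ∃ q' r d, P.move t h q a y = Move.head q' r d) ∧
    ∀ x, P.Outputs T x (f x)

end Pool.Agent.SH
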