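import Mathlib
import Pool.Agent.Lib.MP_69a69c_lc_SH.UModel

/-!
# Set intersection
-/

set_option autoImplicit false

namespace Pool.Agent.SH

open Pool.Agent.LT (Inp)
open Pool.Agent.ST (getBit expo)

/-- Set intersection: let `k` be the number of ones among the first `⌊log2 n⌋` bits of the input;
`2 * k + 1` blocks of the same length `N = ⌊(n - ⌊log2 n⌋) / (2 * k + 1)⌋` follow, and the input
belongs to the language if for some `t < N` all blocks have a one at the place `t`. -/
def langI (n : ℕ) (x : Inp n) : Bool :=
  decide (∃ t < (n - Nat.log 2 n) / (2 * expo n x + 1), ∀ j < 2 * expo n x + 1,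
    getBit x (Nat.log 2 n + j * ((n - Nat.log 2 n) / (2 * expo n x + 1)) + t) = true)

/-- no place at which all blocks have a one -/
def DisjM {M : ℕ} {P : Type} (X : Fin M → P → Bool) : Prop := ∀ s, ¬ ∀ j, X j s = true

end Pool.Agent.SH
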