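import Mathlib
import Pool.Agent.Lib.MP_b573ec_lc_HM.Core
import Pool.Agent.Lib.MP_69a69c_lc_SH.IModel

/-!
# Inputs of `langI` with given groups
-/

set_option autoImplicit false

namespace Pool.Agent.SH

open Pool.Agent.LT (Inp)
open Pool.Agent.HM (InI)

/-- the input whose first `⌊log2 n⌋` bits are `k` ones and zeros, followed by `2 * k + 1` blocks
which have the bits `X` in the groups `t₀, ..., t₀ + m - 1` of `g` places and zeros elsewhere -/
def encI (k n g t₀ : ℕ) {m : ℕ} (X : Fin (2 * k + 1) → Fin m × Fin g → Bool) : Inp n :=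
  fun e =>
    if (e : ℕ) < Nat.log 2 n then decide ((e : ℕ) < k)
    else if h : ((e : ℕ) - Nat.log 2 n) / ((n - Nat.log 2 n) / (2 * k + 1)) < 2 * k + 1 ∧
        ((e : ℕ) - Nat.log 2 n) % ((n - Nat.log 2 n) / (2 * k + 1)) / g - t₀ < m ∧
        ((e : ℕ) - Nat.log 2 n) % ((n - Nat.log 2 n) / (2 * k + 1)) % g < g ∧
        t₀ ≤ ((e : ℕ) - Nat.log 2 n) % ((n - Nat.log 2 n) / (2 * k + 1)) / g then
      X ⟨((e : ℕ) - Nat.log 2 n) / ((n - Nat.log 2 n) / (2 * k + 1)), h.1⟩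
        (⟨((e : ℕ) - Nat.log 2 n) % ((n - Nat.log 2 n) / (2 * k + 1)) / g - t₀, h.2.1⟩,
          ⟨((e : ℕ) - Nat.log 2 n) % ((n - Nat.log 2 n) / (2 * k + 1)) % g, h.2.2.1⟩)
    else false

private theorem EncI_expo {k n g t₀ m : ℕ} (hk : k ≤ Nat.log 2 n)
    (X : Fin (2 * k + 1) → Fin m × Fin g → Bool) :
    ST.expo n (encI k n g t₀ X) = k := by
  have hL : Nat.log 2 n ≤ n := Nat.log_le_self 2 n
  have h1 : ∀ i ∈ Finset.range (Nat.log 2 n),
      (ST.getBit (encI k n g t₀ X) i).toNat = if i < k then 1 else 0 := by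
    intro i hi
    have hi' := Finset.mem_range.1 hi
    have hin : i < n := by omega
    unfold ST.getBit
    rw [dif_pos hin]
    have h2 : encI k n g t₀ X ⟨i, hin⟩ = decide (i < k) := by
      unfold encI
      rw [if_pos (show ((⟨i, hin⟩ : Fin n) : ℕ) < Nat.log 2 n from hi')]
    rw [h2]
    by_cases h : i < k <;> simp [h]
  unfold ST.expo
  rw [Finset.sum_congr rfl h1, ← Finset.sum_filter, Finset.sum_const, smul_eq_mul, mul_one]
  have h3 : (Finset.range (Nat.log 2 n)).filter (fun i => i < k) = Finset.range k := by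
    ext i
    simp only [Finset.mem_filter, Finset.mem_range]
    omega
  rw [h3, Finset.card_range]

private theorem EncI_cell_lt {n L K j p : ℕ} (hL : L ≤ n) (hj : j < K) (hp : p < (n - L) / K) :
    L + j * ((n - L) / K) + p < n := by
  have h1 : K * ((n - L) / K) ≤ n - L := Nat.mul_div_le (n - L) K
  have h2 : (j + 1) * ((n - L) / K) ≤ K * ((n - L) / K) := Nat.mul_le_mul_right _ hj
  have h3 : (j + 1) * ((n - L) / K) = j * ((n - L) / K) + (n - L) / K := by ring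
  omega

private theorem EncI_bit {k n g t₀ m : ℕ} (hg : 1 ≤ g)
    (X : Fin (2 * k + 1) → Fin m × Fin g → Bool) {j p : ℕ} (hj : j < 2 * k + 1)
    (hp : p < (n - Nat.log 2 n) / (2 * k + 1)) :
    ST.getBit (encI k n g t₀ X)
        (Nat.log 2 n + j * ((n - Nat.log 2 n) / (2 * k + 1)) + p) =
      if h : p / g - t₀ < m ∧ t₀ ≤ p / g then
        X ⟨j, hj⟩ (⟨p / g - t₀, h.1⟩, ⟨p % g, Nat.mod_lt _ hg⟩) else false := by
  have hL : Nat.log 2 n ≤ n := Nat.log_le_self 2 n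
  have hN : 0 < (n - Nat.log 2 n) / (2 * k + 1) := by omega
  have hc := EncI_cell_lt hL hj hp
  have e0 : Nat.log 2 n + j * ((n - Nat.log 2 n) / (2 * k + 1)) + p - Nat.log 2 n =
      p + j * ((n - Nat.log 2 n) / (2 * k + 1)) := by omega
  have e1 : (Nat.log 2 n + j * ((n - Nat.log 2 n) / (2 * k + 1)) + p - Nat.log 2 n) /
      ((n - Nat.log 2 n) / (2 * k + 1)) = j := by
    rw [e0, Nat.add_mul_div_right _ _ hN, Nat.div_eq_of_lt hp, Nat.zero_add]
  have e2 : (Nat.log 2 n + j * ((n - Nat.log 2 n) / (2 * k + 1)) + p - Nat.log 2 n) %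
      ((n - Nat.log 2 n) / (2 * k + 1)) = p := by
    rw [e0, Nat.add_mul_mod_self_right, Nat.mod_eq_of_lt hp]
  unfold ST.getBit
  rw [dif_pos hc]
  unfold encI
  rw [if_neg (show ¬ ((⟨_, hc⟩ : Fin n) : ℕ) < Nat.log 2 n by simp only; omega)]
  by_cases h : p / g - t₀ < m ∧ t₀ ≤ p / g
  · rw [dif_pos h, dif_pos]
    · congr 1
      · exact Fin.ext e1
      · refine Prod.ext (Fin.ext ?_) (Fin.ext ?_)
        · simp only
          rw [e2]
        · simp only
          rw [e2]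
    · refine ⟨?_, ?_, ?_, ?_⟩
      · simp only
        rw [e1]
        exact hj
      · simp only
        rw [e2]
        exact h.1
      · exact Nat.mod_lt _ hg
      · simp only
        rw [e2]
        exact h.2
  · rw [dif_neg h, dif_neg]
    simp only
    rw [e2]
    exact fun h' => h ⟨h'.2.1, h'.2.2.2⟩

theorem langI_encI {k n g t₀ m : ℕ} (hk : k ≤ Nat.log 2 n) (hg : 1 ≤ g)
    (h : t₀ + m ≤ (n - Nat.log 2 n) / (2 * k + 1) / g)
    (X : Fin (2 * k + 1) → Fin m × Fin g → Bool) :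
    langI n (encI k n g t₀ X) = false ↔ DisjM X := by
  unfold langI DisjM
  rw [EncI_expo hk, decide_eq_false_iff_not]
  constructor
  · rintro hh ⟨τ, i⟩ hs
    apply hh
    have hτ := τ.2
    have hi := i.2
    have h1 : g * ((n - Nat.log 2 n) / (2 * k + 1) / g) ≤ (n - Nat.log 2 n) / (2 * k + 1) :=
      Nat.mul_div_le _ g
    have h2 : g * (t₀ + (τ : ℕ) + 1) ≤ g * ((n - Nat.log 2 n) / (2 * k + 1) / g) :=
      Nat.mul_le_mul_left _ (by omega)
    have h3 : g * (t₀ + (τ : ℕ) + 1) = g * (t₀ + (τ : ℕ)) + g := by ring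
    have hp : g * (t₀ + (τ : ℕ)) + (i : ℕ) < (n - Nat.log 2 n) / (2 * k + 1) := by omega
    have e3 : (g * (t₀ + (τ : ℕ)) + (i : ℕ)) / g = t₀ + τ := by
      rw [Nat.mul_add_div hg, Nat.div_eq_of_lt hi, Nat.add_zero]
    have e4 : (g * (t₀ + (τ : ℕ)) + (i : ℕ)) % g = i := by
      rw [Nat.mul_add_mod, Nat.mod_eq_of_lt hi]
    refine ⟨g * (t₀ + (τ : ℕ)) + (i : ℕ), hp, fun j hj => ?_⟩
    rw [EncI_bit hg X hj hp, dif_pos (by rw [e3]; omega)]
    have h4 := hs ⟨j, hj⟩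
    have e5 : ∀ h', ((⟨(g * (t₀ + (τ : ℕ)) + (i : ℕ)) / g - t₀, h'⟩ : Fin m)) = τ := by
      intro h'
      apply Fin.ext
      simp only
      rw [e3]
      omega
    have e6 : ∀ h', ((⟨(g * (t₀ + (τ : ℕ)) + (i : ℕ)) % g, h'⟩ : Fin g)) = i := by
      intro h'
      exact Fin.ext e4
    rw [e5, e6]
    exact h4
  · rintro hh ⟨p, hp, h1⟩
    by_cases hc : p / g - t₀ < m ∧ t₀ ≤ p / g
    · refine hh (⟨p / g - t₀, hc.1⟩, ⟨p % g, Nat.mod_lt _ hg⟩) fun j => ?_
      have h2 := h1 j j.2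
      rw [EncI_bit hg X j.2 hp, dif_pos hc] at h2
      exact h2
    · have h2 := h1 0 (by omega)
      rw [EncI_bit hg X (by omega : 0 < 2 * k + 1) hp, dif_neg hc] at h2
      exact absurd h2 (by simp)

/-- a change of the bits of block `j` changes only cells of this block outside the margins -/
theorem encI_agree {k n g t₀ m c : ℕ} (hg : 1 ≤ g) (hc : c ≤ g * t₀)
    (hc' : g * (t₀ + m) + c ≤ (n - Nat.log 2 n) / (2 * k + 1))
    (X Y : Fin (2 * k + 1) → Fin m × Fin g → Bool) (j : Fin (2 * k + 1))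
    (hXY : ∀ j', j' ≠ j → Y j' = X j') (e : Fin n)
    (he : ¬ InI (Nat.log 2 n) ((n - Nat.log 2 n) / (2 * k + 1)) c j e) :
    encI k n g t₀ Y e = encI k n g t₀ X e := by
  unfold encI
  by_cases h0 : (e : ℕ) < Nat.log 2 n
  · rw [if_pos h0, if_pos h0]
  rw [if_neg h0, if_neg h0]
  by_cases h : ((e : ℕ) - Nat.log 2 n) / ((n - Nat.log 2 n) / (2 * k + 1)) < 2 * k + 1 ∧
        ((e : ℕ) - Nat.log 2 n) % ((n - Nat.log 2 n) / (2 * k + 1)) / g - t₀ < m ∧
        ((e : ℕ) - Nat.log 2 n) % ((n - Nat.log 2 n) / (2 * k + 1)) % g < g ∧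
        t₀ ≤ ((e : ℕ) - Nat.log 2 n) % ((n - Nat.log 2 n) / (2 * k + 1)) / g
  · rw [dif_pos h, dif_pos h]
    have hj : (⟨((e : ℕ) - Nat.log 2 n) / ((n - Nat.log 2 n) / (2 * k + 1)), h.1⟩ :
        Fin (2 * k + 1)) ≠ j := by
      intro hj
      apply he
      have hj' : ((e : ℕ) - Nat.log 2 n) / ((n - Nat.log 2 n) / (2 * k + 1)) = j :=
        congrArg Fin.val hj
      have h1 := Nat.div_add_mod ((e : ℕ) - Nat.log 2 n) ((n - Nat.log 2 n) / (2 * k + 1))
      have h2 := Nat.div_add_mod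
        (((e : ℕ) - Nat.log 2 n) % ((n - Nat.log 2 n) / (2 * k + 1))) g
      have h3 := Nat.mod_lt
        (((e : ℕ) - Nat.log 2 n) % ((n - Nat.log 2 n) / (2 * k + 1))) hg
      have h4 : g * t₀ ≤
          g * (((e : ℕ) - Nat.log 2 n) % ((n - Nat.log 2 n) / (2 * k + 1)) / g) :=
        Nat.mul_le_mul_left _ h.2.2.2
      have h5 : g * (((e : ℕ) - Nat.log 2 n) % ((n - Nat.log 2 n) / (2 * k + 1)) / g + 1) ≤
          g * (t₀ + m) := Nat.mul_le_mul_left _ (by omega)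
      rw [hj'] at h1
      unfold InI
      rw [Nat.mul_comm _ (j : ℕ)] at h1
      rw [Nat.mul_add, Nat.mul_one] at h5
      rw [Nat.add_mul, Nat.one_mul]
      constructor <;> omega
    rw [hXY _ hj]
  · rw [dif_neg h, dif_neg h]

end Pool.Agent.SH
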