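import Mathlib
import Pool.Agent.Lib.MP_69a69c_lc_SH.EncH
import Pool.Agent.Lib.MP_69a69c_lc_SH.UModel

/-!
# Inputs of `langU` with given groups
-/

set_option autoImplicit false

namespace Pool.Agent.SH

open Pool.Agent.LT (Inp)
open Pool.Agent.HM (InI)

/-- the input whose first `⌊log2 n⌋` bits are `k` ones and zeros, followed by `encH` -/
def encU (k n t₀ : ℕ) {m : ℕ} (X : Fin (2 * k + 1) → Fin m × Fin (grpLen k) → Bool) : Inp n :=
  fun e =>
    if h : (e : ℕ) < Nat.log 2 n then decide ((e : ℕ) < k)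
    else encH k (n - Nat.log 2 n) t₀ X ⟨(e : ℕ) - Nat.log 2 n, by omega⟩

private theorem EncU_expo {k n t₀ m : ℕ} (hk : k ≤ Nat.log 2 n)
    (X : Fin (2 * k + 1) → Fin m × Fin (grpLen k) → Bool) :
    ST.expo n (encU k n t₀ X) = k := by
  have hL : Nat.log 2 n ≤ n := Nat.log_le_self 2 n
  have h1 : ∀ i ∈ Finset.range (Nat.log 2 n),
      (ST.getBit (encU k n t₀ X) i).toNat = if i < k then 1 else 0 := by
    intro i hi
    have hi' := Finset.mem_range.1 hi
    have hin : i < n := by omega
    unfold ST.getBit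
    rw [dif_pos hin]
    have h2 : encU k n t₀ X ⟨i, hin⟩ = decide (i < k) := by
      unfold encU
      rw [dif_pos (show ((⟨i, hin⟩ : Fin n) : ℕ) < Nat.log 2 n from hi')]
    rw [h2]
    by_cases h : i < k <;> simp [h]
  unfold ST.expo
  rw [Finset.sum_congr rfl h1, ← Finset.sum_filter, Finset.sum_const, smul_eq_mul, mul_one]
  have h3 : (Finset.range (Nat.log 2 n)).filter (fun i => i < k) = Finset.range k := by
    ext i
    simp only [Finset.mem_filter, Finset.mem_range]
    omega
  rw [h3, Finset.card_range]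

private theorem EncU_tail {k n t₀ m : ℕ}
    (X : Fin (2 * k + 1) → Fin m × Fin (grpLen k) → Bool) :
    tailInp (encU k n t₀ X) = encH k (n - Nat.log 2 n) t₀ X := by
  funext e
  unfold tailInp encU
  rw [dif_neg (by simp)]
  congr 1
  exact Fin.ext (by simp)

theorem langU_encU {k n t₀ m : ℕ} (hk : k ≤ Nat.log 2 n) (hg : 2 ^ grpLen k ≤ n)
    (h : t₀ + m ≤ (n - Nat.log 2 n) / (2 * k + 1) / grpLen k)
    (X : Fin (2 * k + 1) → Fin m × Fin (grpLen k) → Bool) :
    langU n (encU k n t₀ X) = false ↔ ZeroM X := by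
  unfold langU
  rw [EncU_tail, EncU_expo hk, decide_eq_true hg, Bool.true_and]
  exact langH_encH h X

/-- a change of the bits of block `j` changes only cells of this block outside the margins -/
theorem encU_agree {k n t₀ m c : ℕ} (hc : c ≤ grpLen k * t₀)
    (hc' : grpLen k * (t₀ + m) + c ≤ (n - Nat.log 2 n) / (2 * k + 1))
    (X Y : Fin (2 * k + 1) → Fin m × Fin (grpLen k) → Bool) (j : Fin (2 * k + 1))
    (hXY : ∀ j', j' ≠ j → Y j' = X j') (e : Fin n)
    (he : ¬ InI (Nat.log 2 n) ((n - Nat.log 2 n) / (2 * k + 1)) c j e) :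
    encU k n t₀ Y e = encU k n t₀ X e := by
  unfold encU
  by_cases h : (e : ℕ) < Nat.log 2 n
  · rw [dif_pos h, dif_pos h]
  · rw [dif_neg h, dif_neg h]
    refine encH_agree hc hc' X Y j hXY _ fun hI => he ?_
    unfold InI at hI ⊢
    simp only at hI
    constructor <;> omega

end Pool.Agent.SH
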