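import Mathlib

/-!
# The parameters
-/

set_option autoImplicit false

namespace Pool.Agent.SH

/-- `M` blocks of length `n / M`, groups of length `g`, margins of length at most `B`, at most
`κ` crossings, groups `t₀, ..., t₀ + m - 1` inside the margins -/
theorem numbersH (M g D : ℕ) (hM : 1 ≤ M) (hg : 1 ≤ g) : ∃ C : ℕ, 1 ≤ C ∧ ∀ n T S : ℕ, 1 ≤ n →
    n ≤ T → 1 ≤ S → C * T * S ≤ n ^ 2 → ∃ B κ t₀ m : ℕ, 1 ≤ B ∧ B ≤ n ∧ T ≤ B * κ ∧
      B ≤ g * t₀ ∧ t₀ + m ≤ n / M / g ∧ g * (t₀ + m) + B ≤ n / M ∧ D * (κ + 1) * S < m := by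
  obtain ⟨K, hK⟩ : ∃ K, K = 8 * (M * g) := ⟨_, rfl⟩
  have hMg : 1 ≤ M * g := Nat.mul_pos hM hg
  have hK8 : 8 ≤ K := by omega
  refine ⟨(2 * K) ^ 2 * (3 * D + 1), Nat.mul_pos (pow_pos (by omega) 2) (by omega), ?_⟩
  intro n T S hn hT hS hC
  -- `n` is large
  have hCn : (2 * K) ^ 2 * (3 * D + 1) ≤ n := by
    have h1 : (2 * K) ^ 2 * (3 * D + 1) * n ≤ n * n := by
      calc (2 * K) ^ 2 * (3 * D + 1) * n ≤ (2 * K) ^ 2 * (3 * D + 1) * T :=
            Nat.mul_le_mul_left _ hT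
        _ ≤ (2 * K) ^ 2 * (3 * D + 1) * T * S := Nat.le_mul_of_pos_right _ hS
        _ ≤ n ^ 2 := hC
        _ = n * n := sq n
    exact Nat.le_of_mul_le_mul_right h1 hn
  have hKn : K ≤ n := by
    calc K ≤ 2 * K := by omega
      _ ≤ (2 * K) ^ 2 := Nat.le_self_pow (by norm_num) _
      _ ≤ (2 * K) ^ 2 * (3 * D + 1) := Nat.le_mul_of_pos_right _ (by omega)
      _ ≤ n := hCn
  obtain ⟨q, hq⟩ : ∃ q, q = n / K := ⟨_, rfl⟩
  have hq1 : 1 ≤ q := by
    rw [hq]
    exact Nat.div_pos hKn (by omega)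
  have hqn : K * q ≤ n := by rw [hq]; exact Nat.mul_div_le _ _
  have hnq : n < 2 * K * q := by
    have h1 : n < K * (q + 1) := by rw [hq]; exact Nat.lt_mul_div_succ n (by omega)
    have h2 : K * (q + 1) ≤ 2 * K * q := by
      calc K * (q + 1) ≤ K * (2 * q) := Nat.mul_le_mul_left _ (by omega)
        _ = 2 * K * q := by ring
    exact h1.trans_le h2
  have hgq : 1 ≤ g * q := Nat.mul_pos hg hq1
  have hgqK : 8 * (M * (g * q)) ≤ n := by
    calc 8 * (M * (g * q)) = K * q := by rw [hK]; ring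
      _ ≤ n := hqn
  have hMgq : g * q ≤ M * (g * q) := Nat.le_mul_of_pos_left _ hM
  have hqgq : q ≤ g * q := Nat.le_mul_of_pos_left _ hg
  refine ⟨g * q, T / (g * q) + 1, q, q, hgq, by omega, ?_, le_rfl, ?_, ?_, ?_⟩
  · exact (Nat.lt_mul_div_succ T hgq).le
  · rw [Nat.div_div_eq_div_mul, Nat.le_div_iff_mul_le hMg]
    calc (q + q) * (M * g) = 2 * (M * (g * q)) := by ring
      _ ≤ 8 * (M * (g * q)) := Nat.mul_le_mul_right _ (by norm_num)
      _ ≤ n := hgqK
  · rw [Nat.le_div_iff_mul_le hM]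
    calc (g * (q + q) + g * q) * M = 3 * (M * (g * q)) := by ring
      _ ≤ 8 * (M * (g * q)) := Nat.mul_le_mul_right _ (by norm_num)
      _ ≤ n := hgqK
  · -- the main inequality
    have h1 : (T / (g * q) + 1 + 1) * q ≤ 3 * T := by
      have h2 : T / (g * q) * q ≤ T := by
        calc T / (g * q) * q ≤ T / (g * q) * (g * q) := Nat.mul_le_mul_left _ hqgq
          _ ≤ T := Nat.div_mul_le_self _ _
      have h3 : q ≤ T := by omega
      calc (T / (g * q) + 1 + 1) * q = T / (g * q) * q + 2 * q := by ring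
        _ ≤ 3 * T := by omega
    have h4 : (3 * D + 1) * (T * S) < q * q := by
      have h5 : (2 * K) ^ 2 * ((3 * D + 1) * (T * S)) < (2 * K) ^ 2 * (q * q) := by
        calc (2 * K) ^ 2 * ((3 * D + 1) * (T * S)) = (2 * K) ^ 2 * (3 * D + 1) * T * S := by ring
          _ ≤ n ^ 2 := hC
          _ < (2 * K * q) ^ 2 := Nat.pow_lt_pow_left hnq (by norm_num)
          _ = (2 * K) ^ 2 * (q * q) := by ring
      exact lt_of_mul_lt_mul_left h5 (Nat.zero_le _)
    have h6 : D * (T / (g * q) + 1 + 1) * S * q < q * q := by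
      calc D * (T / (g * q) + 1 + 1) * S * q = D * S * ((T / (g * q) + 1 + 1) * q) := by ring
        _ ≤ D * S * (3 * T) := Nat.mul_le_mul_left _ h1
        _ = 3 * D * (T * S) := by ring
        _ ≤ (3 * D + 1) * (T * S) := Nat.mul_le_mul_right _ (by omega)
        _ < q * q := h4
    exact lt_of_mul_lt_mul_right h6 (Nat.zero_le _)

end Pool.Agent.SH
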