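import Mathlib
import Pool.Agent.Lib.MP_69a69c_lc_SH.Cover
import Pool.Agent.Lib.MP_69a69c_lc_SH.NoCover
import Pool.Agent.Lib.MP_69a69c_lc_SH.EncH
import Pool.Agent.Lib.MP_69a69c_lc_SH.NumH

/-!
# The lower bound for `langH`
-/

set_option autoImplicit false

namespace Pool.Agent.SH

open Pool.Agent.LT (Inp)
open Pool.Agent.HM (HeadDet HeadNondet)

theorem lowerH (k : ℕ) : ∃ C : ℕ, ∀ n T S w : ℕ, 1 ≤ n → n ≤ T → 1 ≤ S → n ≤ 2 ^ S →
    w ≤ 2 ^ S → C * T * S ≤ n ^ 2 →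
    ¬ HeadNondet (fun x => !langH k n x) k T w ∧ ¬ HeadDet (langH k n) k T w := by
  obtain ⟨D, hD⟩ := coverH k
  obtain ⟨C, hC1, hC⟩ := numbersH (2 * k + 1) (grpLen k) D (by omega)
    (Nat.mul_pos (by norm_num) (pow_pos (by norm_num) _))
  refine ⟨C, fun n T S w hn hT hS hnS hw hCTS => ?_⟩
  obtain ⟨B, κ, t₀, m, hB1, hBn, hTB, hBt, htm, hgm, hlt⟩ := hC n T S hn hT hS hCTS
  have hTS : T ≤ 2 ^ (2 * S) := by
    calc T = 1 * T * 1 := by ring
      _ ≤ C * T * S := Nat.mul_le_mul (Nat.mul_le_mul_right _ hC1) hS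
      _ ≤ n ^ 2 := hCTS
      _ ≤ (2 ^ S) ^ 2 := Nat.pow_le_pow_left hnS 2
      _ = 2 ^ (2 * S) := by rw [← pow_mul, mul_comm]
  have key : ¬ HeadNondet (fun x => !langH k n x) k T w := by
    rintro ⟨P, hP⟩
    obtain ⟨Θ, Tr, hΘ, hst, hacc, hcov⟩ := hD n T S w (n / (2 * k + 1)) B κ P hS hnS hw hTS hB1
      (hBn.trans hnS) hTB
    have hle := no_coverM (2 * k) m Θ (fun θ => {X | Tr θ (encH k n t₀ X)})
      (by
        intro θ u v hv hR
        obtain ⟨c, hc1, hcB, hstar⟩ := hst θ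
        exact hstar (encH k n t₀ u) (fun j => encH k n t₀ (v j))
          (fun j e he => encH_agree (hcB.trans hBt) (by omega) u (v j) j (hv j) e he) hR)
      (by
        intro θ X hX
        have h1 := (hP _).2 (hacc θ _ hX)
        rw [Bool.not_eq_true'] at h1
        exact (langH_encH htm X).1 h1)
      (by
        intro X hX
        have h1 := (langH_encH htm X).2 hX
        exact hcov _ ((hP _).1 (by simp [h1])))
    have h1 : 2 ^ (D * (κ + 1) * S) < 2 ^ m := Nat.pow_lt_pow_right (by norm_num) hlt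
    omega
  refine ⟨key, ?_⟩
  rintro ⟨P, hP⟩
  refine key ⟨P.toN false, fun x => ?_⟩
  rw [HM.toN_accepts]
  constructor
  · intro h
    rw [Bool.not_eq_true'] at h
    have := hP x
    rwa [h] at this
  · intro h
    rw [Bool.not_eq_true']
    exact HM.outputs_unique P T x (hP x) h

end Pool.Agent.SH
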