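import Mathlib
import Pool.Agent.Lib.MP_69a69c_lc_SH.OModel

/-!
# One head, no stack, no oracle: `n ^ 2 / S` head moves suffice for `langH`
-/

set_option autoImplicit false

namespace Pool.Agent.SH

open Pool.Agent.LT (Inp)
open Pool.Agent.HM (HeadProg HeadDet nbr Conf Move)

/-- Programs with one head on a fixed path `π` which do not use the stack: the states are changed
by `step`. -/
theorem headDet_of_path {n w : ℕ} (f : Inp n → Bool) (T : ℕ) (π : ℕ → Fin n) (d : ℕ → Bool)
    (hπ : ∀ t < T, π (t + 1) = nbr (π t) (d t)) (start : Fin w)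
    (step : ℕ → Fin w → Bool → Fin w) (acc : Fin w → Bool) (run : Inp n → ℕ → Fin w)
    (h0 : ∀ x, run x 0 = start) (h1 : ∀ x, ∀ t < T, run x (t + 1) = step t (run x t) (x (π t)))
    (h2 : ∀ x, acc (run x T) = f x) : HeadDet f 1 T w := by
  obtain ⟨P, hP⟩ : ∃ P : HeadProg n 1 w, P = ⟨fun _ => π 0, start,
      fun t _ q _ y => Move.head (step t q (y 0)) 0 (d t), acc⟩ := ⟨_, rfl⟩
  refine ⟨P, fun x => ?_⟩
  have key : ∀ j ≤ T, P.conf T x j = ⟨j, fun _ => π j, run x j, []⟩ := by
    intro j
    induction j with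
    | zero =>
      intro _
      rw [h0 x, hP]
      rfl
    | succ j ih =>
      intro hj
      have h3 : P.conf T x (j + 1) = P.step T x (P.conf T x j) := by
        unfold HeadProg.conf
        rw [Function.iterate_succ_apply']
      have hj' : j < T := by omega
      rw [h3, ih hj'.le, h1 x j hj', hπ j hj']
      unfold HeadProg.step
      rw [hP]
      simp only [hj', if_true]
      show (Conf.mk (j + 1) (Function.update (fun _ => π j) 0 (nbr (π j) (d j)))
        (step j (run x j) (x (π j))) []) = _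
      congr 1
      funext r
      rw [Subsingleton.elim r 0, Function.update_self]
  refine ⟨T, ?_, ?_⟩
  · rw [key T le_rfl]
  · rw [key T le_rfl, ← h2 x, hP]

/-! ### The path -/

private lemma succ_cases (m : ℕ) (hm : 0 < m) (t : ℕ) :
    ((t + 1) % m = t % m + 1 ∧ (t + 1) / m = t / m ∧ t % m + 1 < m) ∨
      ((t + 1) % m = 0 ∧ (t + 1) / m = t / m + 1 ∧ t % m + 1 = m) := by
  have h1 := Nat.div_add_mod t m
  have h2 := Nat.mod_lt t hm
  rcases Nat.lt_or_ge (t % m + 1) m with h3 | h3
  · left
    have e : t + 1 = (t % m + 1) + m * (t / m) := by omega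
    refine ⟨?_, ?_, h3⟩
    · rw [e, Nat.add_mul_mod_self_left, Nat.mod_eq_of_lt h3]
    · rw [e, Nat.add_mul_div_left _ _ hm, Nat.div_eq_of_lt h3]
      omega
  · right
    have h4 : t % m + 1 = m := by omega
    have e : t + 1 = 0 + m * (t / m + 1) := by
      rw [Nat.mul_add]
      omega
    refine ⟨?_, ?_, h4⟩
    · rw [e, Nat.add_mul_mod_self_left, Nat.zero_mod]
    · rw [e, Nat.add_mul_div_left _ _ hm, Nat.zero_div, zero_add]

private def cell (n t : ℕ) : ℕ :=
  if t % (2 * n) < n then t % (2 * n) else 2 * n - 1 - t % (2 * n)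

private lemma cell_lt {n : ℕ} (hn : 0 < n) (t : ℕ) : cell n t < n := by
  unfold cell
  split <;> omega

private lemma cell_succ {n : ℕ} (hn : 0 < n) (t : ℕ) :
    (⟨cell n (t + 1), cell_lt hn (t + 1)⟩ : Fin n) =
      nbr ⟨cell n t, cell_lt hn t⟩ (decide (t % (2 * n) < n)) := by
  have h2 := Nat.mod_lt t (show 0 < 2 * n by omega)
  have hs := succ_cases (2 * n) (by omega) t
  obtain ⟨u, hu⟩ : ∃ u, u = t % (2 * n) := ⟨_, rfl⟩
  obtain ⟨u', hu'⟩ : ∃ u', u' = (t + 1) % (2 * n) := ⟨_, rfl⟩
  have hc : cell n t = if u < n then u else 2 * n - 1 - u := by rw [hu]; rfl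
  have hc' : cell n (t + 1) = if u' < n then u' else 2 * n - 1 - u' := by rw [hu']; rfl
  rw [← hu, ← hu'] at hs
  rw [← hu] at h2
  rw [Fin.ext_iff, ← hu]
  unfold nbr
  by_cases h : u < n
  · simp only [h, decide_true, if_true]
    by_cases h3 : cell n t + 1 < n
    · rw [dif_pos h3]
      simp only
      rw [hc, if_pos h] at h3 ⊢
      rw [hc']
      rcases hs with hs | hs
      · rw [hs.1, if_pos h3]
      · omega
    · rw [dif_neg h3]
      simp only
      rw [hc, if_pos h] at h3 ⊢
      rw [hc']
      rcases hs with hs | hs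
      · rw [hs.1, if_neg h3]
        omega
      · omega
  · simp only [h, decide_false, Bool.false_eq_true, if_false]
    rw [hc, if_neg h, hc']
    rcases hs with hs | hs
    · rw [hs.1, if_neg (by omega)]
      omega
    · rw [hs.1, if_pos (by omega)]
      omega

/-! ### The states -/

open Classical in
/-- the memory: the conjunctions of the bits read so far -/
private noncomputable def vv {n : ℕ} (k s : ℕ) (x : Inp n) (ρ u : ℕ) (i : Fin s) : Bool :=
  decide (∀ j < 2 * k + 1, j * (n / (2 * k + 1)) + (s * ρ + i) < min u n →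
    ST.getBit x (j * (n / (2 * k + 1)) + (s * ρ + i)) = true)

/-- the group `t` is odd -/
private def Od {n : ℕ} (k : ℕ) (x : Inp n) (t : ℕ) : Prop :=
  (∑ i ∈ Finset.range (grpLen k), (decide (∀ j < 2 * k + 1,
      ST.getBit x (j * (n / (2 * k + 1)) + (grpLen k * t + i)) = true)).toNat) % 2 = 1

open Classical in
private noncomputable def st {n : ℕ} (k r : ℕ) (x : Inp n) (t : ℕ) :
    (Fin (grpLen k * r) → Bool) × Bool :=
  (vv k (grpLen k * r) x (t / (2 * n)) (t % (2 * n)),
    decide (∃ t' < min (n / (2 * k + 1) / grpLen k) (r * (t / (2 * n))), Od k x t'))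

open Classical in
private noncomputable def sp (k n r t : ℕ) (q : (Fin (grpLen k * r) → Bool) × Bool) (b : Bool) :
    (Fin (grpLen k * r) → Bool) × Bool :=
  if t % (2 * n) < n then
    (fun i => q.1 i && (if ∃ j < 2 * k + 1, j * (n / (2 * k + 1)) +
      (grpLen k * r * (t / (2 * n)) + i) = t % (2 * n) then b else true), q.2)
  else if t % (2 * n) + 1 = 2 * n then
    (fun _ => true, q.2 || decide (∃ q' < r, r * (t / (2 * n)) + q' < n / (2 * k + 1) / grpLen k ∧
      (∑ i ∈ Finset.range (grpLen k), (if h : grpLen k * q' + i < grpLen k * r then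
        (q.1 ⟨grpLen k * q' + i, h⟩) else false).toNat) % 2 = 1))
  else q

private lemma st_zero {n : ℕ} (k r : ℕ) (x : Inp n) :
    st k r x 0 = (fun _ => true, false) := by
  unfold st vv
  simp

private lemma getBit_eq {n : ℕ} (x : Inp n) {c : ℕ} (h : c < n) : ST.getBit x c = x ⟨c, h⟩ := by
  unfold ST.getBit
  rw [dif_pos h]

private lemma st_succ {n : ℕ} (hn : 0 < n) (k r : ℕ) (x : Inp n) (t : ℕ) :
    st k r x (t + 1) = sp k n r t (st k r x t) (x ⟨cell n t, cell_lt hn t⟩) := by
  classical
  have h2 := Nat.mod_lt t (show 0 < 2 * n by omega)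
  have hs := succ_cases (2 * n) (by omega) t
  obtain ⟨u, hu⟩ : ∃ u, u = t % (2 * n) := ⟨_, rfl⟩
  obtain ⟨ρ, hρ⟩ : ∃ ρ, ρ = t / (2 * n) := ⟨_, rfl⟩
  obtain ⟨N, hN⟩ : ∃ N, N = n / (2 * k + 1) := ⟨_, rfl⟩
  obtain ⟨g, hg⟩ : ∃ g, g = grpLen k := ⟨_, rfl⟩
  have hNn : (2 * k + 1) * N ≤ n := by rw [hN]; exact Nat.mul_div_le _ _
  have hgN : g * (N / g) ≤ N := Nat.mul_div_le _ _
  by_cases h : u < n
  · have hs' : (t + 1) % (2 * n) = u + 1 ∧ (t + 1) / (2 * n) = ρ := by
      rcases hs with hs | hs
      · exact ⟨by rw [hs.1, hu], by rw [hs.2.1, hρ]⟩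
      · omega
    have hcell : cell n t = u := by
      unfold cell
      rw [← hu, if_pos h]
    unfold st sp
    rw [hs'.1, hs'.2, ← hu, ← hρ, if_pos h]
    refine Prod.ext ?_ rfl
    funext i
    simp only
    rw [Bool.eq_iff_iff, Bool.and_eq_true]
    unfold vv
    rw [decide_eq_true_iff, decide_eq_true_iff]
    constructor
    · intro h3
      refine ⟨fun j hj h4 => h3 j hj (by omega), ?_⟩
      split_ifs with h4
      · obtain ⟨j, hj, h5⟩ := h4
        have h6 := h3 j hj (by rw [h5]; omega)
        have h7 : (⟨cell n t, cell_lt hn t⟩ : Fin n) = ⟨u, h⟩ := Fin.ext hcell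
        rw [h5, getBit_eq x h] at h6
        rw [h7, h6]
      · rfl
    · rintro ⟨h3, h4⟩ j hj h5
      rcases Nat.lt_or_ge (j * (n / (2 * k + 1)) + (grpLen k * r * ρ + (i : ℕ))) u with h6 | h6
      · exact h3 j hj (by omega)
      · have h7 : j * (n / (2 * k + 1)) + (grpLen k * r * ρ + (i : ℕ)) = u := by omega
        rw [if_pos ⟨j, hj, h7⟩] at h4
        have h8 : (⟨cell n t, cell_lt hn t⟩ : Fin n) = ⟨u, h⟩ := Fin.ext hcell
        rw [h7, getBit_eq x h, ← h8, h4]
  · by_cases h3 : u + 1 = 2 * n
    · have hs' : (t + 1) % (2 * n) = 0 ∧ (t + 1) / (2 * n) = ρ + 1 := by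
        rcases hs with hs | hs
        · omega
        · exact ⟨hs.1, by rw [hs.2.1, hρ]⟩
      unfold st sp
      rw [hs'.1, hs'.2, ← hu, ← hρ, if_neg h, if_pos h3]
      refine Prod.ext ?_ ?_
      · funext i
        simp only
        unfold vv
        simp
      · simp only
        rw [Bool.eq_iff_iff, Bool.or_eq_true, decide_eq_true_iff, decide_eq_true_iff,
          decide_eq_true_iff]
        have key : ∀ q' < r, r * ρ + q' < N / g → ((∑ i ∈ Finset.range (grpLen k),
            (if h : grpLen k * q' + i < grpLen k * r then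
              (vv k (grpLen k * r) x ρ u ⟨grpLen k * q' + i, h⟩) else false).toNat) % 2 = 1 ↔
            Od k x (r * ρ + q')) := by
          intro q' hq' hG
          unfold Od
          rw [Finset.sum_congr rfl]
          intro i hi
          rw [Finset.mem_range] at hi
          have h4 : grpLen k * q' + i < grpLen k * r := by
            have h5 : grpLen k * (q' + 1) ≤ grpLen k * r := Nat.mul_le_mul_left _ hq'
            rw [Nat.mul_add, mul_one] at h5
            omega
          rw [dif_pos h4]
          congr 1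
          unfold vv
          rw [Bool.eq_iff_iff, decide_eq_true_iff, decide_eq_true_iff]
          have e : grpLen k * r * ρ + (grpLen k * q' + i) = grpLen k * (r * ρ + q') + i := by ring
          simp only
          rw [e]
          refine forall_congr' fun j => forall_congr' fun hj => ?_
          have h5 : j * (n / (2 * k + 1)) + (grpLen k * (r * ρ + q') + i) < min u n := by
            have h6 : j * N + N ≤ (2 * k + 1) * N := by
              have := Nat.mul_le_mul_right N hj
              rw [Nat.succ_mul] at this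
              exact this
            have h7 : g * (r * ρ + q' + 1) ≤ g * (N / g) := Nat.mul_le_mul_left _ hG
            rw [Nat.mul_add, mul_one] at h7
            rw [← hN, ← hg]
            rw [← hg] at hi
            have h8 : n ≤ u := by omega
            rw [min_eq_right h8]
            omega
          exact ⟨fun h6 => h6 h5, fun h6 _ => h6⟩
        rw [← hN, ← hg]
        constructor
        · rintro ⟨t', ht', hO⟩
          rw [lt_min_iff] at ht'
          rcases Nat.lt_or_ge t' (r * ρ) with h4 | h4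
          · exact Or.inl ⟨t', lt_min ht'.1 h4, hO⟩
          · right
            have h5 : r * (ρ + 1) = r * ρ + r := by ring
            refine ⟨t' - r * ρ, by omega, by omega, ?_⟩
            rw [← hg] at key
            rw [key (t' - r * ρ) (by omega) (by omega)]
            have e : r * ρ + (t' - r * ρ) = t' := by omega
            rw [e]
            exact hO
        · rintro (⟨t', ht', hO⟩ | ⟨q', hq', hG, hO⟩)
          · rw [lt_min_iff] at ht'
            have h5 : r * (ρ + 1) = r * ρ + r := by ring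
            exact ⟨t', lt_min ht'.1 (by omega), hO⟩
          · rw [← hg] at key
            rw [key q' hq' hG] at hO
            have h5 : r * (ρ + 1) = r * ρ + r := by ring
            exact ⟨r * ρ + q', lt_min hG (by omega), hO⟩
    · have hs' : (t + 1) % (2 * n) = u + 1 ∧ (t + 1) / (2 * n) = ρ := by
        rcases hs with hs | hs
        · exact ⟨by rw [hs.1, hu], by rw [hs.2.1, hρ]⟩
        · omega
      unfold st sp
      rw [hs'.1, hs'.2, ← hu, ← hρ, if_neg h, if_neg h3]
      refine Prod.ext ?_ rfl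
      funext i
      simp only
      unfold vv
      rw [min_eq_right (by omega), min_eq_right (by omega)]

theorem tightH (k : ℕ) : ∃ C : ℕ, ∀ n S : ℕ, 1 ≤ n → 1 ≤ S → S ≤ n → ∃ T w : ℕ, n ≤ T ∧
    T * S ≤ C * n ^ 2 ∧ w ≤ 2 ^ (C * S) ∧ HeadDet (langH k n) 1 T w := by
  classical
  obtain ⟨g, hg⟩ : ∃ g, g = grpLen k := ⟨_, rfl⟩
  have hg2 : 2 ≤ g := by
    rw [hg]
    have : 1 ≤ 4 ^ (2 * k) := Nat.one_le_pow _ _ (by norm_num)
    show 2 ≤ 2 * 4 ^ (2 * k)
    omega
  refine ⟨g + 2, fun n S hn hS hSn => ?_⟩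
  obtain ⟨r, hr⟩ : ∃ r, r = S / g + 1 := ⟨_, rfl⟩
  obtain ⟨G, hG⟩ : ∃ G, G = n / (2 * k + 1) / g := ⟨_, rfl⟩
  have hr0 : 0 < r := by rw [hr]; exact Nat.succ_pos _
  have hgr : S ≤ g * r := by
    have h1 := Nat.div_add_mod S g
    have h2 := Nat.mod_lt S (show 0 < g by omega)
    rw [hr, Nat.mul_add, mul_one]
    omega
  have hgr' : g * r ≤ S + g := by
    have h1 := Nat.div_add_mod S g
    rw [hr, Nat.mul_add, mul_one]
    omega
  have hGn : g * G ≤ n := by
    rw [hG]
    exact (Nat.mul_div_le _ _).trans (Nat.div_le_self _ _)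
  have hround : G / r * S ≤ n := by
    calc G / r * S ≤ G / r * (g * r) := Nat.mul_le_mul_left _ hgr
      _ = g * (r * (G / r)) := by ring
      _ ≤ g * G := Nat.mul_le_mul_left _ (Nat.mul_div_le _ _)
      _ ≤ n := hGn
  have hcov : G < r * (G / r + 1) := by
    have h1 := Nat.div_add_mod G r
    have h2 := Nat.mod_lt G hr0
    rw [Nat.mul_add, mul_one]
    omega
  obtain ⟨e⟩ : Nonempty (((Fin (grpLen k * r) → Bool) × Bool) ≃
      Fin (Fintype.card ((Fin (grpLen k * r) → Bool) × Bool))) := ⟨Fintype.equivFin _⟩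
  refine ⟨2 * n * (G / r + 1), Fintype.card ((Fin (grpLen k * r) → Bool) × Bool), ?_, ?_, ?_, ?_⟩
  · nlinarith [Nat.zero_le (G / r)]
  · calc 2 * n * (G / r + 1) * S = 2 * n * (G / r * S + S) := by ring
      _ ≤ 2 * n * (n + n) := Nat.mul_le_mul_left _ (Nat.add_le_add hround hSn)
      _ = 4 * n ^ 2 := by ring
      _ ≤ (g + 2) * n ^ 2 := Nat.mul_le_mul_right _ (by omega)
  · rw [Fintype.card_prod, Fintype.card_fun, Fintype.card_bool, Fintype.card_fin, ← pow_succ]
    refine Nat.pow_le_pow_right (by norm_num) ?_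
    rw [← hg]
    nlinarith
  · refine headDet_of_path (langH k n) _ (fun t => ⟨cell n t, cell_lt hn t⟩)
      (fun t => decide (t % (2 * n) < n)) (fun t _ => cell_succ hn t) (e (fun _ => true, false))
      (fun t q b => e (sp k n r t (e.symm q) b)) (fun q => (e.symm q).2)
      (fun x t => e (st k r x t)) ?_ ?_ ?_
    · intro x
      rw [st_zero]
    · intro x t _
      rw [e.symm_apply_apply, ← st_succ hn k r x t]
    · intro x
      rw [e.symm_apply_apply]
      unfold st langH
      simp only
      rw [Nat.mul_div_cancel_left _ (show 0 < 2 * n by omega), ← hg, ← hG, min_eq_left hcov.le,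
        Bool.eq_iff_iff, decide_eq_true_iff, decide_eq_true_iff]
      unfold Od
      rw [← hg]

end Pool.Agent.SH
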