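import Mathlib
import Pool.Agent.Lib.MP_b573ec_lc_ST.UpperB
import Pool.Agent.Lib.MP_69a69c_lc_SH.OModel

/-!
# Nondeterministic one-pass programs for `langH`

The program guesses the group `t` and stores, for each of the positions of this group, whether all
the blocks read so far have a one there.
-/

set_option autoImplicit false

namespace Pool.Agent.SH

open Pool.Agent.LT (Inp NondetOnePass)
open Pool.Agent.ST (getBit B8_path B8_nondet)

/-- the step of the program for `langH`: `N` is the length of the blocks, `L = (2 * k + 1) * N`,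
`g` the length of the groups -/
private def upperH_step (n N L g : ℕ) (m : ℕ) (s : Fin n × (Fin g → Bool)) (b : Bool) :
    Fin n × (Fin g → Bool) :=
  (s.1, fun i => if m < L ∧ m % N = g * (s.1 : ℕ) + i then s.2 i && b else s.2 i)

private theorem upperH_inv {n N L g : ℕ} (x : Inp n) (t : Fin n) (m : ℕ) :
    B8_path (upperH_step n N L g) x (t, fun _ => true) m =
      (t, fun i : Fin g =>
        decide (∀ c < m, c < L → c % N = g * (t : ℕ) + (i : ℕ) → getBit x c = true)) := by
  induction m with
  | zero => simp [B8_path]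
  | succ m ih =>
    rw [B8_path, ih]
    unfold upperH_step
    refine Prod.ext rfl ?_
    funext i
    simp only
    have key : (∀ c < m + 1, c < L → c % N = g * (t : ℕ) + i → getBit x c = true) ↔
        ((∀ c < m, c < L → c % N = g * (t : ℕ) + i → getBit x c = true) ∧
          (m < L ∧ m % N = g * (t : ℕ) + i → getBit x m = true)) := by
      constructor
      · intro h
        exact ⟨fun c hc => h c (by omega), fun hh => h m (by omega) hh.1 hh.2⟩
      · rintro ⟨h1, h2⟩ c hc hL he
        rcases Nat.lt_succ_iff_lt_or_eq.1 hc with h | h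
        · exact h1 c h hL he
        · subst h
          exact h2 ⟨hL, he⟩
    by_cases h : m < L ∧ m % N = g * (t : ℕ) + i
    · rw [if_pos h]
      rw [Bool.eq_iff_iff]
      simp only [Bool.and_eq_true, decide_eq_true_eq]
      rw [key]
      constructor
      · rintro ⟨h1, h2⟩
        exact ⟨h1, fun _ => h2⟩
      · rintro ⟨h1, h2⟩
        exact ⟨h1, h2 h⟩
    · rw [if_neg h]
      rw [Bool.eq_iff_iff]
      simp only [decide_eq_true_eq]
      rw [key]
      constructor
      · intro h1
        exact ⟨h1, fun hh => absurd hh h⟩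
      · rintro ⟨h1, _⟩
        exact h1

private theorem upperH_final {n B N g : ℕ} (hL : B * N ≤ n) (x : Inp n) (t i : ℕ)
    (hi : g * t + i < N) :
    (∀ c < n, c < B * N → c % N = g * t + i → getBit x c = true) ↔
      ∀ j < B, getBit x (j * N + (g * t + i)) = true := by
  have hN : 0 < N := by omega
  constructor
  · intro h j hj
    have h1 : j * N + (g * t + i) < B * N := by
      calc j * N + (g * t + i) < j * N + N := by omega
        _ = (j + 1) * N := by ring
        _ ≤ B * N := Nat.mul_le_mul_right N hj
    refine h _ (by omega) h1 ?_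
    rw [Nat.add_comm, Nat.add_mul_mod_self_right, Nat.mod_eq_of_lt hi]
  · intro h c _ hc he
    have h1 : c / N < B := Nat.div_lt_of_lt_mul (by rw [Nat.mul_comm]; exact hc)
    have h2 := h (c / N) h1
    rw [← he, Nat.mul_comm, Nat.div_add_mod] at h2
    exact h2

theorem upperH (k : ℕ) : ∃ C : ℕ, ∀ n ≥ 1, ∃ w ≤ C * n, NondetOnePass (langH k n) w := by
  refine ⟨2 ^ grpLen k, fun n hn =>
    ⟨Fintype.card (Fin n × (Fin (grpLen k) → Bool)), ?_, ?_⟩⟩
  · simp only [Fintype.card_prod, Fintype.card_fin, Fintype.card_fun, Fintype.card_bool]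
    rw [Nat.mul_comm]
  · refine B8_nondet (langH k n)
      (fun s => (s.1 : ℕ) < n / (2 * k + 1) / grpLen k ∧ s.2 = fun _ => true)
      (upperH_step n (n / (2 * k + 1)) ((2 * k + 1) * (n / (2 * k + 1))) (grpLen k))
      (fun s => (∑ i : Fin (grpLen k), (s.2 i).toNat) % 2 = 1) fun x => ?_
    have hL : (2 * k + 1) * (n / (2 * k + 1)) ≤ n := Nat.mul_div_le _ _
    have hpath : ∀ t : Fin n, (t : ℕ) < n / (2 * k + 1) / grpLen k →
        ((∑ i : Fin (grpLen k), ((B8_path (upperH_step n (n / (2 * k + 1))
          ((2 * k + 1) * (n / (2 * k + 1))) (grpLen k)) x (t, fun _ => true) n).2 i).toNat) =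
        ∑ i ∈ Finset.range (grpLen k), (decide (∀ j < 2 * k + 1,
          getBit x (j * (n / (2 * k + 1)) + (grpLen k * t + i)) = true)).toNat) := by
      intro t ht
      rw [Finset.sum_range, upperH_inv]
      refine Finset.sum_congr rfl fun i _ => ?_
      have hi : grpLen k * (t : ℕ) + (i : ℕ) < n / (2 * k + 1) := by
        have h1 : ((t : ℕ) + 1) * grpLen k ≤ n / (2 * k + 1) :=
          (Nat.le_div_iff_mul_le (by positivity)).1 ht
        have h2 := i.2
        have h3 : ((t : ℕ) + 1) * grpLen k = grpLen k * (t : ℕ) + grpLen k := by ring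
        omega
      simp only
      congr 1
      exact decide_eq_decide.2 (upperH_final hL x t i hi)
    simp only [langH, decide_eq_true_eq]
    constructor
    · rintro ⟨t, ht, hs⟩
      have htn : t < n := by
        have h1 : n / (2 * k + 1) / grpLen k ≤ n :=
          (Nat.div_le_self _ _).trans (Nat.div_le_self _ _)
        omega
      refine ⟨(⟨t, htn⟩, fun _ => true), ⟨ht, rfl⟩, ?_⟩
      rw [hpath ⟨t, htn⟩ ht]
      exact hs
    · rintro ⟨⟨t, s⟩, ⟨ht, hs⟩, ha⟩
      simp only at hs ht
      subst hs
      rw [hpath t ht] at ha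
      exact ⟨t, ht, ha⟩

end Pool.Agent.SH
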