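import Mathlib
import Pool.Agent.Lib.MP_69a69c_lc_SH.OSim
import Pool.Agent.Lib.MP_69a69c_lc_SH.LowerH
import Pool.Agent.Lib.MP_69a69c_lc_SH.UpperH
import Pool.Agent.Lib.MP_69a69c_lc_SH.Tight
import Pool.Agent.Lib.MP_69a69c_lc_SH.Dense

/-!
# No sparse set is complete for NP under Cook reductions by multihead stack machines
-/

set_option autoImplicit false

namespace Pool.Agent.SH

open Pool.Agent.LT (Inp NondetOnePass)
open Pool.Agent.HM (HeadDet HeadNondet)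
open Pool.Agent.StackO (AtMostPerLength)

/-- `k` heads, deterministic and nondeterministic programs -/
theorem resultK (k : ℕ) : ∃ C : ℕ,
    (∀ n ≥ 1, ∃ w ≤ C * n, NondetOnePass (langH k n) w) ∧
    (∀ (A : Set (List Bool)) (n T S w : ℕ), AtMostPerLength A (2 ^ S) → 1 ≤ n → n ≤ T → 1 ≤ S →
      n ≤ 2 ^ S → w ≤ 2 ^ S → C * T * S ≤ n ^ 2 →
      ¬ HeadDetO A (2 ^ S) (langH k n) k T w ∧
        ¬ HeadNondetO A (2 ^ S) (fun x => !langH k n x) k T w) ∧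
    (∀ n S : ℕ, 1 ≤ n → 1 ≤ S → S ≤ n → ∃ T w : ℕ, n ≤ T ∧ T * S ≤ C * n ^ 2 ∧
      w ≤ 2 ^ (C * S) ∧ HeadDet (langH k n) 1 T w) ∧
    ∃ A : Set (List Bool), ∀ n ≥ 1, HeadDetO A n (langH k n) 1 n 2 := by
  obtain ⟨C1, h1⟩ := upperH k
  obtain ⟨C2, h2⟩ := lowerH k
  obtain ⟨C3, h3⟩ := tightH k
  refine ⟨C1 + 7 * C2 + C3, fun n hn => ?_, fun A n T S w hA hn hT hS hnS hw hC => ?_,
    fun n S hn hS hSn => ?_, oracleOf (langH k), fun n hn => detO_oracleOf (langH k) n hn⟩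
  · obtain ⟨w, hw, h⟩ := h1 n hn
    exact ⟨w, hw.trans (Nat.mul_le_mul_right _ (by omega)), h⟩
  · have h4 : n ≤ 2 ^ (7 * S) := hnS.trans (Nat.pow_le_pow_right (by norm_num) (by omega))
    have h5 : C2 * T * (7 * S) ≤ n ^ 2 := by
      calc C2 * T * (7 * S) = 7 * C2 * T * S := by ring
        _ ≤ (C1 + 7 * C2 + C3) * T * S :=
            Nat.mul_le_mul_right _ (Nat.mul_le_mul_right _ (by omega))
        _ ≤ n ^ 2 := hC
    constructor
    · intro h6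
      obtain ⟨w', h7, h8⟩ := headDet_of_O hA le_rfl hS hw h6
      exact (h2 n T (7 * S) w' hn hT (by omega) h4 h7 h5).2 h8
    · intro h6
      obtain ⟨w', h7, h8⟩ := headNondet_of_O hA le_rfl hS hw h6
      exact (h2 n T (7 * S) w' hn hT (by omega) h4 h7 h5).1 h8
  · obtain ⟨T, w, h4, h5, h6, h7⟩ := h3 n S hn hS hSn
    exact ⟨T, w, h4, h5.trans (Nat.mul_le_mul_right _ (by omega)),
      h6.trans (Nat.pow_le_pow_right (by norm_num) (Nat.mul_le_mul_right _ (by omega))), h7⟩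

end Pool.Agent.SH
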