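import Mathlib
import Pool.Agent.Lib.MP_0a1b52_lc_RQ.Disc

/-!
# The discrepancy of disjointness for any number of players (Rao and Yehudayoff)

The inputs are the inputs of `K + 2` players with places in groups; in each group the first `K + 1`
players have exactly one common place, and the sign tells the number of groups whose common place
belongs to the last player, too.
-/

set_option autoImplicit false

namespace Pool.Agent.SH

open Finset

/-- in each group the players `0, ..., K` have exactly one common place -/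
def OneCommon {K : ℕ} {ι Γ : Type} (γ : ι → Γ) (X : Fin (K + 2) → ι → Bool) : Prop :=
  ∀ τ, ∃! s, γ s = τ ∧ ∀ j, j ≠ Fin.last (K + 1) → X j s = true

/-- the sign: `-1` for each group with a place which is common to all players -/
noncomputable def sgD {K : ℕ} {ι Γ : Type} [Fintype Γ] (γ : ι → Γ)
    (X : Fin (K + 2) → ι → Bool) : ℝ := by
  classical
  exact ∏ τ, if ∃ s, γ s = τ ∧ ∀ j, X j s = true then -1 else 1

private theorem RYDisc_all {K : ℕ} {ι : Type} (X : Fin (K + 2) → ι → Bool) (s : ι) :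
    (∀ j, j ≠ Fin.last (K + 1) → X j s = true) ↔ ∀ k : Fin (K + 1), X k.castSucc s = true := by
  constructor
  · intro h k
    exact h _ (Fin.castSucc_lt_last k).ne
  · intro h j hj
    obtain ⟨k, rfl⟩ := Fin.exists_castSucc_eq.mpr hj
    exact h k

private theorem RYDisc_one {K : ℕ} {ι Γ : Type} (γ : ι → Γ) (X : Fin (K + 2) → ι → Bool) :
    OneCommon γ X ↔ RQ.One (fun s => some (γ s)) (fun k : Fin (K + 1) => X k.castSucc) := by
  unfold OneCommon RQ.One
  simp only [RYDisc_all, Option.some.injEq]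

/-- the sign is the same -/
private theorem RYDisc_sgn {K : ℕ} {ι Γ : Type} [Fintype ι] [Fintype Γ] [DecidableEq Γ]
    (γ : ι → Γ) (X : Fin (K + 2) → ι → Bool) (h : OneCommon γ X) :
    RQ.sgn (fun s => some (γ s)) (fun k : Fin (K + 1) => X k.castSucc) (X (Fin.last (K + 1))) =
      sgD γ X := by
  classical
  unfold RQ.sgn sgD
  rw [← Finset.prod_fiberwise_of_maps_to (s := univ) (t := univ) (g := γ)
    (fun s _ => mem_univ _)]
  refine Finset.prod_congr rfl fun τ _ => ?_
  obtain ⟨s0, ⟨h1, h2⟩, h3⟩ := h τ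
  have hall : ∀ s, (∀ j, X j s = true) ↔
      (∀ k : Fin (K + 1), X k.castSucc s = true) ∧ X (Fin.last (K + 1)) s = true := by
    intro s
    constructor
    · intro h
      exact ⟨fun k => h _, h _⟩
    · rintro ⟨h, h'⟩ j
      rcases eq_or_ne j (Fin.last (K + 1)) with e | e
      · rw [e]
        exact h'
      · obtain ⟨k, rfl⟩ := Fin.exists_castSucc_eq.mpr e
        exact h k
  rw [Finset.prod_eq_single s0]
  · by_cases h5 : X (Fin.last (K + 1)) s0 = true
    · rw [if_pos, if_pos]
      · exact ⟨s0, h1, (hall s0).mpr ⟨(RYDisc_all X s0).mp h2, h5⟩⟩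
      · exact ⟨by simp, (RYDisc_all X s0).mp h2, h5⟩
    · rw [if_neg, if_neg]
      · rintro ⟨s, h6, h7⟩
        have h8 : s = s0 := h3 s ⟨h6, fun j _ => h7 j⟩
        exact h5 (h8 ▸ h7 _)
      · rintro ⟨-, -, h6⟩
        exact h5 h6
  · intro s hs hne
    rw [if_neg]
    rintro ⟨-, h6, -⟩
    exact hne (h3 s ⟨(mem_filter.mp hs).2, (RYDisc_all X s).mpr h6⟩)
  · intro h4
    exact (h4 (by simp [h1])).elim

/-- Rao, Yehudayoff: functions `f j` which do not depend on the input of the player `j` -/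
theorem ryDisc (K : ℕ) {ι Γ : Type} [Fintype ι] [DecidableEq ι] [Fintype Γ] [DecidableEq Γ]
    (γ : ι → Γ) (f : Fin (K + 2) → (Fin (K + 2) → ι → Bool) → ℝ) (hf : ∀ j X, |f j X| ≤ 1)
    (hind : ∀ j X a, f j (Function.update X j a) = f j X)
    [DecidablePred (OneCommon (K := K) γ)] :
    |∑ X ∈ univ.filter (OneCommon (K := K) γ), (∏ j, f j X) * sgD γ X| ≤
      (univ.filter (OneCommon (K := K) γ)).card *
        ∏ τ, (2 ^ (K + 1) - 1 : ℝ) / Real.sqrt (univ.filter fun s => γ s = τ).card := by
  classical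
  obtain ⟨Φ, hΦ⟩ : ∃ Φ : (Fin (K + 1) → ι → Bool) × (ι → Bool) → (Fin (K + 2) → ι → Bool),
      ∀ q, Φ q = Fin.snoc (α := fun _ => ι → Bool) q.1 q.2 := ⟨_, fun _ => rfl⟩
  have hΦc : ∀ q k, Φ q (Fin.castSucc k) = q.1 k := by
    intro q k
    rw [hΦ]
    simp
  have hΦl : ∀ q, Φ q (Fin.last (K + 1)) = q.2 := by
    intro q
    rw [hΦ]
    simp
  have hΦi : ∀ q q', Φ q = Φ q' → q = q' := by
    intro q q' h
    refine Prod.ext ?_ ?_
    · funext k
      rw [← hΦc, ← hΦc, h]
    · rw [← hΦl, ← hΦl, h]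
  have hΦs : ∀ X, ∃ q, Φ q = X := by
    intro X
    refine ⟨(fun k => X k.castSucc, X (Fin.last (K + 1))), ?_⟩
    rw [hΦ]
    exact Fin.snoc_init_self (α := fun _ => ι → Bool) X
  have hmem : ∀ q, q ∈ RQ.Adm (fun s => some (γ s)) (fun _ _ => false) (fun _ => false) ↔
      Φ q ∈ univ.filter (OneCommon (K := K) γ) := by
    intro q
    rw [RQ.Adm, mem_filter, mem_filter, RYDisc_one]
    simp only [mem_univ, true_and, RQ.Off, reduceCtorEq, false_imp_iff, implies_true, and_true]
    have e : (fun k : Fin (K + 1) => Φ q k.castSucc) = q.1 := funext fun k => hΦc q k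
    rw [e]
  have hsum : ∀ g : (Fin (K + 2) → ι → Bool) → ℝ,
      ∑ X ∈ univ.filter (OneCommon (K := K) γ), g X =
        ∑ q ∈ RQ.Adm (fun s => some (γ s)) (fun _ _ => false) (fun _ => false), g (Φ q) := by
    intro g
    refine (Finset.sum_bij (fun q _ => Φ q) ?_ ?_ ?_ ?_).symm
    · intro q hq
      exact (hmem q).mp hq
    · intro q _ q' _ h
      exact hΦi q q' h
    · intro X hX
      obtain ⟨q, rfl⟩ := hΦs X
      exact ⟨q, (hmem q).mpr hX, rfl⟩
    · intro q _
      rfl
  have hcard : (univ.filter (OneCommon (K := K) γ)).card =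
      (RQ.Adm (fun s => some (γ s)) (fun _ _ => false) (fun _ => false) :
        Finset ((Fin (K + 1) → ι → Bool) × (ι → Bool))).card := by
    have h := hsum fun _ => 1
    simp only [sum_const, nsmul_eq_mul, mul_one] at h
    exact_mod_cast h
  have hdep : ∀ j X X', (∀ i, i ≠ j → X i = X' i) → f j X = f j X' := by
    intro j X X' h
    have e : X' = Function.update X j (X' j) := by
      funext i
      rcases eq_or_ne i j with e | e
      · subst e
        rw [Function.update_self]
      · rw [Function.update_of_ne e, h i e]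
    rw [e, hind]
  have key := RQ.disc (U := ι) (J := Γ) (K + 1) (fun s => some (γ s)) (fun _ _ => false)
    (fun _ => false) (fun k x Y => f k.castSucc (Φ (x, Y)))
    (fun x => f (Fin.last (K + 1)) (Φ (x, fun _ => false))) (fun k x Y => hf _ _)
    (fun x => hf _ _) (by
      intro k x x' Y h
      refine hdep _ _ _ fun i hi => ?_
      rcases eq_or_ne i (Fin.last (K + 1)) with e | e
      · rw [e, hΦl, hΦl]
      · obtain ⟨k', rfl⟩ := Fin.exists_castSucc_eq.mpr e
        rw [hΦc, hΦc]
        exact h k' fun e' => hi (by rw [e']))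
  have hbc : ∀ τ, RQ.bc (fun s => some (γ s)) τ = (univ.filter fun s => γ s = τ).card := by
    intro τ
    rw [RQ.bc]
    congr 1
    ext s
    simp
  rw [hsum, hcard]
  simp only [hbc] at key
  refine le_trans (le_of_eq ?_) key
  congr 1
  refine Finset.sum_congr rfl fun q hq => ?_
  have h1 := RYDisc_sgn γ (Φ q) (mem_filter.mp ((hmem q).mp hq)).2
  have e : (fun k : Fin (K + 1) => Φ q k.castSucc) = q.1 := funext fun k => hΦc q k
  rw [e, hΦl] at h1
  rw [← h1, Fin.prod_univ_castSucc]
  have e2 : f (Fin.last (K + 1)) (Φ q) = f (Fin.last (K + 1)) (Φ (q.1, fun _ => false)) := by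
    refine hdep _ _ _ fun i hi => ?_
    obtain ⟨k, rfl⟩ := Fin.exists_castSucc_eq.mpr hi
    rw [hΦc, hΦc]
  rw [e2]
  ring

end Pool.Agent.SH
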