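import Mathlib
import Pool.Agent.Lib.MP_69a69c_lc_SH.IModel
import Pool.Agent.Lib.MP_69a69c_lc_SH.RYDisc

/-!
# Few star-closed sets do not cover the disjoint inputs
-/

set_option autoImplicit false

namespace Pool.Agent.SH

open Finset

/-- the length of the groups for `K + 2` players -/
abbrev grpI (K : ℕ) : ℕ := 4 ^ (K + 3)

/-- the groups with a place common to all players -/
private noncomputable def NoCoverI_v {K m : ℕ} (X : Fin (K + 2) → Fin m × Fin (grpI K) → Bool)
    (τ : Fin m) : Bool := by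
  classical
  exact decide (∃ s : Fin m × Fin (grpI K), s.1 = τ ∧ ∀ j, X j s = true)

/-- remove the common places of the first players from the last player -/
private noncomputable def NoCoverI_clear {K m : ℕ}
    (X : Fin (K + 2) → Fin m × Fin (grpI K) → Bool) : Fin (K + 2) → Fin m × Fin (grpI K) → Bool :=
  fun j s => by
    classical
    exact if j = Fin.last (K + 1) ∧ (∀ j', j' ≠ Fin.last (K + 1) → X j' s = true) then false
      else X j s

private theorem NoCoverI_clear_ne {K m : ℕ} (X : Fin (K + 2) → Fin m × Fin (grpI K) → Bool)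
    {j : Fin (K + 2)} (hj : j ≠ Fin.last (K + 1)) (s : Fin m × Fin (grpI K)) :
    NoCoverI_clear X j s = X j s := by
  unfold NoCoverI_clear
  rw [if_neg fun h => hj h.1]

private theorem NoCoverI_clear_last {K m : ℕ} (X : Fin (K + 2) → Fin m × Fin (grpI K) → Bool)
    {s : Fin m × Fin (grpI K)} (hs : ¬ ∀ j', j' ≠ Fin.last (K + 1) → X j' s = true) :
    NoCoverI_clear X (Fin.last (K + 1)) s = X (Fin.last (K + 1)) s := by
  unfold NoCoverI_clear
  rw [if_neg fun h => hs h.2]

private theorem NoCoverI_clear_one {K m : ℕ} {X : Fin (K + 2) → Fin m × Fin (grpI K) → Bool}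
    (h : OneCommon (K := K) (Prod.fst : Fin m × Fin (grpI K) → Fin m) X) :
    OneCommon (K := K) (Prod.fst : Fin m × Fin (grpI K) → Fin m) (NoCoverI_clear X) := by
  have e : ∀ s : Fin m × Fin (grpI K), (∀ j, j ≠ Fin.last (K + 1) → NoCoverI_clear X j s = true) ↔
      ∀ j, j ≠ Fin.last (K + 1) → X j s = true := by
    intro s
    refine forall_congr' fun j => forall_congr' fun hj => ?_
    rw [NoCoverI_clear_ne X hj]
  intro τ
  obtain ⟨s, hs, hu⟩ := h τ
  exact ⟨s, ⟨hs.1, (e s).2 hs.2⟩, fun s' hs' => hu s' ⟨hs'.1, (e s').1 hs'.2⟩⟩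

private theorem NoCoverI_clear_disj {K m : ℕ} (X : Fin (K + 2) → Fin m × Fin (grpI K) → Bool) :
    DisjM (NoCoverI_clear X) := by
  intro s hs
  have h1 : ∀ j', j' ≠ Fin.last (K + 1) → X j' s = true := by
    intro j hj
    rw [← NoCoverI_clear_ne X hj]
    exact hs j
  have h2 := hs (Fin.last (K + 1))
  unfold NoCoverI_clear at h2
  rw [if_pos ⟨rfl, h1⟩] at h2
  exact absurd h2 (by simp)

private theorem NoCoverI_last {K m : ℕ} {X : Fin (K + 2) → Fin m × Fin (grpI K) → Bool}
    (h : OneCommon (K := K) (Prod.fst : Fin m × Fin (grpI K) → Fin m) X)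
    {s : Fin m × Fin (grpI K)} (hs : ∀ j', j' ≠ Fin.last (K + 1) → X j' s = true) :
    X (Fin.last (K + 1)) s = NoCoverI_v X s.1 := by
  unfold NoCoverI_v
  rw [Bool.eq_iff_iff, decide_eq_true_iff]
  constructor
  · intro h1
    refine ⟨s, rfl, fun j => ?_⟩
    by_cases hj : j = Fin.last (K + 1)
    · rw [hj]
      exact h1
    · exact hs j hj
  · rintro ⟨s', h1, h2⟩
    obtain ⟨s0, -, hu⟩ := h s.1
    have e1 := hu s ⟨rfl, hs⟩
    have e2 := hu s' ⟨h1, fun j _ => h2 j⟩
    rw [e1, ← e2]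
    exact h2 _

private theorem NoCoverI_omega (K m : ℕ)
    [DecidablePred (OneCommon (K := K) (Prod.fst : Fin m × Fin (grpI K) → Fin m))]
    [DecidablePred (fun X : Fin (K + 2) → Fin m × Fin (grpI K) → Bool =>
      OneCommon (K := K) (Prod.fst : Fin m × Fin (grpI K) → Fin m) X ∧ DisjM X)] :
    (univ.filter (OneCommon (K := K) (Prod.fst : Fin m × Fin (grpI K) → Fin m))).card ≤
      2 ^ m * (univ.filter fun X : Fin (K + 2) → Fin m × Fin (grpI K) → Bool =>
        OneCommon (K := K) (Prod.fst : Fin m × Fin (grpI K) → Fin m) X ∧ DisjM X).card := by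
  classical
  set Ω := univ.filter (OneCommon (K := K) (Prod.fst : Fin m × Fin (grpI K) → Fin m)) with hΩ
  set Z := univ.filter fun X : Fin (K + 2) → Fin m × Fin (grpI K) → Bool =>
    OneCommon (K := K) (Prod.fst : Fin m × Fin (grpI K) → Fin m) X ∧ DisjM X with hZ
  have h1 : Ω.card = ∑ v : Fin m → Bool, (Ω.filter fun X => NoCoverI_v X = v).card :=
    Finset.card_eq_sum_card_fiberwise fun _ _ => Finset.mem_coe.2 (Finset.mem_univ _)
  have h2 : ∀ v : Fin m → Bool, (Ω.filter fun X => NoCoverI_v X = v).card ≤ Z.card := by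
    intro v
    refine Finset.card_le_card_of_injOn NoCoverI_clear ?_ ?_
    · intro X hX
      have hX' := (Finset.mem_filter.1 (Finset.mem_coe.1 hX)).1
      rw [hΩ, Finset.mem_filter] at hX'
      rw [Finset.mem_coe, hZ, Finset.mem_filter]
      exact ⟨Finset.mem_univ _, NoCoverI_clear_one hX'.2, NoCoverI_clear_disj X⟩
    · intro X hX X' hX' h
      obtain ⟨hX1, hX2⟩ := Finset.mem_filter.1 (Finset.mem_coe.1 hX)
      obtain ⟨hX1', hX2'⟩ := Finset.mem_filter.1 (Finset.mem_coe.1 hX')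
      rw [hΩ, Finset.mem_filter] at hX1 hX1'
      have e1 : ∀ j, j ≠ Fin.last (K + 1) → ∀ s, X j s = X' j s := by
        intro j hj s
        rw [← NoCoverI_clear_ne X hj, ← NoCoverI_clear_ne X' hj, h]
      funext j s
      by_cases hj : j = Fin.last (K + 1)
      · rw [hj]
        by_cases hs : ∀ j', j' ≠ Fin.last (K + 1) → X j' s = true
        · have hs' : ∀ j', j' ≠ Fin.last (K + 1) → X' j' s = true := by
            intro j' hj'
            rw [← e1 j' hj']
            exact hs j' hj'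
          rw [NoCoverI_last hX1.2 hs, NoCoverI_last hX1'.2 hs', hX2, hX2']
        · have hs' : ¬ ∀ j', j' ≠ Fin.last (K + 1) → X' j' s = true := by
            intro h3
            apply hs
            intro j' hj'
            rw [e1 j' hj']
            exact h3 j' hj'
          rw [← NoCoverI_clear_last X hs, ← NoCoverI_clear_last X' hs', h]
      · exact e1 j hj s
  rw [h1]
  calc _ ≤ ∑ _v : Fin m → Bool, Z.card := Finset.sum_le_sum fun v _ => h2 v
    _ = 2 ^ m * Z.card := by
        rw [Finset.sum_const, Finset.card_univ, Fintype.card_fun, Fintype.card_bool,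
          Fintype.card_fin, smul_eq_mul]

private theorem NoCoverI_nonempty (K m : ℕ)
    [DecidablePred (OneCommon (K := K) (Prod.fst : Fin m × Fin (grpI K) → Fin m))] :
    0 < (univ.filter (OneCommon (K := K) (Prod.fst : Fin m × Fin (grpI K) → Fin m))).card := by
  have hg : 0 < grpI K := by positivity
  have h0 : (0 : Fin (K + 2)) ≠ Fin.last (K + 1) := by
    intro h
    have := congrArg Fin.val h
    simp at this
  refine Finset.card_pos.2 ⟨fun _ s => decide (s.2 = ⟨0, hg⟩), ?_⟩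
  rw [Finset.mem_filter]
  refine ⟨Finset.mem_univ _, fun τ => ⟨(τ, ⟨0, hg⟩), ⟨rfl, fun j _ => by simp⟩, ?_⟩⟩
  rintro s ⟨h1, h2⟩
  have h3 := h2 0 h0
  rw [decide_eq_true_iff] at h3
  exact Prod.ext h1 h3

private theorem NoCoverI_star (K m : ℕ)
    [DecidablePred (OneCommon (K := K) (Prod.fst : Fin m × Fin (grpI K) → Fin m))]
    (R : Set (Fin (K + 2) → Fin m × Fin (grpI K) → Bool)) [DecidablePred (· ∈ R)]
    (hstar : ∀ (u : Fin (K + 2) → Fin m × Fin (grpI K) → Bool)
      (v : Fin (K + 2) → Fin (K + 2) → Fin m × Fin (grpI K) → Bool),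
      (∀ j j', j' ≠ j → v j j' = u j') → (∀ j, v j ∈ R) → u ∈ R)
    (hZ : ∀ X ∈ R, DisjM X) :
    4 ^ m * (((univ.filter (OneCommon (K := K)
      (Prod.fst : Fin m × Fin (grpI K) → Fin m))).filter (· ∈ R)).card : ℝ) ≤
      (univ.filter (OneCommon (K := K) (Prod.fst : Fin m × Fin (grpI K) → Fin m))).card := by
  classical
  let f : Fin (K + 2) → (Fin (K + 2) → Fin m × Fin (grpI K) → Bool) → ℝ := fun j X =>
    if ∃ a, Function.update X j a ∈ R then 1 else 0
  have hf : ∀ j X, |f j X| ≤ 1 := by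
    intro j X
    simp only [f]
    split_ifs <;> simp
  have hind : ∀ j X a, f j (Function.update X j a) = f j X := by
    intro j X a
    simp only [f, Function.update_idem]
  have hprod : ∀ X, ∏ j, f j X = if X ∈ R then (1 : ℝ) else 0 := by
    intro X
    by_cases hX : X ∈ R
    · rw [if_pos hX]
      refine Finset.prod_eq_one fun j _ => ?_
      simp only [f]
      rw [if_pos ⟨X j, by rw [Function.update_eq_self]; exact hX⟩]
    · rw [if_neg hX]
      by_contra hne
      apply hX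
      have h1 : ∀ j, ∃ a, Function.update X j a ∈ R := by
        intro j
        by_contra hj
        apply hne
        refine Finset.prod_eq_zero (Finset.mem_univ j) ?_
        simp only [f]
        rw [if_neg hj]
      choose a ha using h1
      exact hstar X (fun j => Function.update X j (a j))
        (fun j j' hj => Function.update_of_ne hj _ _) ha
  have hsg : ∀ X ∈ R, sgD (K := K) (Prod.fst : Fin m × Fin (grpI K) → Fin m) X = 1 := by
    intro X hX
    unfold sgD
    refine Finset.prod_eq_one fun τ _ => ?_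
    rw [if_neg]
    rintro ⟨s, -, hs⟩
    exact hZ X hX s hs
  have hb := ryDisc K (Prod.fst : Fin m × Fin (grpI K) → Fin m) f hf hind
  set Ω := univ.filter (OneCommon (K := K) (Prod.fst : Fin m × Fin (grpI K) → Fin m)) with hΩ
  have hsum : ∑ X ∈ Ω, (∏ j, f j X) * sgD (K := K)
      (Prod.fst : Fin m × Fin (grpI K) → Fin m) X = ((Ω.filter (· ∈ R)).card : ℝ) := by
    have h1 : ∀ X ∈ Ω, (∏ j, f j X) * sgD (K := K)
        (Prod.fst : Fin m × Fin (grpI K) → Fin m) X = if X ∈ R then (1 : ℝ) else 0 := by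
      intro X _
      rw [hprod]
      by_cases hX : X ∈ R
      · rw [if_pos hX, hsg X hX, one_mul]
      · rw [if_neg hX, zero_mul]
    rw [Finset.sum_congr rfl h1]
    simp
  rw [hsum, Nat.abs_cast] at hb
  have hfac : ∀ τ : Fin m, (2 ^ (K + 1) - 1 : ℝ) /
      Real.sqrt ((univ.filter fun s : Fin m × Fin (grpI K) => s.1 = τ).card : ℝ) ≤ 1 / 4 := by
    intro τ
    have h1 : (univ.filter fun s : Fin m × Fin (grpI K) => s.1 = τ).card = grpI K := by
      have h2 : (univ.filter fun s : Fin m × Fin (grpI K) => s.1 = τ) =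
          (univ : Finset (Fin (grpI K))).map ⟨fun a => (τ, a), fun a b h => by
            simpa using h⟩ := by
        ext s
        simp only [Finset.mem_filter, Finset.mem_univ, true_and, Finset.mem_map,
          Function.Embedding.coeFn_mk]
        constructor
        · intro h
          exact ⟨s.2, by rw [← h]⟩
        · rintro ⟨a, rfl⟩
          rfl
      rw [h2, Finset.card_map, Finset.card_univ, Fintype.card_fin]
    have h3 : Real.sqrt ((grpI K : ℕ) : ℝ) = 2 ^ (K + 3) := by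
      have h4 : ((grpI K : ℕ) : ℝ) = (2 ^ (K + 3)) ^ 2 := by
        unfold grpI
        push_cast
        rw [← pow_mul, mul_comm, pow_mul]
        norm_num
      rw [h4, Real.sqrt_sq (by positivity)]
    rw [h1, h3, div_le_div_iff₀ (by positivity) (by norm_num)]
    have h5 : (2 : ℝ) ^ (K + 3) = 4 * 2 ^ (K + 1) := by
      rw [pow_add, pow_add]
      norm_num
      ring
    rw [h5]
    linarith
  have hfac0 : ∀ τ : Fin m, (0 : ℝ) ≤ (2 ^ (K + 1) - 1 : ℝ) /
      Real.sqrt ((univ.filter fun s : Fin m × Fin (grpI K) => s.1 = τ).card : ℝ) := by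
    intro τ
    apply div_nonneg _ (Real.sqrt_nonneg _)
    have : (1 : ℝ) ≤ 2 ^ (K + 1) := one_le_pow₀ (by norm_num)
    linarith
  have hP : ∏ τ : Fin m, (2 ^ (K + 1) - 1 : ℝ) /
      Real.sqrt ((univ.filter fun s : Fin m × Fin (grpI K) => s.1 = τ).card : ℝ) ≤
      (1 / 4) ^ m := by
    calc _ ≤ ∏ _τ : Fin m, (1 / 4 : ℝ) := Finset.prod_le_prod (fun τ _ => hfac0 τ)
          fun τ _ => hfac τ
      _ = (1 / 4) ^ m := by rw [Finset.prod_const, Finset.card_univ, Fintype.card_fin]
  have hb2 : ((Ω.filter (· ∈ R)).card : ℝ) ≤ (Ω.card : ℝ) * (1 / 4) ^ m :=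
    hb.trans (mul_le_mul_of_nonneg_left hP (by positivity))
  calc 4 ^ m * ((Ω.filter (· ∈ R)).card : ℝ) ≤ 4 ^ m * ((Ω.card : ℝ) * (1 / 4) ^ m) :=
        mul_le_mul_of_nonneg_left hb2 (by positivity)
    _ = Ω.card * (4 * (1 / 4)) ^ m := by rw [mul_pow]; ring
    _ = Ω.card := by norm_num

theorem no_coverI (K m N : ℕ)
    (R : Fin N → Set (Fin (K + 2) → Fin m × Fin (grpI K) → Bool))
    (hstar : ∀ θ, ∀ (u : Fin (K + 2) → Fin m × Fin (grpI K) → Bool)
      (v : Fin (K + 2) → Fin (K + 2) → Fin m × Fin (grpI K) → Bool),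
      (∀ j j', j' ≠ j → v j j' = u j') → (∀ j, v j ∈ R θ) → u ∈ R θ)
    (hZ : ∀ θ, ∀ X ∈ R θ, DisjM X) (hcov : ∀ X, DisjM X → ∃ θ, X ∈ R θ) : 2 ^ m ≤ N := by
  classical
  have h1 := NoCoverI_omega K m
  have h0 := NoCoverI_nonempty K m
  have h2 := fun θ => NoCoverI_star K m (R θ) (hstar θ) (hZ θ)
  set Ω := univ.filter (OneCommon (K := K) (Prod.fst : Fin m × Fin (grpI K) → Fin m)) with hΩ
  set Z := univ.filter fun X : Fin (K + 2) → Fin m × Fin (grpI K) → Bool =>
    OneCommon (K := K) (Prod.fst : Fin m × Fin (grpI K) → Fin m) X ∧ DisjM X with hZ'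
  have h3 : Z.card ≤ ∑ θ, (Ω.filter (· ∈ R θ)).card := by
    refine le_trans (Finset.card_le_card ?_) Finset.card_biUnion_le
    intro X hX
    rw [hZ', Finset.mem_filter] at hX
    obtain ⟨θ, hθ⟩ := hcov X hX.2.2
    rw [Finset.mem_biUnion]
    refine ⟨θ, Finset.mem_univ _, Finset.mem_filter.2 ⟨?_, hθ⟩⟩
    rw [hΩ, Finset.mem_filter]
    exact ⟨Finset.mem_univ _, hX.2.1⟩
  have h4 : (4 : ℝ) ^ m * (Z.card : ℝ) ≤ N * Ω.card := by
    have h5 : (Z.card : ℝ) ≤ ∑ θ, ((Ω.filter (· ∈ R θ)).card : ℝ) := by exact_mod_cast h3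
    calc (4 : ℝ) ^ m * (Z.card : ℝ) ≤ 4 ^ m * ∑ θ, ((Ω.filter (· ∈ R θ)).card : ℝ) :=
          mul_le_mul_of_nonneg_left h5 (by positivity)
      _ = ∑ θ, 4 ^ m * ((Ω.filter (· ∈ R θ)).card : ℝ) := by rw [Finset.mul_sum]
      _ ≤ ∑ _θ : Fin N, (Ω.card : ℝ) := Finset.sum_le_sum fun θ _ => h2 θ
      _ = N * Ω.card := by simp
  have h6 : (Ω.card : ℝ) ≤ 2 ^ m * Z.card := by exact_mod_cast h1
  have h7 : (0 : ℝ) < Ω.card := by exact_mod_cast h0
  have h8 : (4 : ℝ) ^ m = 2 ^ m * 2 ^ m := by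
    rw [← mul_pow]
    norm_num
  have h9 : (2 : ℝ) ^ m * Ω.card ≤ N * Ω.card := by
    calc (2 : ℝ) ^ m * Ω.card ≤ 2 ^ m * (2 ^ m * Z.card) :=
          mul_le_mul_of_nonneg_left h6 (by positivity)
      _ = 4 ^ m * Z.card := by rw [h8]; ring
      _ ≤ N * Ω.card := h4
  have h10 : (2 : ℝ) ^ m ≤ N := le_of_mul_le_mul_right h9 h7
  exact_mod_cast h10

end Pool.Agent.SH
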