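import Mathlib
import Pool.Agent.Lib.MP_69a69c_lc_SH.NoCoverI

/-!
# The parameters
-/

set_option autoImplicit false

namespace Pool.Agent.SH

/-- `M` blocks of length `n / M`, groups of length `g`: explicit form -/
private theorem NumI_explicit (M g D n T S : ℕ) (hM : 1 ≤ M) (hg : 1 ≤ g)
    (hT : n ≤ T) (hS : 1 ≤ S) (hn : 1 ≤ n)
    (hC : (2 * (8 * (M * g))) ^ 2 * (3 * D + 1) * T * S ≤ n ^ 2) :
    ∃ B κ t₀ m : ℕ, 1 ≤ B ∧ B ≤ n ∧ T ≤ B * κ ∧
      B ≤ g * t₀ ∧ t₀ + m ≤ n / M / g ∧ g * (t₀ + m) + B ≤ n / M ∧ D * (κ + 1) * S < m := by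
  obtain ⟨K, hK⟩ : ∃ K, K = 8 * (M * g) := ⟨_, rfl⟩
  rw [← hK] at hC
  have hMg : 1 ≤ M * g := Nat.mul_pos hM hg
  have hK8 : 8 ≤ K := by omega
  -- `n` is large
  have hCn : (2 * K) ^ 2 * (3 * D + 1) ≤ n := by
    have h1 : (2 * K) ^ 2 * (3 * D + 1) * n ≤ n * n := by
      calc (2 * K) ^ 2 * (3 * D + 1) * n ≤ (2 * K) ^ 2 * (3 * D + 1) * T :=
            Nat.mul_le_mul_left _ hT
        _ ≤ (2 * K) ^ 2 * (3 * D + 1) * T * S := Nat.le_mul_of_pos_right _ hS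
        _ ≤ n ^ 2 := hC
        _ = n * n := sq n
    exact Nat.le_of_mul_le_mul_right h1 hn
  have hKn : K ≤ n := by
    calc K ≤ 2 * K := by omega
      _ ≤ (2 * K) ^ 2 := Nat.le_self_pow (by norm_num) _
      _ ≤ (2 * K) ^ 2 * (3 * D + 1) := Nat.le_mul_of_pos_right _ (by omega)
      _ ≤ n := hCn
  obtain ⟨q, hq⟩ : ∃ q, q = n / K := ⟨_, rfl⟩
  have hq1 : 1 ≤ q := by
    rw [hq]
    exact Nat.div_pos hKn (by omega)
  have hqn : K * q ≤ n := by rw [hq]; exact Nat.mul_div_le _ _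
  have hnq : n < 2 * K * q := by
    have h1 : n < K * (q + 1) := by rw [hq]; exact Nat.lt_mul_div_succ n (by omega)
    have h2 : K * (q + 1) ≤ 2 * K * q := by
      calc K * (q + 1) ≤ K * (2 * q) := Nat.mul_le_mul_left _ (by omega)
        _ = 2 * K * q := by ring
    exact h1.trans_le h2
  have hgq : 1 ≤ g * q := Nat.mul_pos hg hq1
  have hgqK : 8 * (M * (g * q)) ≤ n := by
    calc 8 * (M * (g * q)) = K * q := by rw [hK]; ring
      _ ≤ n := hqn
  have hMgq : g * q ≤ M * (g * q) := Nat.le_mul_of_pos_left _ hM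
  have hqgq : q ≤ g * q := Nat.le_mul_of_pos_left _ hg
  refine ⟨g * q, T / (g * q) + 1, q, q, hgq, by omega, ?_, le_rfl, ?_, ?_, ?_⟩
  · exact (Nat.lt_mul_div_succ T hgq).le
  · rw [Nat.div_div_eq_div_mul, Nat.le_div_iff_mul_le hMg]
    calc (q + q) * (M * g) = 2 * (M * (g * q)) := by ring
      _ ≤ 8 * (M * (g * q)) := Nat.mul_le_mul_right _ (by norm_num)
      _ ≤ n := hgqK
  · rw [Nat.le_div_iff_mul_le hM]
    calc (g * (q + q) + g * q) * M = 3 * (M * (g * q)) := by ring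
      _ ≤ 8 * (M * (g * q)) := Nat.mul_le_mul_right _ (by norm_num)
      _ ≤ n := hgqK
  · -- the main inequality
    have h1 : (T / (g * q) + 1 + 1) * q ≤ 3 * T := by
      have h2 : T / (g * q) * q ≤ T := by
        calc T / (g * q) * q ≤ T / (g * q) * (g * q) := Nat.mul_le_mul_left _ hqgq
          _ ≤ T := Nat.div_mul_le_self _ _
      have h3 : q ≤ T := by omega
      calc (T / (g * q) + 1 + 1) * q = T / (g * q) * q + 2 * q := by ring
        _ ≤ 3 * T := by omega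
    have h4 : (3 * D + 1) * (T * S) < q * q := by
      have h5 : (2 * K) ^ 2 * ((3 * D + 1) * (T * S)) < (2 * K) ^ 2 * (q * q) := by
        calc (2 * K) ^ 2 * ((3 * D + 1) * (T * S)) = (2 * K) ^ 2 * (3 * D + 1) * T * S := by ring
          _ ≤ n ^ 2 := hC
          _ < (2 * K * q) ^ 2 := Nat.pow_lt_pow_left hnq (by norm_num)
          _ = (2 * K) ^ 2 * (q * q) := by ring
      exact lt_of_mul_lt_mul_left h5 (Nat.zero_le _)
    have h6 : D * (T / (g * q) + 1 + 1) * S * q < q * q := by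
      calc D * (T / (g * q) + 1 + 1) * S * q = D * S * ((T / (g * q) + 1 + 1) * q) := by ring
        _ ≤ D * S * (3 * T) := Nat.mul_le_mul_left _ h1
        _ = 3 * D * (T * S) := by ring
        _ ≤ (3 * D + 1) * (T * S) := Nat.mul_le_mul_right _ (by omega)
        _ < q * q := h4
    exact lt_of_mul_lt_mul_right h6 (Nat.zero_le _)

private theorem NumI_const (k : ℕ) :
    4 * ((2 * (8 * ((2 * (k + 1) + 1) * 4 ^ (2 * k + 1 + 3)))) ^ 2 *
      (3 * (38 * (k + 1) + 205) + 1)) ≤ (2 ^ 40) ^ (k + 1) := by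
  have h1 : k + 1 ≤ 2 ^ k := Nat.lt_two_pow_self
  have h2 : 2 * (k + 1) + 1 ≤ 3 * 2 ^ k := by omega
  have h3 : 3 * (38 * (k + 1) + 205) + 1 ≤ 730 * 2 ^ k := by omega
  have h4 : 4 ^ (2 * k + 1 + 3) = 256 * 2 ^ (4 * k) := by
    have h5 : (4 : ℕ) = 2 ^ 2 := by norm_num
    conv_lhs => rw [h5, ← pow_mul]
    have h6 : 2 * (2 * k + 1 + 3) = 8 + 4 * k := by ring
    rw [h6, pow_add]
    norm_num
  rw [h4]
  calc 4 * ((2 * (8 * ((2 * (k + 1) + 1) * (256 * 2 ^ (4 * k))))) ^ 2 *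
      (3 * (38 * (k + 1) + 205) + 1))
      ≤ 4 * ((2 * (8 * ((3 * 2 ^ k) * (256 * 2 ^ (4 * k))))) ^ 2 * (730 * 2 ^ k)) := by
        gcongr
    _ = (4 * (2 * 8 * 3 * 256) ^ 2 * 730) *
        (2 ^ (4 * k) * 2 ^ (4 * k) * (2 ^ k * 2 ^ k * 2 ^ k)) := by ring
    _ = (4 * (2 * 8 * 3 * 256) ^ 2 * 730) * 2 ^ (11 * k) := by
        congr 1
        rw [← pow_add, ← pow_add, ← pow_add, ← pow_add]
        congr 1
        ring
    _ ≤ 2 ^ 40 * 2 ^ (40 * k) := by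
        apply Nat.mul_le_mul
        · norm_num
        · exact Nat.pow_le_pow_right (by norm_num) (by omega)
    _ = (2 ^ 40) ^ (k + 1) := by
        rw [← pow_mul, ← pow_add]
        congr 1
        ring

private theorem NumI_two_mul_le (L : ℕ) : 2 * L ≤ 2 ^ L := by
  cases L with
  | zero => simp
  | succ L =>
    have h := Nat.lt_two_pow_self (n := L)
    rw [pow_succ]
    omega

/-- `2 * k + 3` blocks of length `(n - ⌊log2 n⌋) / (2 * k + 3)`, groups of length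
`grpI (2 * k + 1)`, margins of length at most `B`, at most `κ` crossings, groups
`t₀, ..., t₀ + m - 1` inside the margins (`k + 1` heads) -/
theorem numbersI : ∃ C : ℕ, 1 ≤ C ∧ ∀ k n T S : ℕ, 1 ≤ n →
    n ≤ T → 1 ≤ S → C ^ (k + 1) * T * S ≤ n ^ 2 → k + 1 ≤ Nat.log 2 n ∧
    ∃ B κ t₀ m : ℕ, 1 ≤ B ∧ B ≤ n ∧ T ≤ B * κ ∧ B ≤ grpI (2 * k + 1) * t₀ ∧
      t₀ + m ≤ (n - Nat.log 2 n) / (2 * (k + 1) + 1) / grpI (2 * k + 1) ∧
      grpI (2 * k + 1) * (t₀ + m) + B ≤ (n - Nat.log 2 n) / (2 * (k + 1) + 1) ∧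
      (38 * (k + 1) + 205) * (κ + 1) * S < m := by
  refine ⟨2 ^ 40, Nat.one_le_two_pow, fun k n T S hn hT hS hC => ?_⟩
  have hCn : (2 ^ 40) ^ (k + 1) ≤ n := by
    have h1 : (2 ^ 40) ^ (k + 1) * n ≤ n * n := by
      calc (2 ^ 40) ^ (k + 1) * n ≤ (2 ^ 40) ^ (k + 1) * T := Nat.mul_le_mul_left _ hT
        _ ≤ (2 ^ 40) ^ (k + 1) * T * S := Nat.le_mul_of_pos_right _ hS
        _ ≤ n ^ 2 := hC
        _ = n * n := sq n
    exact Nat.le_of_mul_le_mul_right h1 hn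
  have hlog : k + 1 ≤ Nat.log 2 n := by
    apply Nat.le_log_of_pow_le (by norm_num)
    refine le_trans ?_ hCn
    rw [← pow_mul]
    exact Nat.pow_le_pow_right (by norm_num) (by omega)
  refine ⟨hlog, ?_⟩
  have hLn : 2 * Nat.log 2 n ≤ n :=
    (NumI_two_mul_le _).trans (Nat.pow_log_le_self 2 (by omega))
  obtain ⟨n', hn'⟩ : ∃ n', n' = n - Nat.log 2 n := ⟨_, rfl⟩
  rw [← hn']
  have hnn' : n ≤ 2 * n' := by omega
  obtain ⟨B, κ, t₀, m, h1, h2, h3, h4, h5, h6, h7⟩ :=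
    NumI_explicit (2 * (k + 1) + 1) (grpI (2 * k + 1)) (38 * (k + 1) + 205) n' T S (by omega)
      (Nat.one_le_pow _ _ (by norm_num)) (by omega) hS (by omega) (by
        have h5 : 4 * ((2 * (8 * ((2 * (k + 1) + 1) * grpI (2 * k + 1)))) ^ 2 *
            (3 * (38 * (k + 1) + 205) + 1) * T * S) ≤ 4 * n' ^ 2 := by
          calc 4 * ((2 * (8 * ((2 * (k + 1) + 1) * grpI (2 * k + 1)))) ^ 2 *
                (3 * (38 * (k + 1) + 205) + 1) * T * S) =
              4 * ((2 * (8 * ((2 * (k + 1) + 1) * grpI (2 * k + 1)))) ^ 2 *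
                (3 * (38 * (k + 1) + 205) + 1)) * T * S := by ring
            _ ≤ (2 ^ 40) ^ (k + 1) * T * S :=
                Nat.mul_le_mul_right _ (Nat.mul_le_mul_right _ (NumI_const k))
            _ ≤ n ^ 2 := hC
            _ ≤ (2 * n') ^ 2 := Nat.pow_le_pow_left hnn' 2
            _ = 4 * n' ^ 2 := by ring
        exact Nat.le_of_mul_le_mul_left h5 (by norm_num))
  exact ⟨B, κ, t₀, m, h1, by omega, h3, h4, h5, h6, h7⟩

end Pool.Agent.SH
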