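import Mathlib
import Pool.Agent.Lib.MP_69a69c_lc_SH.CoverL
import Pool.Agent.Lib.MP_69a69c_lc_SH.NoCoverI
import Pool.Agent.Lib.MP_69a69c_lc_SH.EncI
import Pool.Agent.Lib.MP_69a69c_lc_SH.NumI

/-!
# The lower bound for set intersection
-/

set_option autoImplicit false

namespace Pool.Agent.SH

open Pool.Agent.LT (Inp)
open Pool.Agent.HM (HeadDet HeadNondet)

/-- without heads no time passes -/
private theorem LowerI_time_zero {n w T : ℕ} (P : HM.NHeadProg n 0 w) (x : Inp n)
    {a b : HM.Conf n 0 w} (h : Relation.ReflTransGen (P.Step T x) a b) : b.time = a.time := by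
  induction h with
  | refl => rfl
  | tail _ hs ih =>
    obtain ⟨_, mv, _, rfl⟩ := hs
    rw [← ih]
    cases mv with
    | push q a => rfl
    | pop q => rfl
    | head q r d => exact r.elim0

private theorem LowerI_false {n : ℕ} : langI n (fun _ => false) = false := by
  unfold langI
  rw [decide_eq_false_iff_not]
  rintro ⟨t, -, h⟩
  have h1 := h 0 (by omega)
  unfold ST.getBit at h1
  split_ifs at h1

theorem lowerI : ∃ C : ℕ, ∀ n k T S w : ℕ, 1 ≤ n → n ≤ T → 1 ≤ S → n ≤ 2 ^ S →
    w ≤ 2 ^ S → C ^ (k + 1) * T * S ≤ n ^ 2 →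
    ¬ HeadNondet (fun x => !langI n x) k T w ∧ ¬ HeadDet (langI n) k T w := by
  obtain ⟨C, hC1, hC⟩ := numbersI
  refine ⟨C, fun n k T S w hn hT hS hnS hw hCTS => ?_⟩
  have key : ¬ HeadNondet (fun x => !langI n x) k T w := by
    rintro ⟨P, hP⟩
    cases k with
    | zero =>
      obtain ⟨h, q, c, -, hc, hct, -⟩ := (hP (fun _ => false)).1 (by simp [LowerI_false])
      have h1 := LowerI_time_zero P _ hc
      simp only at h1
      omega
    | succ k =>
      have h4 : C ^ (k + 1) * T * S ≤ n ^ 2 := by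
        refine le_trans ?_ hCTS
        refine Nat.mul_le_mul_right _ (Nat.mul_le_mul_right _ ?_)
        exact Nat.pow_le_pow_right hC1 (by omega)
      obtain ⟨hkL, B, κ, t₀, m, hB1, hBn, hTB, hBt, htm, hgm, hlt⟩ := hC k n T S hn hT hS h4
      have hTS : T ≤ 2 ^ (2 * S) := by
        calc T = 1 * T * 1 := by ring
          _ ≤ C ^ (k + 1) * T * S :=
              Nat.mul_le_mul (Nat.mul_le_mul_right _ (Nat.one_le_pow _ _ hC1)) hS
          _ ≤ n ^ 2 := h4
          _ ≤ (2 ^ S) ^ 2 := Nat.pow_le_pow_left hnS 2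
          _ = 2 ^ (2 * S) := by rw [← pow_mul, mul_comm]
      have hg : 1 ≤ grpI (2 * k + 1) := Nat.one_le_pow _ _ (by norm_num)
      obtain ⟨Θ, Tr, hΘ, hst, hacc, hcov⟩ := coverE (k + 1) n T S w (Nat.log 2 n)
        ((n - Nat.log 2 n) / (2 * (k + 1) + 1)) B κ P hS hnS hw hTS hB1 (hBn.trans hnS) hTB
      have hle := no_coverI (2 * k + 1) m Θ
        (fun θ => {X | Tr θ (encI (k + 1) n (grpI (2 * k + 1)) t₀ X)})
        (by
          intro θ u v hv hR
          obtain ⟨c, hc1, hcB, hstar⟩ := hst θ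
          exact hstar (encI (k + 1) n (grpI (2 * k + 1)) t₀ u)
            (fun j => encI (k + 1) n (grpI (2 * k + 1)) t₀ (v j))
            (fun j e he => encI_agree hg (hcB.trans hBt) (by omega) u (v j) j (hv j) e he) hR)
        (by
          intro θ X hX
          have h1 := (hP _).2 (hacc θ _ hX)
          rw [Bool.not_eq_true'] at h1
          exact (langI_encI hkL hg htm X).1 h1)
        (by
          intro X hX
          have h1 := (langI_encI hkL hg htm X).2 hX
          exact hcov _ ((hP _).1 (by simp [h1])))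
      have h1 : 2 ^ ((38 * (k + 1) + 205) * (κ + 1) * S) < 2 ^ m :=
        Nat.pow_lt_pow_right (by norm_num) hlt
      omega
  refine ⟨key, ?_⟩
  rintro ⟨P, hP⟩
  refine key ⟨P.toN false, fun x => ?_⟩
  rw [HM.toN_accepts]
  constructor
  · intro h
    rw [Bool.not_eq_true'] at h
    have := hP x
    rwa [h] at this
  · intro h
    rw [Bool.not_eq_true']
    exact HM.outputs_unique P T x (hP x) h

end Pool.Agent.SH
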