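import Mathlib
import Pool.Agent.Lib.MP_69a69c_lc_SH.UModel

/-!
# Programs with one head on a fixed path, without stack
-/

set_option autoImplicit false

namespace Pool.Agent.SH

open Pool.Agent.LT (Inp)
open Pool.Agent.HM (HeadProg nbr Conf Move)

/-- Programs with one head on a fixed path `π` which do not use the stack: the states are changed
by `step`. -/
theorem headDetN_of_path {n w : ℕ} (f : Inp n → Bool) (T : ℕ) (π : ℕ → Fin n) (d : ℕ → Bool)
    (hπ : ∀ t < T, π (t + 1) = nbr (π t) (d t)) (start : Fin w)
    (step : ℕ → Fin w → Bool → Fin w) (acc : Fin w → Bool) (run : Inp n → ℕ → Fin w)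
    (h0 : ∀ x, run x 0 = start) (h1 : ∀ x, ∀ t < T, run x (t + 1) = step t (run x t) (x (π t)))
    (h2 : ∀ x, acc (run x T) = f x) : HeadDetN f 1 T w := by
  obtain ⟨P, hP⟩ : ∃ P : HeadProg n 1 w, P = ⟨fun _ => π 0, start,
      fun t _ q _ y => Move.head (step t q (y 0)) 0 (d t), acc⟩ := ⟨_, rfl⟩
  refine ⟨P, fun t h q a y => ⟨step t q (y 0), 0, d t, by rw [hP]⟩, fun x => ?_⟩
  have key : ∀ j ≤ T, P.conf T x j = ⟨j, fun _ => π j, run x j, []⟩ := by
    intro j
    induction j with
    | zero =>
      intro _
      rw [h0 x, hP]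
      rfl
    | succ j ih =>
      intro hj
      have h3 : P.conf T x (j + 1) = P.step T x (P.conf T x j) := by
        unfold HeadProg.conf
        rw [Function.iterate_succ_apply']
      have hj' : j < T := by omega
      rw [h3, ih hj'.le, h1 x j hj', hπ j hj']
      unfold HeadProg.step
      rw [hP]
      simp only [hj', if_true]
      show (Conf.mk (j + 1) (Function.update (fun _ => π j) 0 (nbr (π j) (d j)))
        (step j (run x j) (x (π j))) []) = _
      congr 1
      funext r
      rw [Subsingleton.elim r 0, Function.update_self]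
  refine ⟨T, ?_, ?_⟩
  · rw [key T le_rfl]
  · rw [key T le_rfl, ← h2 x, hP]

end Pool.Agent.SH
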