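import Mathlib
import Pool.Agent.Lib.MP_b573ec_lc_ST.UpperB
import Pool.Agent.Lib.MP_69a69c_lc_SH.IModel

/-!
# Nondeterministic one-pass programs for set intersection

The program guesses the place `t`, counts the ones among the first `⌊log2 n⌋` bits, and stores
whether all the blocks read so far have a one at the place `t`.
-/

set_option autoImplicit false

namespace Pool.Agent.SH

open Pool.Agent.LT (Inp NondetOnePass)
open Pool.Agent.ST (getBit expo B8_path B8_nondet)

/-- the states of the program for `langI` -/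
private abbrev upperI_S (n : ℕ) : Type := Fin n × Fin (Nat.log 2 n + 1) × Bool

/-- the step of the program for `langI` -/
private def upperI_step (n m : ℕ) (s : upperI_S n) (b : Bool) : upperI_S n :=
  if m < Nat.log 2 n then
    (s.1, ⟨min (s.2.1 + b.toNat) (Nat.log 2 n), by omega⟩, s.2.2)
  else
    (s.1, s.2.1,
      if m - Nat.log 2 n < (2 * (s.2.1 : ℕ) + 1) *
            ((n - Nat.log 2 n) / (2 * (s.2.1 : ℕ) + 1)) ∧
          (m - Nat.log 2 n) % ((n - Nat.log 2 n) / (2 * (s.2.1 : ℕ) + 1)) = (s.1 : ℕ)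
      then s.2.2 && b else s.2.2)

private theorem upperI_first {n : ℕ} (x : Inp n) (t : Fin n) (k : ℕ) (hk : k ≤ Nat.log 2 n) :
    (B8_path (upperI_step n) x (t, 0, true) k).1 = t ∧
    ((B8_path (upperI_step n) x (t, 0, true) k).2.1 : ℕ) =
      ∑ i ∈ Finset.range k, (getBit x i).toNat ∧
    (B8_path (upperI_step n) x (t, 0, true) k).2.2 = true := by
  induction k with
  | zero => simp [B8_path]
  | succ k ih =>
    obtain ⟨h1, h2, h3⟩ := ih (by omega)
    have hk' : k < Nat.log 2 n := hk
    have hle : ∑ i ∈ Finset.range k, (getBit x i).toNat ≤ k := by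
      calc ∑ i ∈ Finset.range k, (getBit x i).toNat ≤ ∑ _i ∈ Finset.range k, 1 :=
            Finset.sum_le_sum fun i _ => Bool.toNat_le _
        _ = k := by simp
    have hb : (getBit x k).toNat ≤ 1 := Bool.toNat_le _
    simp only [B8_path, upperI_step, hk', if_true]
    refine ⟨h1, ?_, h3⟩
    rw [Finset.sum_range_succ, h2]
    omega

private theorem upperI_second {n : ℕ} (x : Inp n) (t : Fin n) (m : ℕ) :
    (B8_path (upperI_step n) x (t, 0, true) (Nat.log 2 n + m)).1 = t ∧
    ((B8_path (upperI_step n) x (t, 0, true) (Nat.log 2 n + m)).2.1 : ℕ) =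
      expo n x ∧
    (B8_path (upperI_step n) x (t, 0, true) (Nat.log 2 n + m)).2.2 =
      decide (∀ c < m,
        c < (2 * expo n x + 1) * ((n - Nat.log 2 n) / (2 * expo n x + 1)) →
        c % ((n - Nat.log 2 n) / (2 * expo n x + 1)) = (t : ℕ) →
        getBit x (Nat.log 2 n + c) = true) := by
  induction m with
  | zero =>
    obtain ⟨h1, h2, h3⟩ := upperI_first x t (Nat.log 2 n) le_rfl
    refine ⟨by simpa using h1, by simpa [expo] using h2, ?_⟩
    refine h3.trans ?_
    simp
  | succ m ih =>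
    obtain ⟨h1, h2, h3⟩ := ih
    have hm' : ¬ (Nat.log 2 n + m < Nat.log 2 n) := by omega
    rw [← Nat.add_assoc]
    simp only [B8_path, upperI_step, hm', if_false, Nat.add_sub_cancel_left]
    rw [h1, h2, h3]
    refine ⟨rfl, rfl, ?_⟩
    generalize expo n x = k
    generalize (n - Nat.log 2 n) / (2 * k + 1) = N
    have key : (∀ c < m + 1, c < (2 * k + 1) * N →
        c % N = (t : ℕ) → getBit x (Nat.log 2 n + c) = true) ↔
        ((∀ c < m, c < (2 * k + 1) * N →
        c % N = (t : ℕ) → getBit x (Nat.log 2 n + c) = true) ∧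
          (m < (2 * k + 1) * N ∧ m % N = (t : ℕ) →
            getBit x (Nat.log 2 n + m) = true)) := by
      constructor
      · intro h
        exact ⟨fun c hc => h c (by omega), fun hh => h m (by omega) hh.1 hh.2⟩
      · rintro ⟨h1, h2⟩ c hc hL he
        rcases Nat.lt_succ_iff_lt_or_eq.1 hc with h | h
        · exact h1 c h hL he
        · subst h
          exact h2 ⟨hL, he⟩
    by_cases h : m < (2 * k + 1) * N ∧ m % N = (t : ℕ)
    · rw [if_pos h, Bool.eq_iff_iff]
      simp only [Bool.and_eq_true, decide_eq_true_eq]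
      rw [key]
      exact ⟨fun hh => ⟨hh.1, fun _ => hh.2⟩, fun hh => ⟨hh.1, hh.2 h⟩⟩
    · rw [if_neg h, Bool.eq_iff_iff]
      simp only [decide_eq_true_eq]
      rw [key]
      exact ⟨fun hh => ⟨hh, fun hh2 => absurd hh2 h⟩, fun hh => hh.1⟩

private theorem upperI_final {L B N : ℕ} (hL : B * N ≤ L) (f : ℕ → Bool) (t : ℕ)
    (ht : t < N) :
    (∀ c < L, c < B * N → c % N = t → f c = true) ↔ ∀ j < B, f (j * N + t) = true := by
  constructor
  · intro h j hj
    have h1 : j * N + t < B * N := by
      calc j * N + t < j * N + N := by omega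
        _ = (j + 1) * N := by ring
        _ ≤ B * N := Nat.mul_le_mul_right N hj
    refine h _ (by omega) h1 ?_
    rw [Nat.add_comm, Nat.add_mul_mod_self_right, Nat.mod_eq_of_lt ht]
  · intro h c _ hc he
    have h1 : c / N < B := Nat.div_lt_of_lt_mul (by rw [Nat.mul_comm]; exact hc)
    have h2 := h (c / N) h1
    rw [← he, Nat.mul_comm, Nat.div_add_mod] at h2
    exact h2

theorem upperI : ∀ n ≥ 1, ∃ w ≤ 2 * n ^ 2, NondetOnePass (langI n) w := by
  intro n hn
  have hL : Nat.log 2 n ≤ n := Nat.log_le_self 2 n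
  refine ⟨Fintype.card (upperI_S n), ?_, ?_⟩
  · simp only [Fintype.card_prod, Fintype.card_fin, Fintype.card_bool]
    have h1 : Nat.log 2 n + 1 ≤ n := Nat.log_lt_of_lt_pow (by omega) Nat.lt_two_pow_self
    calc n * ((Nat.log 2 n + 1) * 2) ≤ n * (n * 2) :=
          Nat.mul_le_mul_left n (Nat.mul_le_mul_right 2 h1)
      _ = 2 * n ^ 2 := by ring
  · refine B8_nondet (langI n) (fun s => s.2 = (0, true)) (upperI_step n)
      (fun s => (s.1 : ℕ) < (n - Nat.log 2 n) / (2 * (s.2.1 : ℕ) + 1) ∧ s.2.2 = true) fun x => ?_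
    have hpath : ∀ t : Fin n,
        (((B8_path (upperI_step n) x (t, 0, true) n).1 : ℕ) < (n - Nat.log 2 n) /
          (2 * ((B8_path (upperI_step n) x (t, 0, true) n).2.1 : ℕ) + 1) ∧
        (B8_path (upperI_step n) x (t, 0, true) n).2.2 = true) ↔
        ((t : ℕ) < (n - Nat.log 2 n) / (2 * expo n x + 1) ∧
          ∀ j < 2 * expo n x + 1,
            getBit x (Nat.log 2 n + j * ((n - Nat.log 2 n) / (2 * expo n x + 1)) + t) =
              true) := by
      intro t
      obtain ⟨h1, h2, h3⟩ := upperI_second x t (n - Nat.log 2 n)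
      rw [Nat.add_sub_cancel' hL] at h1 h2 h3
      rw [h1, h2, h3, decide_eq_true_eq]
      refine and_congr_right fun ht => ?_
      rw [upperI_final (Nat.mul_div_le _ _) (fun c => getBit x (Nat.log 2 n + c)) t ht]
      simp only [Nat.add_assoc]
    simp only [langI, decide_eq_true_eq]
    constructor
    · rintro ⟨t, ht, hs⟩
      have htn : t < n := by
        have h1 : (n - Nat.log 2 n) / (2 * expo n x + 1) ≤ n :=
          (Nat.div_le_self _ _).trans (Nat.sub_le _ _)
        omega
      exact ⟨(⟨t, htn⟩, 0, true), rfl, (hpath ⟨t, htn⟩).2 ⟨ht, hs⟩⟩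
    · rintro ⟨⟨t, s⟩, hs, ha⟩
      simp only at hs
      subst hs
      obtain ⟨ht, hs⟩ := (hpath t).1 ha
      exact ⟨t, ht, hs⟩

end Pool.Agent.SH
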