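import Mathlib
import Pool.Agent.Lib.MP_69a69c_lc_SH.OSim
import Pool.Agent.Lib.MP_69a69c_lc_SH.LowerI
import Pool.Agent.Lib.MP_69a69c_lc_SH.UpperI
import Pool.Agent.Lib.MP_69a69c_lc_SH.TightI
import Pool.Agent.Lib.MP_69a69c_lc_SH.Dense

/-!
# No sparse set is complete for NP under Cook reductions by multihead stack machines
-/

set_option autoImplicit false

namespace Pool.Agent.SH

open Pool.Agent.LT (Inp NondetOnePass)
open Pool.Agent.HM (HeadDet HeadNondet)
open Pool.Agent.StackO (AtMostPerLength)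

/-- one language for all numbers of heads, uniform in the number of heads -/
theorem resultI : ∃ C : ℕ,
    (∀ n ≥ 1, ∃ w ≤ 2 * n ^ 2, NondetOnePass (langI n) w) ∧
    (∀ (A : Set (List Bool)) (n k T S w : ℕ), AtMostPerLength A (2 ^ S) →
      1 ≤ n → n ≤ T → 1 ≤ S → n ≤ 2 ^ S → w ≤ 2 ^ S → C ^ (k + 1) * T * S ≤ n ^ 2 →
      ¬ HeadDetO A (2 ^ S) (langI n) k T w ∧
        ¬ HeadNondetO A (2 ^ S) (fun x => !langI n x) k T w) ∧
    (∀ n S : ℕ, 1 ≤ n → 1 ≤ S → n ≤ 2 ^ S → S ≤ n → ∃ T w : ℕ, n ≤ T ∧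
      T * S ≤ C * n ^ 2 ∧ w ≤ 2 ^ (C * S) ∧ HeadDetN (langI n) 1 T w) ∧
    ∃ A : Set (List Bool), ∀ n ≥ 1, HeadDetO A n (langI n) 1 n 2 := by
  obtain ⟨C, h2⟩ := lowerI
  obtain ⟨C3, h3⟩ := tightI
  refine ⟨7 * C + C3, upperI, fun A n k T S w hA hn hT hS hnS hw hC => ?_,
    fun n S hn hS hnS hSn => ?_, oracleOf langI, fun n hn => detO_oracleOf langI n hn⟩
  · have h4 : n ≤ 2 ^ (7 * S) := hnS.trans (Nat.pow_le_pow_right (by norm_num) (by omega))
    have h5 : C ^ (k + 1) * T * (7 * S) ≤ n ^ 2 := by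
      calc C ^ (k + 1) * T * (7 * S) = 7 ^ 1 * C ^ (k + 1) * T * S := by ring
        _ ≤ 7 ^ (k + 1) * C ^ (k + 1) * T * S := by
            gcongr
            · norm_num
            · omega
        _ = (7 * C) ^ (k + 1) * T * S := by rw [mul_pow]
        _ ≤ (7 * C + C3) ^ (k + 1) * T * S := by
            gcongr
            omega
        _ ≤ n ^ 2 := hC
    constructor
    · intro h6
      obtain ⟨w', h7, h8⟩ := headDet_of_O hA le_rfl hS hw h6
      exact (h2 n k T (7 * S) w' hn hT (by omega) h4 h7 h5).2 h8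
    · intro h6
      obtain ⟨w', h7, h8⟩ := headNondet_of_O hA le_rfl hS hw h6
      exact (h2 n k T (7 * S) w' hn hT (by omega) h4 h7 h5).1 h8
  · obtain ⟨T, w, h4, h5, h6, h7⟩ := h3 n S hn hS hnS hSn
    exact ⟨T, w, h4, h5.trans (Nat.mul_le_mul_right _ (by omega)),
      h6.trans (Nat.pow_le_pow_right (by norm_num) (Nat.mul_le_mul_right _ (by omega))), h7⟩

end Pool.Agent.SH
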