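import Mathlib
import Pool.Agent.Lib.MP_b573ec_lc_HM.Final
import Pool.Agent.Lib.MP_69a69c_lc_SH.OSim

/-!
# Randomized multihead stack programs with a sparse oracle

(This module is not used for the hand-in.)
-/

set_option autoImplicit false

namespace Pool.Agent.SH

open Pool.Agent.LT (Inp NondetOnePass)
open Pool.Agent.ST (langB)
open Pool.Agent.HM (HeadOneSided HeadTwoSided)
open Pool.Agent.StackO (AtMostPerLength)

/-- any number of heads, randomized programs -/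
theorem resultR : ∃ C : ℕ, (∀ n ≥ 1, ∃ w ≤ C * n ^ 2, NondetOnePass (langB n) w) ∧
    ∀ (A : Set (List Bool)) (n k T S w : ℕ), AtMostPerLength A (2 ^ S) → 1 ≤ n → 1 ≤ k →
      n ≤ T → 1 ≤ S → n ≤ 2 ^ S → w ≤ 2 ^ S → C * k ^ 3 * T ^ 2 * S ≤ n ^ 3 →
      ¬ HeadTwoSidedO A (2 ^ S) (langB n) k T w ∧ ¬ HeadOneSidedO A (2 ^ S) (langB n) k T w := by
  obtain ⟨C, h1, h2⟩ := Pool.Agent.HM.resultHM
  refine ⟨7 * C, fun n hn => ?_, fun A n k T S w hA hn hk hT hS hnS hw hC => ?_⟩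
  · obtain ⟨w, hw, h⟩ := (h1 n hn).2
    exact ⟨w, hw.trans (Nat.mul_le_mul_right _ (by omega)), h⟩
  · have h4 : n ≤ 2 ^ (7 * S) := hnS.trans (Nat.pow_le_pow_right (by norm_num) (by omega))
    have h5 : C * k ^ 3 * T ^ 2 * (7 * S) ≤ n ^ 3 := by
      calc C * k ^ 3 * T ^ 2 * (7 * S) = 7 * C * k ^ 3 * T ^ 2 * S := by ring
        _ ≤ n ^ 3 := hC
    constructor
    · intro h6
      obtain ⟨w', h7, h8⟩ := headTwoSided_of_O hA le_rfl hS hw h6
      exact (h2 n k T (7 * S) w' hn hk (by omega) hT h4 h7 h5).2.2.2.1 h8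
    · intro h6
      obtain ⟨w', h7, h8⟩ := headOneSided_of_O hA le_rfl hS hw h6
      exact (h2 n k T (7 * S) w' hn hk (by omega) hT h4 h7 h5).2.2.2.2.1 h8

end Pool.Agent.SH
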