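import Mathlib
import Pool.Agent.Lib.MP_69a69c_lc_SH.CoverL
import Pool.Agent.Lib.MP_69a69c_lc_SH.NoCover
import Pool.Agent.Lib.MP_69a69c_lc_SH.EncU
import Pool.Agent.Lib.MP_69a69c_lc_SH.NumH

/-!
# The lower bound for `langU`
-/

set_option autoImplicit false

namespace Pool.Agent.SH

open Pool.Agent.LT (Inp)
open Pool.Agent.HM (HeadDet HeadNondet)

private theorem LowerU_two_mul_le (L : ℕ) : 2 * L ≤ 2 ^ L := by
  cases L with
  | zero => simp
  | succ L =>
    have h := Nat.lt_two_pow_self (n := L)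
    rw [pow_succ]
    omega

theorem lowerU (k : ℕ) : ∃ C : ℕ, ∀ n T S w : ℕ, 1 ≤ n → n ≤ T → 1 ≤ S → n ≤ 2 ^ S →
    w ≤ 2 ^ S → C * T * S ≤ n ^ 2 →
    ¬ HeadNondet (fun x => !langU n x) k T w ∧ ¬ HeadDet (langU n) k T w := by
  obtain ⟨D, hD⟩ := coverL k
  obtain ⟨C₁, hC1, hC⟩ := numbersH (2 * k + 1) (grpLen k) D (by omega)
    (Nat.mul_pos (by norm_num) (pow_pos (by norm_num) _))
  refine ⟨4 * C₁ + 2 ^ grpLen k, fun n T S w hn hT hS hnS hw hCTS => ?_⟩
  -- `n` is large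
  have hCn : 4 * C₁ + 2 ^ grpLen k ≤ n := by
    have h1 : (4 * C₁ + 2 ^ grpLen k) * n ≤ n * n := by
      calc (4 * C₁ + 2 ^ grpLen k) * n ≤ (4 * C₁ + 2 ^ grpLen k) * T :=
            Nat.mul_le_mul_left _ hT
        _ ≤ (4 * C₁ + 2 ^ grpLen k) * T * S := Nat.le_mul_of_pos_right _ hS
        _ ≤ n ^ 2 := hCTS
        _ = n * n := sq n
    exact Nat.le_of_mul_le_mul_right h1 hn
  have hg : 2 ^ grpLen k ≤ n := le_trans (Nat.le_add_left _ _) hCn
  have hgL : grpLen k ≤ Nat.log 2 n := Nat.le_log_of_pow_le (by norm_num) hg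
  have hkg : k ≤ grpLen k := by
    have h1 := Nat.lt_two_pow_self (n := k)
    have h2 : 2 ^ k ≤ 4 ^ (2 * k) := by
      calc 2 ^ k ≤ 4 ^ k := Nat.pow_le_pow_left (by norm_num) k
        _ ≤ 4 ^ (2 * k) := Nat.pow_le_pow_right (by norm_num) (by omega)
    have h3 : grpLen k = 2 * 4 ^ (2 * k) := rfl
    omega
  have hkL : k ≤ Nat.log 2 n := hkg.trans hgL
  have hLn : 2 * Nat.log 2 n ≤ n := by
    refine (LowerU_two_mul_le _).trans (Nat.pow_log_le_self 2 (by omega))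
  obtain ⟨n', hn'⟩ : ∃ n', n' = n - Nat.log 2 n := ⟨_, rfl⟩
  have hn'n : n' ≤ n := by omega
  have hnn' : n ≤ 2 * n' := by omega
  have h4 : C₁ * T * S ≤ n' ^ 2 := by
    have h5 : 4 * (C₁ * T * S) ≤ 4 * n' ^ 2 := by
      calc 4 * (C₁ * T * S) = 4 * C₁ * T * S := by ring
        _ ≤ (4 * C₁ + 2 ^ grpLen k) * T * S :=
            Nat.mul_le_mul_right _ (Nat.mul_le_mul_right _ (Nat.le_add_right _ _))
        _ ≤ n ^ 2 := hCTS
        _ ≤ (2 * n') ^ 2 := Nat.pow_le_pow_left hnn' 2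
        _ = 4 * n' ^ 2 := by ring
    exact Nat.le_of_mul_le_mul_left h5 (by norm_num)
  obtain ⟨B, κ, t₀, m, hB1, hBn, hTB, hBt, htm, hgm, hlt⟩ :=
    hC n' T S (by omega) (by omega) hS h4
  have hTS : T ≤ 2 ^ (2 * S) := by
    calc T = 1 * T * 1 := by ring
      _ ≤ (4 * C₁ + 2 ^ grpLen k) * T * S :=
          Nat.mul_le_mul (Nat.mul_le_mul_right _ (le_add_right (by omega))) hS
      _ ≤ n ^ 2 := hCTS
      _ ≤ (2 ^ S) ^ 2 := Nat.pow_le_pow_left hnS 2
      _ = 2 ^ (2 * S) := by rw [← pow_mul, mul_comm]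
  subst hn'
  have key : ¬ HeadNondet (fun x => !langU n x) k T w := by
    rintro ⟨P, hP⟩
    obtain ⟨Θ, Tr, hΘ, hst, hacc, hcov⟩ := hD n T S w (Nat.log 2 n)
      ((n - Nat.log 2 n) / (2 * k + 1)) B κ P hS hnS hw hTS hB1
      ((hBn.trans hn'n).trans hnS) hTB
    have hle := no_coverM (2 * k) m Θ (fun θ => {X | Tr θ (encU k n t₀ X)})
      (by
        intro θ u v hv hR
        obtain ⟨c, hc1, hcB, hstar⟩ := hst θ
        exact hstar (encU k n t₀ u) (fun j => encU k n t₀ (v j))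
          (fun j e he => encU_agree (hcB.trans hBt) (by omega) u (v j) j (hv j) e he) hR)
      (by
        intro θ X hX
        have h1 := (hP _).2 (hacc θ _ hX)
        rw [Bool.not_eq_true'] at h1
        exact (langU_encU hkL hg htm X).1 h1)
      (by
        intro X hX
        have h1 := (langU_encU hkL hg htm X).2 hX
        exact hcov _ ((hP _).1 (by simp [h1])))
    have h1 : 2 ^ (D * (κ + 1) * S) < 2 ^ m := Nat.pow_lt_pow_right (by norm_num) hlt
    omega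
  refine ⟨key, ?_⟩
  rintro ⟨P, hP⟩
  refine key ⟨P.toN false, fun x => ?_⟩
  rw [HM.toN_accepts]
  constructor
  · intro h
    rw [Bool.not_eq_true'] at h
    have := hP x
    rwa [h] at this
  · intro h
    rw [Bool.not_eq_true']
    exact HM.outputs_unique P T x (hP x) h

end Pool.Agent.SH
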