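import Mathlib
import Pool.Agent.Lib.MP_69a69c_lc_SH.PathN

/-!
# One head, no stack, no oracle: `n ^ 2 / S` head moves suffice for `langU`
-/

set_option autoImplicit false

namespace Pool.Agent.SH

open Pool.Agent.LT (Inp)
open Pool.Agent.HM (nbr)

/-! ### The path -/

private lemma succ_cases (m : ℕ) (hm : 0 < m) (t : ℕ) :
    ((t + 1) % m = t % m + 1 ∧ (t + 1) / m = t / m ∧ t % m + 1 < m) ∨
      ((t + 1) % m = 0 ∧ (t + 1) / m = t / m + 1 ∧ t % m + 1 = m) := by
  have h1 := Nat.div_add_mod t m
  have h2 := Nat.mod_lt t hm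
  rcases Nat.lt_or_ge (t % m + 1) m with h3 | h3
  · left
    have e : t + 1 = (t % m + 1) + m * (t / m) := by omega
    refine ⟨?_, ?_, h3⟩
    · rw [e, Nat.add_mul_mod_self_left, Nat.mod_eq_of_lt h3]
    · rw [e, Nat.add_mul_div_left _ _ hm, Nat.div_eq_of_lt h3]
      omega
  · right
    have h4 : t % m + 1 = m := by omega
    have e : t + 1 = 0 + m * (t / m + 1) := by
      rw [Nat.mul_add]
      omega
    refine ⟨?_, ?_, h4⟩
    · rw [e, Nat.add_mul_mod_self_left, Nat.zero_mod]
    · rw [e, Nat.add_mul_div_left _ _ hm, Nat.zero_div, zero_add]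

private def cell (n t : ℕ) : ℕ :=
  if t % (2 * n) < n then t % (2 * n) else 2 * n - 1 - t % (2 * n)

private lemma cell_lt {n : ℕ} (hn : 0 < n) (t : ℕ) : cell n t < n := by
  unfold cell
  split <;> omega

private lemma cell_succ {n : ℕ} (hn : 0 < n) (t : ℕ) :
    (⟨cell n (t + 1), cell_lt hn (t + 1)⟩ : Fin n) =
      nbr ⟨cell n t, cell_lt hn t⟩ (decide (t % (2 * n) < n)) := by
  have h2 := Nat.mod_lt t (show 0 < 2 * n by omega)
  have hs := succ_cases (2 * n) (by omega) t
  obtain ⟨u, hu⟩ : ∃ u, u = t % (2 * n) := ⟨_, rfl⟩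
  obtain ⟨u', hu'⟩ : ∃ u', u' = (t + 1) % (2 * n) := ⟨_, rfl⟩
  have hc : cell n t = if u < n then u else 2 * n - 1 - u := by rw [hu]; rfl
  have hc' : cell n (t + 1) = if u' < n then u' else 2 * n - 1 - u' := by rw [hu']; rfl
  rw [← hu, ← hu'] at hs
  rw [← hu] at h2
  rw [Fin.ext_iff, ← hu]
  unfold nbr
  by_cases h : u < n
  · simp only [h, decide_true, if_true]
    by_cases h3 : cell n t + 1 < n
    · rw [dif_pos h3]
      simp only
      rw [hc, if_pos h] at h3 ⊢
      rw [hc']
      rcases hs with hs | hs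
      · rw [hs.1, if_pos h3]
      · omega
    · rw [dif_neg h3]
      simp only
      rw [hc, if_pos h] at h3 ⊢
      rw [hc']
      rcases hs with hs | hs
      · rw [hs.1, if_neg h3]
        omega
      · omega
  · simp only [h, decide_false, Bool.false_eq_true, if_false]
    rw [hc, if_neg h, hc']
    rcases hs with hs | hs
    · rw [hs.1, if_neg (by omega)]
      omega
    · rw [hs.1, if_pos (by omega)]
      omega

/-! ### The states -/

open Classical in
/-- the memory: the conjunctions of the bits read so far, the numbers of heads is `k` -/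
private noncomputable def vv {n : ℕ} (S L N k : ℕ) (x : Inp n) (ρ u : ℕ) (i : Fin S) : Bool :=
  decide (∀ j < 2 * k + 1, L + (j * (N / (2 * k + 1)) + (grpLen k * (S / grpLen k) * ρ + i)) <
    min u n → ST.getBit x (L + (j * (N / (2 * k + 1)) +
      (grpLen k * (S / grpLen k) * ρ + i))) = true)

/-- the group `t` is odd -/
private def Od {n : ℕ} (L N k : ℕ) (x : Inp n) (t : ℕ) : Prop :=
  (∑ i ∈ Finset.range (grpLen k), (decide (∀ j < 2 * k + 1,
      ST.getBit x (L + (j * (N / (2 * k + 1)) + (grpLen k * t + i))) = true)).toNat) % 2 = 1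

open Classical in
private noncomputable def stB {n : ℕ} (S L N k : ℕ) (x : Inp n) (t : ℕ) :
    (Fin S → Bool) × Bool :=
  (vv S L N k x (t / (2 * n)) (t % (2 * n)),
    decide (∃ t' < min (N / (2 * k + 1) / grpLen k) (S / grpLen k * (t / (2 * n))),
      Od L N k x t'))

open Classical in
private noncomputable def spB (n S L N k t : ℕ) (q : (Fin S → Bool) × Bool) (b : Bool) :
    (Fin S → Bool) × Bool :=
  if t % (2 * n) < n then
    (fun i => q.1 i && (if ∃ j < 2 * k + 1, L + (j * (N / (2 * k + 1)) +
      (grpLen k * (S / grpLen k) * (t / (2 * n)) + i)) = t % (2 * n) then b else true), q.2)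
  else if t % (2 * n) + 1 = 2 * n then
    (fun _ => true, q.2 || decide (∃ q' < S / grpLen k,
      S / grpLen k * (t / (2 * n)) + q' < N / (2 * k + 1) / grpLen k ∧
      (∑ i ∈ Finset.range (grpLen k), (if h : grpLen k * q' + i < S then
        (q.1 ⟨grpLen k * q' + i, h⟩) else false).toNat) % 2 = 1))
  else q

private lemma stB_zero {n : ℕ} (S L N k : ℕ) (x : Inp n) :
    stB S L N k x 0 = (fun _ => true, false) := by
  unfold stB vv
  simp

private lemma getBit_eq {n : ℕ} (x : Inp n) {c : ℕ} (h : c < n) : ST.getBit x c = x ⟨c, h⟩ := by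
  unfold ST.getBit
  rw [dif_pos h]

private lemma stB_succ {n : ℕ} (hn : 0 < n) {S L N k : ℕ} (hLN : L + N ≤ n) (x : Inp n) (t : ℕ) :
    stB S L N k x (t + 1) = spB n S L N k t (stB S L N k x t) (x ⟨cell n t, cell_lt hn t⟩) := by
  classical
  have h2 := Nat.mod_lt t (show 0 < 2 * n by omega)
  have hs := succ_cases (2 * n) (by omega) t
  obtain ⟨u, hu⟩ : ∃ u, u = t % (2 * n) := ⟨_, rfl⟩
  obtain ⟨ρ, hρ⟩ : ∃ ρ, ρ = t / (2 * n) := ⟨_, rfl⟩
  obtain ⟨M, hM⟩ : ∃ M, M = N / (2 * k + 1) := ⟨_, rfl⟩
  obtain ⟨g, hg⟩ : ∃ g, g = grpLen k := ⟨_, rfl⟩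
  obtain ⟨r, hr⟩ : ∃ r, r = S / g := ⟨_, rfl⟩
  have hMN : (2 * k + 1) * M ≤ N := by rw [hM]; exact Nat.mul_div_le _ _
  have hgM : g * (M / g) ≤ M := Nat.mul_div_le _ _
  have hgS : g * r ≤ S := by rw [hr]; exact Nat.mul_div_le _ _
  by_cases h : u < n
  · have hs' : (t + 1) % (2 * n) = u + 1 ∧ (t + 1) / (2 * n) = ρ := by
      rcases hs with hs | hs
      · exact ⟨by rw [hs.1, hu], by rw [hs.2.1, hρ]⟩
      · omega
    have hcell : cell n t = u := by
      unfold cell
      rw [← hu, if_pos h]
    unfold stB spB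
    rw [hs'.1, hs'.2, ← hu, ← hρ, if_pos h]
    refine Prod.ext ?_ rfl
    funext i
    simp only
    rw [Bool.eq_iff_iff, Bool.and_eq_true]
    unfold vv
    rw [decide_eq_true_iff, decide_eq_true_iff, ← hM, ← hg, ← hr]
    constructor
    · intro h3
      refine ⟨fun j hj h4 => h3 j hj (by omega), ?_⟩
      split_ifs with h4
      · obtain ⟨j, hj, h5⟩ := h4
        have h6 := h3 j hj (by rw [h5]; omega)
        have h7 : (⟨cell n t, cell_lt hn t⟩ : Fin n) = ⟨u, h⟩ := Fin.ext hcell
        rw [h5, getBit_eq x h] at h6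
        rw [h7, h6]
      · rfl
    · rintro ⟨h3, h4⟩ j hj h5
      rcases Nat.lt_or_ge (L + (j * M + (g * r * ρ + (i : ℕ)))) u with h6 | h6
      · exact h3 j hj (by omega)
      · have h7 : L + (j * M + (g * r * ρ + (i : ℕ))) = u := by omega
        rw [if_pos ⟨j, hj, h7⟩] at h4
        have h8 : (⟨cell n t, cell_lt hn t⟩ : Fin n) = ⟨u, h⟩ := Fin.ext hcell
        rw [h7, getBit_eq x h, ← h8, h4]
  · by_cases h3 : u + 1 = 2 * n
    · have hs' : (t + 1) % (2 * n) = 0 ∧ (t + 1) / (2 * n) = ρ + 1 := by
        rcases hs with hs | hs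
        · omega
        · exact ⟨hs.1, by rw [hs.2.1, hρ]⟩
      unfold stB spB
      rw [hs'.1, hs'.2, ← hu, ← hρ, if_neg h, if_pos h3]
      refine Prod.ext ?_ ?_
      · funext i
        simp only
        unfold vv
        simp
      · simp only
        rw [Bool.eq_iff_iff, Bool.or_eq_true, decide_eq_true_iff, decide_eq_true_iff,
          decide_eq_true_iff]
        have key : ∀ q' < r, r * ρ + q' < M / g → ((∑ i ∈ Finset.range (grpLen k),
            (if h : grpLen k * q' + i < S then
              (vv S L N k x ρ u ⟨grpLen k * q' + i, h⟩) else false).toNat) % 2 = 1 ↔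
            Od L N k x (r * ρ + q')) := by
          intro q' hq' hG
          unfold Od
          rw [Finset.sum_congr rfl]
          intro i hi
          rw [Finset.mem_range] at hi
          have h4 : grpLen k * q' + i < S := by
            have h5 : g * (q' + 1) ≤ g * r := Nat.mul_le_mul_left _ hq'
            rw [Nat.mul_add, mul_one] at h5
            rw [← hg] at hi ⊢
            omega
          rw [dif_pos h4]
          congr 1
          unfold vv
          rw [Bool.eq_iff_iff, decide_eq_true_iff, decide_eq_true_iff]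
          simp only
          rw [← hM, ← hg, ← hr]
          rw [← hg] at hi
          have e : g * r * ρ + (g * q' + i) = g * (r * ρ + q') + i := by ring
          rw [e]
          refine forall_congr' fun j => forall_congr' fun hj => ?_
          have h5 : L + (j * M + (g * (r * ρ + q') + i)) < min u n := by
            have h6 : j * M + M ≤ (2 * k + 1) * M := by
              have := Nat.mul_le_mul_right M hj
              rw [Nat.succ_mul] at this
              exact this
            have h7 : g * (r * ρ + q' + 1) ≤ g * (M / g) := Nat.mul_le_mul_left _ hG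
            rw [Nat.mul_add, mul_one] at h7
            have h8 : n ≤ u := by omega
            rw [min_eq_right h8]
            omega
          exact ⟨fun h6 => h6 h5, fun h6 _ => h6⟩
        rw [← hM, ← hg, ← hr]
        rw [← hg] at key
        constructor
        · rintro ⟨t', ht', hO⟩
          rw [lt_min_iff] at ht'
          rcases Nat.lt_or_ge t' (r * ρ) with h4 | h4
          · exact Or.inl ⟨t', lt_min ht'.1 h4, hO⟩
          · right
            have h5 : r * (ρ + 1) = r * ρ + r := by ring
            refine ⟨t' - r * ρ, by omega, by omega, ?_⟩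
            rw [key (t' - r * ρ) (by omega) (by omega)]
            have e : r * ρ + (t' - r * ρ) = t' := by omega
            rw [e]
            exact hO
        · rintro (⟨t', ht', hO⟩ | ⟨q', hq', hG, hO⟩)
          · rw [lt_min_iff] at ht'
            have h5 : r * (ρ + 1) = r * ρ + r := by ring
            exact ⟨t', lt_min ht'.1 (by omega), hO⟩
          · rw [key q' hq' hG] at hO
            have h5 : r * (ρ + 1) = r * ρ + r := by ring
            exact ⟨r * ρ + q', lt_min hG (by omega), hO⟩
    · have hs' : (t + 1) % (2 * n) = u + 1 ∧ (t + 1) / (2 * n) = ρ := by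
        rcases hs with hs | hs
        · exact ⟨by rw [hs.1, hu], by rw [hs.2.1, hρ]⟩
        · omega
      unfold stB spB
      rw [hs'.1, hs'.2, ← hu, ← hρ, if_neg h, if_neg h3]
      refine Prod.ext ?_ rfl
      funext i
      simp only
      unfold vv
      rw [min_eq_right (by omega), min_eq_right (by omega)]

/-- before the first `L` bits are read the number of heads does not matter -/
private lemma spB_congr {n S L N k k' t : ℕ} (hLn : L ≤ n) (ht : t < L)
    (q : (Fin S → Bool) × Bool) (b : Bool) : spB n S L N k t q b = spB n S L N k' t q b := by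
  have h1 : t % (2 * n) = t := Nat.mod_eq_of_lt (by omega)
  unfold spB
  rw [h1, if_pos (by omega), if_pos (by omega)]
  refine Prod.ext ?_ rfl
  funext i
  simp only
  rw [if_neg, if_neg]
  · rintro ⟨j, -, h⟩
    omega
  · rintro ⟨j, -, h⟩
    omega

/-- the number of ones among the first `min L t` bits -/
private def cn {n : ℕ} (L : ℕ) (x : Inp n) (t : ℕ) : ℕ :=
  ∑ i ∈ Finset.range (min L t), (ST.getBit x i).toNat

private lemma cn_le {n : ℕ} (L : ℕ) (x : Inp n) (t : ℕ) : cn L x t ≤ min L t := by
  unfold cn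
  calc ∑ i ∈ Finset.range (min L t), (ST.getBit x i).toNat
      ≤ ∑ i ∈ Finset.range (min L t), 1 := Finset.sum_le_sum fun i _ => Bool.toNat_le _
    _ = min L t := by simp

private lemma cn_of_ge {n : ℕ} {L : ℕ} (x : Inp n) {t : ℕ} (h : L ≤ t) :
    cn L x t = cn L x L := by
  unfold cn
  rw [min_eq_left h, min_self]

private noncomputable def st {n : ℕ} (S L N k : ℕ) (x : Inp n) (t : ℕ) :
    Fin (L + 1) × ((Fin S → Bool) × Bool) :=
  (⟨cn L x t, by have := cn_le L x t; omega⟩, stB S L N k x t)

private noncomputable def sp (n S L N t : ℕ) (q : Fin (L + 1) × ((Fin S → Bool) × Bool))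
    (b : Bool) : Fin (L + 1) × ((Fin S → Bool) × Bool) :=
  (if t < L then ⟨min L ((q.1 : ℕ) + b.toNat), by omega⟩ else q.1,
    spB n S L N (q.1 : ℕ) t q.2 b)

private lemma st_succ {n : ℕ} (hn : 0 < n) {S L N : ℕ} (hLN : L + N ≤ n) (x : Inp n) (t : ℕ) :
    st S L N (cn L x L) x (t + 1) =
      sp n S L N t (st S L N (cn L x L) x t) (x ⟨cell n t, cell_lt hn t⟩) := by
  unfold st sp
  rcases Nat.lt_or_ge t L with h | h
  · refine Prod.ext ?_ ?_
    · simp only [h, if_true]
      apply Fin.ext
      simp only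
      have hc : cell n t = t := by
        unfold cell
        rw [Nat.mod_eq_of_lt (by omega), if_pos (by omega)]
      have h1 : (⟨cell n t, cell_lt hn t⟩ : Fin n) = ⟨t, by omega⟩ := Fin.ext hc
      have h2 : cn L x (t + 1) = cn L x t + (x ⟨t, by omega⟩).toNat := by
        unfold cn
        rw [min_eq_right (by omega), min_eq_right (by omega), Finset.sum_range_succ,
          getBit_eq x (by omega)]
      have h3 := cn_le L x (t + 1)
      rw [h1, ← h2]
      omega
    · simp only
      rw [stB_succ hn hLN x t]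
      exact spB_congr (by omega) h _ _
  · refine Prod.ext ?_ ?_
    · simp only [Nat.not_lt.2 h, if_false]
      apply Fin.ext
      simp only
      rw [cn_of_ge x h, cn_of_ge x (show L ≤ t + 1 by omega)]
    · simp only
      rw [stB_succ hn hLN x t, cn_of_ge x h]

private lemma getBit_tail {n : ℕ} (x : Inp n) (m : ℕ) :
    ST.getBit (tailInp x) m = ST.getBit x (Nat.log 2 n + m) := by
  unfold ST.getBit tailInp
  by_cases h : m < n - Nat.log 2 n
  · rw [dif_pos h, dif_pos (by omega)]
  · rw [dif_neg h, dif_neg (by omega)]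

theorem tightU : ∃ C : ℕ, ∀ n S : ℕ, 1 ≤ n → 1 ≤ S → n ≤ 2 ^ S → S ≤ n → ∃ T w : ℕ, n ≤ T ∧
    T * S ≤ C * n ^ 2 ∧ w ≤ 2 ^ (C * S) ∧ HeadDetN (langU n) 1 T w := by
  classical
  refine ⟨6, fun n S hn hS hnS hSn => ?_⟩
  obtain ⟨L, hL⟩ : ∃ L, L = Nat.log 2 n := ⟨_, rfl⟩
  obtain ⟨N, hN⟩ : ∃ N, N = n - L := ⟨_, rfl⟩
  obtain ⟨R, hR⟩ : ∃ R, R = 2 * n / S + 1 := ⟨_, rfl⟩
  have hLn : L < n := by rw [hL]; exact Nat.log_lt_self 2 (by omega)
  have hL2 : 2 ^ L ≤ n := by rw [hL]; exact Nat.pow_log_le_self 2 (by omega)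
  have hLS : L ≤ S := (Nat.pow_le_pow_iff_right (by norm_num : 1 < 2)).1 (hL2.trans hnS)
  have hLN : L + N ≤ n := by omega
  have hRS : 2 * n < S * R := by
    rw [hR]
    exact Nat.lt_mul_div_succ _ (by omega)
  have hRS' : R * S ≤ 3 * n := by
    rw [hR, Nat.add_mul, one_mul]
    have := Nat.div_mul_le_self (2 * n) S
    omega
  obtain ⟨e⟩ : Nonempty ((Fin (L + 1) × ((Fin S → Bool) × Bool)) ≃
      Fin (Fintype.card (Fin (L + 1) × ((Fin S → Bool) × Bool)))) := ⟨Fintype.equivFin _⟩
  refine ⟨2 * n * R, Fintype.card (Fin (L + 1) × ((Fin S → Bool) × Bool)), ?_, ?_, ?_, ?_⟩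
  · have : 1 ≤ R := by rw [hR]; exact Nat.le_add_left _ _
    nlinarith
  · calc 2 * n * R * S = 2 * n * (R * S) := by ring
      _ ≤ 2 * n * (3 * n) := Nat.mul_le_mul_left _ hRS'
      _ = 6 * n ^ 2 := by ring
  · rw [Fintype.card_prod, Fintype.card_prod, Fintype.card_fun, Fintype.card_bool,
      Fintype.card_fin, Fintype.card_fin]
    have h1 : L + 1 ≤ 2 ^ S := (Nat.lt_two_pow_self (n := L)).trans_le
      (Nat.pow_le_pow_right (by norm_num) hLS)
    calc (L + 1) * (2 ^ S * 2) ≤ 2 ^ S * (2 ^ S * 2) := Nat.mul_le_mul_right _ h1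
      _ = 2 ^ (S + (S + 1)) := by rw [pow_add, pow_succ]
      _ ≤ 2 ^ (6 * S) := Nat.pow_le_pow_right (by norm_num) (by omega)
  · refine headDetN_of_path (langU n) _ (fun t => ⟨cell n t, cell_lt hn t⟩)
      (fun t => decide (t % (2 * n) < n)) (fun t _ => cell_succ hn t)
      (e (⟨0, by omega⟩, (fun _ => true, false)))
      (fun t q b => e (sp n S L N t (e.symm q) b))
      (fun q => decide (2 ^ grpLen ((e.symm q).1 : ℕ) ≤ n) && (e.symm q).2.2)
      (fun x t => e (st S L N (cn L x L) x t)) ?_ ?_ ?_
    · intro x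
      unfold st
      rw [stB_zero]
      congr 2
      apply Fin.ext
      simp [cn]
    · intro x t _
      rw [e.symm_apply_apply, ← st_succ hn hLN x t]
    · intro x
      rw [e.symm_apply_apply]
      have hk : ST.expo n x = cn L x L := by
        unfold ST.expo cn
        rw [min_self, hL]
      obtain ⟨k, hk'⟩ : ∃ k, k = cn L x L := ⟨_, rfl⟩
      have hT : L ≤ 2 * n * R := by
        have : 1 ≤ R := by rw [hR]; exact Nat.le_add_left _ _
        nlinarith
      show (decide (2 ^ grpLen (cn L x (2 * n * R)) ≤ n) &&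
        (stB S L N (cn L x L) x (2 * n * R)).2) = (decide (2 ^ grpLen (ST.expo n x) ≤ n) &&
          langH (ST.expo n x) (n - Nat.log 2 n) (tailInp x))
      rw [cn_of_ge x hT, hk, ← hk']
      by_cases h2 : 2 ^ grpLen k ≤ n
      · simp only [h2, decide_true, Bool.true_and]
        unfold stB langH
        simp only
        obtain ⟨g, hg⟩ : ∃ g, g = grpLen k := ⟨_, rfl⟩
        have hgS : g ≤ S := by
          rw [hg]
          exact (Nat.pow_le_pow_iff_right (by norm_num : 1 < 2)).1 (h2.trans hnS)
        have hg0 : 0 < g := by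
          rw [hg]
          positivity
        have hr1 : 1 ≤ S / g := (Nat.one_le_div_iff hg0).2 hgS
        have hr2 : S ≤ 2 * (g * (S / g)) := by
          have h3 := Nat.div_add_mod S g
          have h4 := Nat.mod_lt S hg0
          nlinarith
        have hcov : N / (2 * k + 1) / g ≤ S / g * R := by
          have h3 : N / (2 * k + 1) / g ≤ n / g :=
            Nat.div_le_div_right ((Nat.div_le_self _ _).trans (by omega))
          refine h3.trans ?_
          have h4 : n ≤ g * (S / g * R) := by
            have h5 : S * R ≤ 2 * (g * (S / g)) * R := Nat.mul_le_mul_right _ hr2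
            have h6 : 2 * (g * (S / g)) * R = 2 * (g * (S / g * R)) := by ring
            omega
          exact Nat.div_le_of_le_mul h4
        rw [Nat.mul_div_cancel_left _ (show 0 < 2 * n by omega), Bool.eq_iff_iff,
          decide_eq_true_iff, decide_eq_true_iff]
        simp only [getBit_tail]
        unfold Od
        rw [← hL, ← hN, ← hg, min_eq_left hcov]
      · simp only [h2, decide_false, Bool.false_and]

end Pool.Agent.SH
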