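import Mathlib
import Pool.Agent.Lib.MP_b573ec_lc_ST.UpperB
import Pool.Agent.Lib.MP_69a69c_lc_SH.UModel

/-!
# Nondeterministic one-pass programs for `langU`

The program guesses the group `t`, counts the ones among the first `⌊log2 n⌋` bits, and stores, for
each of the positions of the group, whether all the blocks read so far have a one there.
-/

set_option autoImplicit false

namespace Pool.Agent.SH

open Pool.Agent.LT (Inp NondetOnePass)
open Pool.Agent.ST (getBit expo B8_path B8_nondet)

/-- the states of the program for `langU` -/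
private abbrev upperU_S (n : ℕ) : Type :=
  Fin n × Fin (Nat.log 2 n + 1) × (Fin (Nat.log 2 n) → Bool)

/-- the step of the program for `langU` -/
private def upperU_step (n m : ℕ) (s : upperU_S n) (b : Bool) : upperU_S n :=
  if m < Nat.log 2 n then
    (s.1, ⟨min (s.2.1 + b.toNat) (Nat.log 2 n), by omega⟩, s.2.2)
  else
    (s.1, s.2.1, fun i =>
      if (i : ℕ) < grpLen (s.2.1 : ℕ) ∧
          m - Nat.log 2 n < (2 * (s.2.1 : ℕ) + 1) *
            ((n - Nat.log 2 n) / (2 * (s.2.1 : ℕ) + 1)) ∧
          (m - Nat.log 2 n) % ((n - Nat.log 2 n) / (2 * (s.2.1 : ℕ) + 1)) =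
            grpLen (s.2.1 : ℕ) * (s.1 : ℕ) + i
      then s.2.2 i && b else s.2.2 i)

private theorem upperU_first {n : ℕ} (x : Inp n) (t : Fin n) (k : ℕ) (hk : k ≤ Nat.log 2 n) :
    (B8_path (upperU_step n) x (t, 0, fun _ => true) k).1 = t ∧
    ((B8_path (upperU_step n) x (t, 0, fun _ => true) k).2.1 : ℕ) =
      ∑ i ∈ Finset.range k, (getBit x i).toNat ∧
    (B8_path (upperU_step n) x (t, 0, fun _ => true) k).2.2 = fun _ => true := by
  induction k with
  | zero => simp [B8_path]
  | succ k ih =>
    obtain ⟨h1, h2, h3⟩ := ih (by omega)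
    have hk' : k < Nat.log 2 n := hk
    have hle : ∑ i ∈ Finset.range k, (getBit x i).toNat ≤ k := by
      calc ∑ i ∈ Finset.range k, (getBit x i).toNat ≤ ∑ _i ∈ Finset.range k, 1 :=
            Finset.sum_le_sum fun i _ => Bool.toNat_le _
        _ = k := by simp
    have hb : (getBit x k).toNat ≤ 1 := Bool.toNat_le _
    simp only [B8_path, upperU_step, hk', if_true]
    refine ⟨h1, ?_, h3⟩
    rw [Finset.sum_range_succ, h2]
    omega

private theorem upperU_second {n : ℕ} (x : Inp n) (t : Fin n) (m : ℕ) :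
    (B8_path (upperU_step n) x (t, 0, fun _ => true) (Nat.log 2 n + m)).1 = t ∧
    ((B8_path (upperU_step n) x (t, 0, fun _ => true) (Nat.log 2 n + m)).2.1 : ℕ) =
      expo n x ∧
    (B8_path (upperU_step n) x (t, 0, fun _ => true) (Nat.log 2 n + m)).2.2 =
      fun i : Fin (Nat.log 2 n) => decide ((i : ℕ) < grpLen (expo n x) → ∀ c < m,
        c < (2 * expo n x + 1) * ((n - Nat.log 2 n) / (2 * expo n x + 1)) →
        c % ((n - Nat.log 2 n) / (2 * expo n x + 1)) = grpLen (expo n x) * (t : ℕ) + i →
        getBit x (Nat.log 2 n + c) = true) := by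
  induction m with
  | zero =>
    obtain ⟨h1, h2, h3⟩ := upperU_first x t (Nat.log 2 n) le_rfl
    refine ⟨by simpa using h1, by simpa [expo] using h2, ?_⟩
    refine h3.trans ?_
    funext i
    simp
  | succ m ih =>
    obtain ⟨h1, h2, h3⟩ := ih
    have hm' : ¬ (Nat.log 2 n + m < Nat.log 2 n) := by omega
    rw [← Nat.add_assoc]
    simp only [B8_path, upperU_step, hm', if_false, Nat.add_sub_cancel_left]
    rw [h1, h2, h3]
    refine ⟨rfl, rfl, ?_⟩
    funext i
    generalize expo n x = k
    generalize (n - Nat.log 2 n) / (2 * k + 1) = N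
    have key : ((i : ℕ) < grpLen k → ∀ c < m + 1, c < (2 * k + 1) * N →
        c % N = grpLen k * (t : ℕ) + i → getBit x (Nat.log 2 n + c) = true) ↔
        (((i : ℕ) < grpLen k → ∀ c < m, c < (2 * k + 1) * N →
        c % N = grpLen k * (t : ℕ) + i → getBit x (Nat.log 2 n + c) = true) ∧
          ((i : ℕ) < grpLen k ∧ m < (2 * k + 1) * N ∧ m % N = grpLen k * (t : ℕ) + i →
            getBit x (Nat.log 2 n + m) = true)) := by
      constructor
      · intro h
        exact ⟨fun hi c hc => h hi c (by omega), fun hh => h hh.1 m (by omega) hh.2.1 hh.2.2⟩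
      · rintro ⟨h1, h2⟩ hi c hc hL he
        rcases Nat.lt_succ_iff_lt_or_eq.1 hc with h | h
        · exact h1 hi c h hL he
        · subst h
          exact h2 ⟨hi, hL, he⟩
    by_cases h : (i : ℕ) < grpLen k ∧ m < (2 * k + 1) * N ∧ m % N = grpLen k * (t : ℕ) + i
    · rw [if_pos h, Bool.eq_iff_iff]
      simp only [Bool.and_eq_true, decide_eq_true_eq]
      rw [key]
      exact ⟨fun hh => ⟨hh.1, fun _ => hh.2⟩, fun hh => ⟨hh.1, hh.2 h⟩⟩
    · rw [if_neg h, Bool.eq_iff_iff]
      simp only [decide_eq_true_eq]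
      rw [key]
      exact ⟨fun hh => ⟨hh, fun hh2 => absurd hh2 h⟩, fun hh => hh.1⟩

private theorem upperU_final {n B N g : ℕ} (hL : B * N ≤ n) (f : ℕ → Bool) (t i : ℕ)
    (hi : g * t + i < N) :
    (∀ c < n, c < B * N → c % N = g * t + i → f c = true) ↔
      ∀ j < B, f (j * N + (g * t + i)) = true := by
  have hN : 0 < N := by omega
  constructor
  · intro h j hj
    have h1 : j * N + (g * t + i) < B * N := by
      calc j * N + (g * t + i) < j * N + N := by omega
        _ = (j + 1) * N := by ring
        _ ≤ B * N := Nat.mul_le_mul_right N hj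
    refine h _ (by omega) h1 ?_
    rw [Nat.add_comm, Nat.add_mul_mod_self_right, Nat.mod_eq_of_lt hi]
  · intro h c _ hc he
    have h1 : c / N < B := Nat.div_lt_of_lt_mul (by rw [Nat.mul_comm]; exact hc)
    have h2 := h (c / N) h1
    rw [← he, Nat.mul_comm, Nat.div_add_mod] at h2
    exact h2

private theorem upperU_tail {n : ℕ} (x : Inp n) (c : ℕ) :
    getBit (tailInp x) c = getBit x (Nat.log 2 n + c) := by
  unfold getBit tailInp
  by_cases h : c < n - Nat.log 2 n
  · rw [dif_pos h, dif_pos (by omega)]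
  · rw [dif_neg h, dif_neg (by omega)]

theorem upperU : ∀ n ≥ 1, ∃ w ≤ n ^ 3, NondetOnePass (langU n) w := by
  intro n hn
  have hL : Nat.log 2 n ≤ n := Nat.log_le_self 2 n
  refine ⟨Fintype.card (upperU_S n), ?_, ?_⟩
  · simp only [Fintype.card_prod, Fintype.card_fin, Fintype.card_fun, Fintype.card_bool]
    have h1 : Nat.log 2 n + 1 ≤ n := Nat.log_lt_of_lt_pow (by omega) Nat.lt_two_pow_self
    have h2 : 2 ^ Nat.log 2 n ≤ n := Nat.pow_log_le_self 2 (by omega)
    calc n * ((Nat.log 2 n + 1) * 2 ^ Nat.log 2 n) ≤ n * (n * n) :=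
          Nat.mul_le_mul_left n (Nat.mul_le_mul h1 h2)
      _ = n ^ 3 := by ring
  · refine B8_nondet (langU n) (fun s => s.2 = (0, fun _ => true)) (upperU_step n)
      (fun s => 2 ^ grpLen (s.2.1 : ℕ) ≤ n ∧
        (s.1 : ℕ) < (n - Nat.log 2 n) / (2 * (s.2.1 : ℕ) + 1) / grpLen (s.2.1 : ℕ) ∧
        (∑ i : Fin (Nat.log 2 n), if (i : ℕ) < grpLen (s.2.1 : ℕ) then (s.2.2 i).toNat else 0)
          % 2 = 1) fun x => ?_
    have hpath : ∀ t : Fin n,
        (2 ^ grpLen ((B8_path (upperU_step n) x (t, 0, fun _ => true) n).2.1 : ℕ) ≤ n ∧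
        ((B8_path (upperU_step n) x (t, 0, fun _ => true) n).1 : ℕ) < (n - Nat.log 2 n) /
          (2 * ((B8_path (upperU_step n) x (t, 0, fun _ => true) n).2.1 : ℕ) + 1) /
          grpLen ((B8_path (upperU_step n) x (t, 0, fun _ => true) n).2.1 : ℕ) ∧
        (∑ i : Fin (Nat.log 2 n),
          if (i : ℕ) < grpLen ((B8_path (upperU_step n) x (t, 0, fun _ => true) n).2.1 : ℕ)
          then ((B8_path (upperU_step n) x (t, 0, fun _ => true) n).2.2 i).toNat else 0)
          % 2 = 1) ↔
        (2 ^ grpLen (expo n x) ≤ n ∧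
          (t : ℕ) < (n - Nat.log 2 n) / (2 * expo n x + 1) / grpLen (expo n x) ∧
          (∑ i ∈ Finset.range (grpLen (expo n x)), (decide (∀ j < 2 * expo n x + 1,
            getBit (tailInp x) (j * ((n - Nat.log 2 n) / (2 * expo n x + 1)) +
              (grpLen (expo n x) * t + i)) = true)).toNat) % 2 = 1) := by
      intro t
      obtain ⟨h1, h2, h3⟩ := upperU_second x t (n - Nat.log 2 n)
      rw [Nat.add_sub_cancel' hL] at h1 h2 h3
      rw [h1, h2, h3]
      refine and_congr_right fun hg => and_congr_right fun ht => ?_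
      have hg' : grpLen (expo n x) ≤ Nat.log 2 n := by
        exact (Nat.le_log_iff_pow_le (by norm_num) (by omega)).2 hg
      have hsum : (∑ i : Fin (Nat.log 2 n), if (i : ℕ) < grpLen (expo n x) then
          (decide ((i : ℕ) < grpLen (expo n x) → ∀ c < n - Nat.log 2 n,
            c < (2 * expo n x + 1) * ((n - Nat.log 2 n) / (2 * expo n x + 1)) →
            c % ((n - Nat.log 2 n) / (2 * expo n x + 1)) = grpLen (expo n x) * (t : ℕ) + i →
            getBit x (Nat.log 2 n + c) = true)).toNat else 0) =
          ∑ i ∈ Finset.range (grpLen (expo n x)), (decide (∀ j < 2 * expo n x + 1,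
            getBit (tailInp x) (j * ((n - Nat.log 2 n) / (2 * expo n x + 1)) +
              (grpLen (expo n x) * t + i)) = true)).toNat := by
        rw [← Finset.sum_range (fun i => if i < grpLen (expo n x) then
          (decide (i < grpLen (expo n x) → ∀ c < n - Nat.log 2 n,
            c < (2 * expo n x + 1) * ((n - Nat.log 2 n) / (2 * expo n x + 1)) →
            c % ((n - Nat.log 2 n) / (2 * expo n x + 1)) = grpLen (expo n x) * (t : ℕ) + i →
            getBit x (Nat.log 2 n + c) = true)).toNat else 0)]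
        rw [← Finset.sum_subset (Finset.range_subset_range.2 hg')]
        · refine Finset.sum_congr rfl fun i hi => ?_
          rw [Finset.mem_range] at hi
          rw [if_pos hi]
          congr 1
          have hi2 : grpLen (expo n x) * (t : ℕ) + i <
              (n - Nat.log 2 n) / (2 * expo n x + 1) := by
            have e1 : ((t : ℕ) + 1) * grpLen (expo n x) ≤
                (n - Nat.log 2 n) / (2 * expo n x + 1) :=
              (Nat.le_div_iff_mul_le (by positivity)).1 ht
            have e2 : ((t : ℕ) + 1) * grpLen (expo n x) =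
                grpLen (expo n x) * (t : ℕ) + grpLen (expo n x) := by ring
            omega
          refine decide_eq_decide.2 ?_
          rw [← upperU_final (Nat.mul_div_le _ _) (fun c => getBit (tailInp x) c) t i hi2]
          constructor
          · intro h c hc1 hc2 hc3
            rw [upperU_tail]
            exact h hi c hc1 hc2 hc3
          · intro h _ c hc1 hc2 hc3
            rw [← upperU_tail]
            exact h c hc1 hc2 hc3
        · intro i _ hi
          rw [Finset.mem_range] at hi
          rw [if_neg hi]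
      rw [hsum]
    simp only [langU, langH, Bool.and_eq_true, decide_eq_true_eq]
    constructor
    · rintro ⟨hg, t, ht, hs⟩
      have htn : t < n := by
        have h1 : (n - Nat.log 2 n) / (2 * expo n x + 1) / grpLen (expo n x) ≤ n :=
          ((Nat.div_le_self _ _).trans (Nat.div_le_self _ _)).trans (Nat.sub_le _ _)
        omega
      exact ⟨(⟨t, htn⟩, 0, fun _ => true), rfl, (hpath ⟨t, htn⟩).2 ⟨hg, ht, hs⟩⟩
    · rintro ⟨⟨t, s⟩, hs, ha⟩
      simp only at hs
      subst hs
      obtain ⟨hg, ht, hs⟩ := (hpath t).1 ha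
      exact ⟨hg, t, ht, hs⟩

end Pool.Agent.SH
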