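import Mathlib
import Pool.Agent.Lib.MP_69a69c_lc_SH.OSim
import Pool.Agent.Lib.MP_69a69c_lc_SH.LowerU
import Pool.Agent.Lib.MP_69a69c_lc_SH.UpperU
import Pool.Agent.Lib.MP_69a69c_lc_SH.TightU
import Pool.Agent.Lib.MP_69a69c_lc_SH.Dense

/-!
# No sparse set is complete for NP under Cook reductions by multihead stack machines
-/

set_option autoImplicit false

namespace Pool.Agent.SH

open Pool.Agent.LT (Inp NondetOnePass)
open Pool.Agent.StackO (AtMostPerLength)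

/-- one language for all numbers of heads -/
theorem resultU :
    (∀ n ≥ 1, ∃ w ≤ n ^ 3, NondetOnePass (langU n) w) ∧
    (∀ k : ℕ, ∃ C : ℕ, ∀ (A : Set (List Bool)) (n T S w : ℕ), AtMostPerLength A (2 ^ S) →
      1 ≤ n → n ≤ T → 1 ≤ S → n ≤ 2 ^ S → w ≤ 2 ^ S → C * T * S ≤ n ^ 2 →
      ¬ HeadDetO A (2 ^ S) (langU n) k T w ∧
        ¬ HeadNondetO A (2 ^ S) (fun x => !langU n x) k T w) ∧
    (∃ C : ℕ, ∀ n S : ℕ, 1 ≤ n → 1 ≤ S → n ≤ 2 ^ S → S ≤ n → ∃ T w : ℕ, n ≤ T ∧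
      T * S ≤ C * n ^ 2 ∧ w ≤ 2 ^ (C * S) ∧ HeadDetN (langU n) 1 T w) ∧
    ∃ A : Set (List Bool), ∀ n ≥ 1, HeadDetO A n (langU n) 1 n 2 := by
  refine ⟨upperU, fun k => ?_, tightU, oracleOf langU, fun n hn => detO_oracleOf langU n hn⟩
  obtain ⟨C, h2⟩ := lowerU k
  refine ⟨7 * C, fun A n T S w hA hn hT hS hnS hw hC => ?_⟩
  have h4 : n ≤ 2 ^ (7 * S) := hnS.trans (Nat.pow_le_pow_right (by norm_num) (by omega))
  have h5 : C * T * (7 * S) ≤ n ^ 2 := by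
    calc C * T * (7 * S) = 7 * C * T * S := by ring
      _ ≤ n ^ 2 := hC
  constructor
  · intro h6
    obtain ⟨w', h7, h8⟩ := headDet_of_O hA le_rfl hS hw h6
    exact (h2 n T (7 * S) w' hn hT (by omega) h4 h7 h5).2 h8
  · intro h6
    obtain ⟨w', h7, h8⟩ := headNondet_of_O hA le_rfl hS hw h6
    exact (h2 n T (7 * S) w' hn hT (by omega) h4 h7 h5).1 h8

end Pool.Agent.SH
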